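import Pool.Agent.Work.MAC67.Consts

namespace Pool.Agent.Work.MAC67

theorem z_three_ge : 17 / 10 ≤ z 3 := by
  rw [z_eq (by norm_num)]
  refine le_inf_quot (by norm_num) fun p h0 h1 => ?_
  have : Finset.Ico 2 3 = {2} := by decide
  rw [this, Finset.sum_singleton]
  have h : min (z 2) (z (3 - 2)) = 1 := by
    rw [show 3 - 2 = 1 from rfl, z_one, z_two]; norm_num
  simp only [h]
  norm_num [Nat.choose]
  have hq : 0 < 1 - p := by linarith
  obtain ⟨q, hqd⟩ : ∃ q, q = 1 - p := ⟨_, rfl⟩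
  rw [← hqd] at hq ⊢
  have e : (1 : ℝ) = (p + q) ^ 3 := by rw [hqd]; ring
  have key : 0 ≤ p ^ 3 + 9 / 10 * p ^ 2 * q - 21 / 10 * p * q ^ 2 + q ^ 3 := by
    have k1 : 0 ≤ p * (p - 3 / 5 * q) ^ 2 := by positivity
    have k2 : 0 ≤ q * (21 / 10 * p ^ 2 - 246 / 100 * p * q + q ^ 2) := by
      apply mul_nonneg hq.le
      nlinarith [sq_nonneg (p - 6 / 10 * q)]
    nlinarith
  have e2 : (1 : ℝ) + 3 * p ^ 2 * q - 17 / 10 * (1 - p ^ 3 - q ^ 3) =
      p ^ 3 + 9 / 10 * p ^ 2 * q - 21 / 10 * p * q ^ 2 + q ^ 3 := by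
    rw [hqd]; ring
  linarith

theorem z_four_ge : 2 ≤ z 4 := by
  rw [z_eq (by norm_num)]
  refine le_inf_quot (by norm_num) fun p h0 h1 => ?_
  have : Finset.Ico 2 4 = {2, 3} := by decide
  rw [this, Finset.sum_pair (by norm_num)]
  have h : min (z 2) (z (4 - 2)) = 2 := by
    rw [show 4 - 2 = 2 from rfl, z_two]; norm_num
  have h' : min (z 3) (z (4 - 3)) = 1 := by
    rw [show 4 - 3 = 1 from rfl, z_one, min_eq_right (one_le_z 3)]
  simp only [h, h']
  norm_num [Nat.choose]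
  have e2 : (1 : ℝ) + (2 * (6 * p ^ 2 * (1 - p) ^ 2) + 4 * p ^ 3 * (1 - p)) -
      2 * (1 - p ^ 4 - (1 - p) ^ 4) = (1 - p - p) ^ 4 + 4 * p ^ 3 * (1 - p) := by
    ring
  have : 0 ≤ (1 - p - p) ^ 4 + 4 * p ^ 3 * (1 - p) := by
    have : 0 < 1 - p := by linarith
    positivity
  linarith

theorem z_five_ge : 2 ≤ z 5 := by
  rw [z_eq (by norm_num)]
  refine le_inf_quot (by norm_num) fun p h0 h1 => ?_
  have : Finset.Ico 2 5 = {2, 3, 4} := by decide
  rw [this, Finset.sum_insert (by norm_num), Finset.sum_pair (by norm_num)]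
  have h3 := z_three_le
  have h2 : min (z 2) (z (5 - 2)) = z 3 := by
    rw [show 5 - 2 = 3 from rfl, z_two, min_eq_right (by linarith)]
  have h2' : min (z 3) (z (5 - 3)) = z 3 := by
    rw [show 5 - 3 = 2 from rfl, z_two, min_eq_left (by linarith)]
  have h4 : min (z 4) (z (5 - 4)) = 1 := by
    rw [show 5 - 4 = 1 from rfl, z_one, min_eq_right (one_le_z 4)]
  simp only [h2, h2', h4]
  norm_num [Nat.choose]
  have hq : 0 < 1 - p := by linarith
  have hz := z_three_ge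
  have hs : 0 ≤ 10 * p ^ 2 * (1 - p) ^ 3 + 10 * p ^ 3 * (1 - p) ^ 2 := by positivity
  have hm := mul_le_mul_of_nonneg_right hz hs
  have key : 0 ≤ p ^ 5 + (1 - p) ^ 5 + 7 * (p ^ 2 * (1 - p) ^ 3 + p ^ 3 * (1 - p) ^ 2) -
      5 * p * (1 - p) ^ 4 := by
    have k1 : 0 ≤ (1 - p) ^ 3 * (7 * p ^ 2 - 5 * p * (1 - p) + (1 - p) ^ 2) := by
      apply mul_nonneg (by positivity)
      nlinarith [sq_nonneg (p - 5 / 14 * (1 - p)), sq_nonneg (1 - p)]
    have k2 : 0 ≤ p ^ 5 + 7 * (p ^ 3 * (1 - p) ^ 2) := by positivity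
    nlinarith
  have e2 : (1 : ℝ) + (17 / 10 * (10 * p ^ 2 * (1 - p) ^ 3 + 10 * p ^ 3 * (1 - p) ^ 2) +
      5 * p ^ 4 * (1 - p)) - 2 * (1 - p ^ 5 - (1 - p) ^ 5) =
      p ^ 5 + (1 - p) ^ 5 + 7 * (p ^ 2 * (1 - p) ^ 3 + p ^ 3 * (1 - p) ^ 2) -
      5 * p * (1 - p) ^ 4 := by
    ring
  linarith

/-- for seven users the bound is `z_7` -/
theorem ell_seven : ell 7 = z 7 := by
  rw [z_eq (by norm_num), ell_eq]
  refine iInf_congr fun p => ?_
  unfold quot
  congr 2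
  refine Finset.sum_congr rfl fun i hi => ?_
  have hi' := Finset.mem_Ico.mp hi
  have h3 := z_three_le
  have h4 := z_four_ge
  have h5 := z_five_ge
  have h6 := one_le_z 6
  obtain ⟨h1, h2⟩ := hi'
  congr 1
  show coef 7 i = min (z i) (z (7 - i))
  unfold coef
  interval_cases i
  · rw [if_neg (by norm_num), if_pos (by norm_num), z_two, show 7 - 2 = 5 from rfl,
      min_eq_left h5]
  · rw [if_neg (by norm_num), if_neg (by norm_num), show 7 - 3 = 4 from rfl, min_eq_left]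
    linarith
  · rw [if_neg (by norm_num), if_neg (by norm_num), show 7 - 4 = 3 from rfl, min_eq_right]
    linarith
  · rw [if_neg (by norm_num), if_pos (by norm_num), show 7 - 5 = 2 from rfl, z_two,
      min_eq_right h5]
  · rw [if_pos (by norm_num), show 7 - 6 = 1 from rfl, z_one, min_eq_right h6]

end Pool.Agent.Work.MAC67
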