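import Pool.Agent.Work.MAC67.Comb

namespace Pool.Agent.Work.MAC67

open MeasureTheory
open scoped ENNReal

theorem mu_spl {n : ℕ} (μ : Measure ℝ) [IsFiniteMeasure μ] (B : Set ℝ) (S : Fin n → Set ℝ)
    (b : Fin n → Bool) :
    ∏ i, μ (spl B S b i) =
      ENNReal.ofReal (wt (fun i => μ.real (S i ∩ B)) (fun i => μ.real (S i \ B)) b) := by
  unfold wt
  rw [ENNReal.ofReal_prod_of_nonneg]
  · refine Finset.prod_congr rfl fun i _ => ?_
    unfold spl
    split <;> simp [Measure.real, ENNReal.ofReal_toReal]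
  · intro i _
    split <;> exact measureReal_nonneg

theorem real_add {μ : Measure ℝ} [IsFiniteMeasure μ] (T : Set ℝ) {B : Set ℝ}
    (hB : MeasurableSet B) : μ.real (T ∩ B) + μ.real (T \ B) = μ.real T :=
  measureReal_inter_add_sdiff hB

/-- lower bound `w` for all states with the label map `c` -/
def LBc {n : ℕ} (μ : Measure ℝ) (c : Fin n → ℕ) (w : ℝ) : Prop :=
  ∀ (A : List ℕ → Set ℝ), (∀ f, MeasurableSet (A f)) → ∀ (f : List ℕ) (T : ℕ → Set ℝ),
    (∀ l, MeasurableSet (T l)) →
    ENNReal.ofReal (w * ∏ i, μ.real (T (c i))) ≤ K μ A f (fun i => T (c i))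

theorem prod_real {n : ℕ} (μ : Measure ℝ) [IsFiniteMeasure μ] (S : Fin n → Set ℝ) :
    ENNReal.ofReal (∏ i, μ.real (S i)) = ∏ i, μ (S i) := by
  rw [ENNReal.ofReal_prod_of_nonneg fun i _ => measureReal_nonneg]
  exact Finset.prod_congr rfl fun i _ => by simp [Measure.real, ENNReal.ofReal_toReal]

theorem LBc_one {n : ℕ} (μ : Measure ℝ) [IsFiniteMeasure μ] (c : Fin n → ℕ) : LBc μ c 1 := by
  intro A _ f T _
  rw [one_mul, prod_real]
  exact vol_le_K μ A f _

open Classical in
theorem spl_cst {n : ℕ} {c : Fin n → ℕ} {b : Fin n → Bool} (hb : ∀ i j, c i = c j → b i = b j)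
    (B : Set ℝ) (T : ℕ → Set ℝ) :
    spl B (fun i => T (c i)) b =
      fun i => (fun l => if ∃ j, c j = l ∧ b j = true then T l ∩ B else T l \ B) (c i) := by
  funext i
  unfold spl
  by_cases hi : b i = true
  · have : ∃ j, c j = c i ∧ b j = true := ⟨i, rfl, hi⟩
    simp [hi, this]
  · have : ¬ ∃ j, c j = c i ∧ b j = true := by
      rintro ⟨j, hj, hbj⟩
      exact hi ((hb j i hj) ▸ hbj)
    simp only [hi, this, if_false]
    simp

open Classical in
theorem LBc_step {n : ℕ} (μ : Measure ℝ) [IsFiniteMeasure μ] (C : ℝ) (hC0 : 0 ≤ C)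
    (hC1 : C ≤ 788 / 1000)
    (h3 : ∀ v : ℝ, 0 ≤ v → 3 * v ≤ C * (1 + v ^ 3) + (1 - C) * (1 + v) ^ 3)
    (c : Fin n → ℕ) (hc : Small c) (w : ℝ) (hw1 : 1 ≤ w) (hw2 : w ≤ 1 + C) (h : LBc μ c w) :
    LBc μ c (w + (1 + C - w) / 5) := by
  intro A hA f T hT
  rw [K_step μ A hA f _ (fun i => hT (c i))]
  set x : Fin n → ℝ := fun i => μ.real (T (c i) ∩ A f) with hx
  set y : Fin n → ℝ := fun i => μ.real (T (c i) \ A f) with hy
  have hx0 : ∀ i, 0 ≤ x i := fun i => measureReal_nonneg
  have hy0 : ∀ i, 0 ≤ y i := fun i => measureReal_nonneg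
  have hwt : ∀ b, 0 ≤ wt x y b := wt_nonneg hx0 hy0
  set coef : (Fin n → Bool) → ℝ := fun b =>
    2 - (if num b = 1 then 1 else 0) + (if Cst c b then w - 1 else 0) with hcoef
  have hterm : ∀ b : Fin n → Bool, ENNReal.ofReal (coef b * wt x y b) ≤
      ∏ i, μ (spl (A f) (fun i => T (c i)) b i) +
        if num b = 1 then 0 else K μ A (num b :: f) (spl (A f) (fun i => T (c i)) b) := by
    intro b
    rw [mu_spl]
    by_cases h1 : num b = 1
    · have h2 : ¬ Cst c b := not_cst_of_num_one hc h1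
      have : coef b = 1 := by simp only [hcoef, h1, h2, if_true, if_false]; norm_num
      rw [this, if_pos h1, one_mul, add_zero]
    · rw [if_neg h1]
      by_cases h2 : Cst c b
      · have hco : coef b = 1 + w := by simp only [hcoef, h1, h2, if_true, if_false]; ring
        rw [hco, add_mul, one_mul, ENNReal.ofReal_add (hwt b) (mul_nonneg (by linarith) (hwt b))]
        refine add_le_add le_rfl ?_
        rw [spl_cst h2]
        refine le_trans (le_of_eq ?_) (h A hA (num b :: f)
          (fun l => if ∃ j, c j = l ∧ b j = true then T l ∩ A f else T l \ A f) ?_)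
        · congr 2
          unfold wt
          refine Finset.prod_congr rfl fun i _ => ?_
          have := congrFun (spl_cst h2 (A f) T) i
          simp only at this
          rw [← this]
          unfold spl
          split <;> rfl
        · intro l
          split
          · exact (hT l).inter (hA f)
          · exact (hT l).diff (hA f)
      · have hco : coef b = 2 := by simp only [hcoef, h1, h2, if_false]; norm_num
        rw [hco, two_mul, ENNReal.ofReal_add (hwt b) (hwt b)]
        refine add_le_add le_rfl ?_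
        refine le_trans (le_of_eq ?_) (vol_le_K μ A (num b :: f) _)
        rw [mu_spl]
  refine le_trans ?_ (Finset.sum_le_sum fun b _ => hterm b)
  have hcn : ∀ b, 0 ≤ coef b := by
    intro b
    simp only [hcoef]
    split <;> split <;> linarith
  rw [← ENNReal.ofReal_sum_of_nonneg fun b _ => mul_nonneg (hcn b) (hwt b)]
  apply ENNReal.ofReal_le_ofReal
  -- real inequality
  have hM : ∏ i, μ.real (T (c i)) = ∏ i, (x i + y i) :=
    Finset.prod_congr rfl fun i _ => (real_add _ (hA f)).symm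
  rw [hM]
  set M := ∏ i, (x i + y i) with hMd
  set S1 := ∑ b ∈ Finset.univ.filter (fun b : Fin n → Bool => num b = 1), wt x y b with hS1
  set Q := ∑ b ∈ Finset.univ.filter (fun b : Fin n → Bool => Cst c b), wt x y b with hQ
  have hsum : ∑ b, coef b * wt x y b = 2 * M - S1 + (w - 1) * Q := by
    rw [hMd, ← sum_wt, hS1, hQ, Finset.sum_filter, Finset.sum_filter, Finset.mul_sum,
      Finset.mul_sum, ← Finset.sum_sub_distrib, ← Finset.sum_add_distrib]
    refine Finset.sum_congr rfl fun b _ => ?_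
    simp only [hcoef]
    split <;> split <;> ring
  have hQ0 : 0 ≤ Q := Finset.sum_nonneg fun b _ => hwt b
  have hle : S1 + Q ≤ M := by
    rw [hMd, ← sum_wt, hS1, hQ, ← Finset.sum_union]
    · exact Finset.sum_le_sum_of_subset_of_nonneg (Finset.subset_univ _) fun b _ _ => hwt b
    · rw [Finset.disjoint_left]
      intro b hb hb'
      exact not_cst_of_num_one hc (Finset.mem_filter.mp hb).2 (Finset.mem_filter.mp hb').2
  have hS0 : 0 ≤ S1 := Finset.sum_nonneg fun b _ => hwt b
  have hkey : S1 ≤ (1 - C) * M + C * Q :=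
    single_le C hC0 hC1 h3 c hc (fun l => μ.real (T l ∩ A f)) (fun l => μ.real (T l \ A f))
      (fun l => measureReal_nonneg) (fun l => measureReal_nonneg)
  rw [hsum]
  have hM0 : 0 ≤ M := by linarith
  rcases le_total (M / 5) (M - Q) with hc1 | hc1
  · nlinarith [mul_nonneg (sub_nonneg.mpr hw2) (sub_nonneg.mpr hc1)]
  · nlinarith [mul_nonneg (sub_nonneg.mpr hw1) (sub_nonneg.mpr hc1)]

theorem LBc_limit {n : ℕ} (μ : Measure ℝ) [IsFiniteMeasure μ] (C : ℝ) (hC0 : 0 ≤ C)
    (hC1 : C ≤ 788 / 1000)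
    (h3 : ∀ v : ℝ, 0 ≤ v → 3 * v ≤ C * (1 + v ^ 3) + (1 - C) * (1 + v) ^ 3)
    (c : Fin n → ℕ) (hc : Small c) : LBc μ c (1 + C) := by
  have hk : ∀ k : ℕ, LBc μ c (1 + C - C * (4 / 5) ^ k) := by
    intro k
    induction k with
    | zero => simpa using LBc_one μ c
    | succ k ih =>
      have hp : 0 < (4 / 5 : ℝ) ^ k := by positivity
      have hp1 : (4 / 5 : ℝ) ^ k ≤ 1 := pow_le_one₀ (by norm_num) (by norm_num)
      have := LBc_step μ C hC0 hC1 h3 c hc _ (by nlinarith) (by nlinarith) ih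
      have e : 1 + C - C * (4 / 5) ^ k + (1 + C - (1 + C - C * (4 / 5) ^ k)) / 5 =
          1 + C - C * (4 / 5) ^ (k + 1) := by rw [pow_succ]; ring
      rwa [e] at this
  intro A hA f T hT
  have ht : Filter.Tendsto (fun k : ℕ => ENNReal.ofReal
      ((1 + C - C * (4 / 5) ^ k) * ∏ i, μ.real (T (c i)))) Filter.atTop
      (nhds (ENNReal.ofReal ((1 + C) * ∏ i, μ.real (T (c i))))) := by
    apply ENNReal.tendsto_ofReal
    apply Filter.Tendsto.mul_const
    have h0 : Filter.Tendsto (fun k : ℕ => (4 / 5 : ℝ) ^ k) Filter.atTop (nhds 0) :=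
      tendsto_pow_atTop_nhds_zero_of_lt_one (by norm_num) (by norm_num)
    have h1 := (h0.const_mul C).const_sub (1 + C)
    simpa using h1
  exact le_of_tendsto' ht fun k => hk k A hA f T hT

end Pool.Agent.Work.MAC67
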