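import Pool.Agent.Work.MAC67.Excess

namespace Pool.Agent.Work.MAC67

open MeasureTheory
open scoped ENNReal

/-- families on `m + 2` places with two special places -/
def cfg {m : ℕ} {α : Type} (s1 s2 : α) (τ : Fin m → α) : Fin (m + 2) → α :=
  Fin.cons s1 (Fin.cons s2 τ : Fin (m + 1) → α)

/-- one step for one set -/
def sp (B S : Set ℝ) (β : Bool) : Set ℝ := if β = true then S ∩ B else S \ B

theorem spl_eq_sp {n : ℕ} (B : Set ℝ) (S : Fin n → Set ℝ) (b : Fin n → Bool) :
    spl B S b = fun i => sp B (S i) (b i) := rfl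

theorem cfg_forall {m : ℕ} {α : Type} {p : α → Prop} {s1 s2 : α} {τ : Fin m → α}
    (h1 : p s1) (h2 : p s2) (h : ∀ j, p (τ j)) : ∀ i, p (cfg s1 s2 τ i) := by
  intro i
  unfold cfg
  refine Fin.cases ?_ (fun i => ?_) i
  · simpa using h1
  · rw [Fin.cons_succ]
    refine Fin.cases ?_ (fun i => ?_) i
    · simpa using h2
    · simpa using h i

theorem spl_cfg {m : ℕ} (B s1 s2 : Set ℝ) (τ : Fin m → Set ℝ) (b1 b2 : Bool)
    (b : Fin m → Bool) :
    spl B (cfg s1 s2 τ) (cfg b1 b2 b) = cfg (sp B s1 b1) (sp B s2 b2) (spl B τ b) := by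
  funext i
  rw [spl_eq_sp]
  unfold cfg
  refine Fin.cases ?_ (fun i => ?_) i
  · simp
  · simp only [Fin.cons_succ]
    refine Fin.cases ?_ (fun i => ?_) i
    · simp
    · simp [spl_eq_sp]

theorem prod_cfg {m : ℕ} {α : Type} {M : Type} [CommMonoid M] (g : α → M) (s1 s2 : α)
    (τ : Fin m → α) : ∏ i, g (cfg s1 s2 τ i) = g s1 * g s2 * ∏ j, g (τ j) := by
  unfold cfg
  rw [Fin.prod_univ_succ]
  simp only [Fin.cons_zero, Fin.cons_succ]
  rw [Fin.prod_univ_succ]
  simp only [Fin.cons_zero, Fin.cons_succ]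
  rw [mul_assoc]

theorem num_eq_sum {n : ℕ} (b : Fin n → Bool) : num b = ∑ i, if b i = true then 1 else 0 := by
  unfold num
  rw [Finset.card_filter]

theorem num_cfg {m : ℕ} (b1 b2 : Bool) (b : Fin m → Bool) :
    num (cfg b1 b2 b) = (if b1 = true then 1 else 0) + ((if b2 = true then 1 else 0) + num b) := by
  rw [num_eq_sum, num_eq_sum]
  unfold cfg
  rw [Fin.sum_univ_succ]
  simp only [Fin.cons_zero, Fin.cons_succ]
  rw [Fin.sum_univ_succ]
  simp only [Fin.cons_zero, Fin.cons_succ]

theorem sum_cfg {m : ℕ} {M : Type} [AddCommMonoid M] (G : (Fin (m + 2) → Bool) → M) :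
    ∑ b, G b = ∑ b1 : Bool, ∑ b2 : Bool, ∑ b : Fin m → Bool, G (cfg b1 b2 b) := by
  rw [← (Fin.consEquiv (fun _ : Fin (m + 2) => Bool)).sum_comp, Fintype.sum_prod_type]
  refine Finset.sum_congr rfl fun b1 _ => ?_
  rw [← (Fin.consEquiv (fun _ : Fin (m + 1) => Bool)).sum_comp, Fintype.sum_prod_type]
  rfl

/-- indicator of one place -/
def d1 {m : ℕ} (j : Fin m) : Fin m → Bool := fun k => decide (k = j)

/-- indicator of two places -/
def d2 {m : ℕ} (i j : Fin m) : Fin m → Bool := fun k => decide (k = i ∨ k = j)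

theorem num_one_eq {m : ℕ} {b : Fin m → Bool} (h : num b = 1) : ∃ j, b = d1 j := by
  unfold num at h
  obtain ⟨i, hi⟩ := Finset.card_eq_one.mp h
  refine ⟨i, ?_⟩
  funext j
  have : j ∈ (Finset.univ.filter fun i => b i = true) ↔ j ∈ ({i} : Finset (Fin m)) := by rw [hi]
  simp only [Finset.mem_filter, Finset.mem_univ, true_and, Finset.mem_singleton] at this
  unfold d1
  by_cases hj : j = i
  · rw [this.mpr hj]; simp [hj]
  · have hb : ¬ b j = true := fun h => hj (this.mp h)
    simp only [Bool.not_eq_true] at hb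
    rw [hb]; simp [hj]

theorem num_d1 {m : ℕ} (j : Fin m) : num (d1 j) = 1 := by
  unfold num d1
  simp [Finset.filter_eq']

theorem num_d2 {m : ℕ} {i j : Fin m} (h : i ≠ j) : num (d2 i j) = 2 := by
  unfold num d2
  have : (Finset.univ.filter fun k : Fin m => decide (k = i ∨ k = j) = true) = {i, j} := by
    ext k
    simp
  rw [this, Finset.card_pair h]

theorem d1_injective {m : ℕ} : Function.Injective (d1 : Fin m → Fin m → Bool) := by
  intro i j h
  have := congrFun h i
  simp only [d1, decide_true] at this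
  simpa using this.symm

theorem sum_num_one' {m : ℕ} {M : Type} [AddCommMonoid M] (F : (Fin m → Bool) → M) :
    ∑ b : Fin m → Bool, (if num b = 1 then F b else 0) = ∑ j, F (d1 j) := by
  rw [← Finset.sum_filter]
  have : (Finset.univ.filter fun b : Fin m → Bool => num b = 1) =
      Finset.univ.image (d1 : Fin m → Fin m → Bool) := by
    ext b
    simp only [Finset.mem_filter, Finset.mem_univ, true_and, Finset.mem_image]
    constructor
    · intro h
      obtain ⟨j, hj⟩ := num_one_eq h
      exact ⟨j, hj.symm⟩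
    · rintro ⟨j, rfl⟩
      exact num_d1 j
  rw [this, Finset.sum_image fun i _ j _ h => d1_injective h]

theorem sum_num_zero' {m : ℕ} {M : Type} [AddCommMonoid M] (F : (Fin m → Bool) → M) :
    ∑ b : Fin m → Bool, (if num b = 0 then F b else 0) = F fun _ => false := by
  rw [Finset.sum_eq_single (fun _ : Fin m => false)]
  · rw [if_pos num_false]
  · intro b _ hb
    rw [if_neg]
    exact fun h => hb (num_zero h)
  · intro h; exact absurd (Finset.mem_univ _) h

theorem d2_inj {m : ℕ} {i j k l : Fin m} (h1 : i < j) (h2 : k < l) (h : d2 i j = d2 k l) :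
    i = k ∧ j = l := by
  have e : ∀ x, (x = i ∨ x = j) ↔ (x = k ∨ x = l) := by
    intro x
    have := congrFun h x
    simp only [d2, decide_eq_decide] at this
    exact this
  have e1 := (e i).mp (Or.inl rfl)
  have e2 := (e j).mp (Or.inr rfl)
  have e3 := (e k).mpr (Or.inl rfl)
  have e4 := (e l).mpr (Or.inr rfl)
  rcases e1 with e1 | e1
  · rcases e2 with e2 | e2
    · exact absurd (e1.trans e2.symm) h1.ne
    · exact ⟨e1, e2⟩
  · rcases e2 with e2 | e2
    · rw [e1, e2] at h1
      exact absurd h1 h2.not_gt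
    · exact absurd (e1.trans e2.symm) h1.ne

theorem sum_num_two' {m : ℕ} (F : (Fin m → Bool) → ℝ≥0∞) :
    ∑ i : Fin m, ∑ j : Fin m, (if i < j then F (d2 i j) else 0) ≤
      ∑ b : Fin m → Bool, (if num b = 2 then F b else 0) := by
  rw [← Fintype.sum_prod_type' (f := fun i j : Fin m => if i < j then F (d2 i j) else 0),
    ← Finset.sum_filter, ← Finset.sum_filter]
  rw [← Finset.sum_image (f := F) (g := fun p : Fin m × Fin m => d2 p.1 p.2)]
  · refine Finset.sum_le_sum_of_subset fun b hb => ?_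
    obtain ⟨p, hp, rfl⟩ := Finset.mem_image.mp hb
    have := (Finset.mem_filter.mp hp).2
    exact Finset.mem_filter.mpr ⟨Finset.mem_univ _, num_d2 this.ne⟩
  · intro p hp q hq h
    have h1 := (Finset.mem_filter.mp hp).2
    have h2 := (Finset.mem_filter.mp hq).2
    obtain ⟨h3, h4⟩ := d2_inj h1 h2 h
    exact Prod.ext h3 h4

/-- the vectors with two transmitters -/
theorem sel {m : ℕ} (G : (Fin (m + 2) → Bool) → ℝ≥0∞) :
    G (cfg true true fun _ => false) + ∑ j, G (cfg true false (d1 j)) +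
      ∑ j, G (cfg false true (d1 j)) +
      ∑ i : Fin m, ∑ j : Fin m, (if i < j then G (cfg false false (d2 i j)) else 0) ≤
      ∑ b : Fin (m + 2) → Bool, if num b = 2 then G b else 0 := by
  rw [sum_cfg]
  simp only [Fintype.sum_bool, num_cfg, if_true, Bool.false_eq_true, if_false]
  have e1 : ∀ b : Fin m → Bool, (1 + (1 + num b) = 2) = (num b = 0) := fun b => by
    apply propext; omega
  have e2 : ∀ b : Fin m → Bool, (1 + (0 + num b) = 2) = (num b = 1) := fun b => by
    apply propext; omega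
  have e3 : ∀ b : Fin m → Bool, (0 + (1 + num b) = 2) = (num b = 1) := fun b => by
    apply propext; omega
  have e4 : ∀ b : Fin m → Bool, (0 + (0 + num b) = 2) = (num b = 2) := fun b => by
    apply propext; omega
  simp only [e1, e2, e3, e4]
  rw [sum_num_zero', sum_num_one', sum_num_one', add_assoc]
  refine add_le_add le_rfl (add_le_add le_rfl ?_)
  exact sum_num_two' fun b => G (cfg false false b)

/-! families with special places -/

/-- one place changed -/
def t1 {m : ℕ} (R : Set ℝ) (j : Fin m) (T : Set ℝ) : Fin m → Set ℝ :=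
  fun k => if k = j then T else R

/-- two places changed -/
def t2 {m : ℕ} (R : Set ℝ) (i : Fin m) (T : Set ℝ) (j : Fin m) (T' : Set ℝ) : Fin m → Set ℝ :=
  fun k => if k = i then T else if k = j then T' else R

theorem spl_t0_0 {m : ℕ} (B R : Set ℝ) :
    spl B (fun _ : Fin m => R) (fun _ => false) = fun _ => R \ B := by
  funext k; simp [spl]

theorem spl_t0_1 {m : ℕ} (B R : Set ℝ) (j : Fin m) :
    spl B (fun _ : Fin m => R) (d1 j) = t1 (R \ B) j (R ∩ B) := by
  funext k
  by_cases h : k = j <;> simp [spl, d1, t1, h]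

theorem spl_t0_2 {m : ℕ} (B R : Set ℝ) (i j : Fin m) :
    spl B (fun _ : Fin m => R) (d2 i j) = t2 (R \ B) i (R ∩ B) j (R ∩ B) := by
  funext k
  by_cases h : k = i <;> by_cases h' : k = j <;> simp [spl, d2, t2, h, h']

theorem spl_t1_0 {m : ℕ} (B R T : Set ℝ) (j : Fin m) :
    spl B (t1 R j T) (fun _ => false) = t1 (R \ B) j (T \ B) := by
  funext k
  by_cases h : k = j <;> simp [spl, t1, h]

theorem spl_t1_1 {m : ℕ} (B R T : Set ℝ) (j : Fin m) :
    spl B (t1 R j T) (d1 j) = t1 (R \ B) j (T ∩ B) := by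
  funext k
  by_cases h : k = j <;> simp [spl, t1, d1, h]

theorem spl_t1_l {m : ℕ} (B R T : Set ℝ) {i j : Fin m} (hij : i < j) :
    spl B (t1 R j T) (d1 i) = t2 (R \ B) i (R ∩ B) j (T \ B) := by
  funext k
  by_cases h : k = i
  · subst h
    simp [spl, t1, d1, t2, hij.ne]
  · by_cases h' : k = j <;> simp [spl, t1, d1, t2, h, h']
    subst h'
    simp [hij.ne']

theorem spl_t1_l2 {m : ℕ} (B R T : Set ℝ) {i j : Fin m} (hij : i < j) :
    spl B (t1 R j T) (d2 i j) = t2 (R \ B) i (R ∩ B) j (T ∩ B) := by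
  funext k
  by_cases h : k = i
  · subst h
    simp [spl, t1, d2, t2, hij.ne]
  · by_cases h' : k = j <;> simp [spl, t1, d2, t2, h, h']
    subst h'
    simp [hij.ne']

theorem spl_t1_r {m : ℕ} (B R T : Set ℝ) {i j : Fin m} (hij : i < j) :
    spl B (t1 R i T) (d1 j) = t2 (R \ B) i (T \ B) j (R ∩ B) := by
  funext k
  by_cases h : k = i
  · subst h
    simp [spl, t1, d1, t2, hij.ne]
  · by_cases h' : k = j <;> simp [spl, t1, d1, t2, h, h']
    subst h'
    simp [hij.ne']

theorem spl_t1_r2 {m : ℕ} (B R T : Set ℝ) {i j : Fin m} (hij : i < j) :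
    spl B (t1 R i T) (d2 i j) = t2 (R \ B) i (T ∩ B) j (R ∩ B) := by
  funext k
  by_cases h : k = i
  · subst h
    simp [spl, t1, d2, t2]
  · by_cases h' : k = j <;> simp [spl, t1, d2, t2, h, h']
    subst h'
    simp [hij.ne']

theorem spl_t2_0 {m : ℕ} (B R T T' : Set ℝ) (i j : Fin m) :
    spl B (t2 R i T j T') (fun _ => false) = t2 (R \ B) i (T \ B) j (T' \ B) := by
  funext k
  simp only [spl, t2, Bool.false_eq_true, if_false]
  by_cases h : k = i
  · simp only [h, if_true]
  · by_cases h' : k = j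
    · simp only [if_neg h, if_pos h']
    · simp only [if_neg h, if_neg h']

theorem spl_t2_l {m : ℕ} (B R T T' : Set ℝ) {i j : Fin m} (hij : i < j) :
    spl B (t2 R i T j T') (d1 i) = t2 (R \ B) i (T ∩ B) j (T' \ B) := by
  funext k
  by_cases h : k = i
  · subst h
    simp [spl, t2, d1]
  · by_cases h' : k = j <;> simp [spl, t2, d1, h, h']
    subst h'
    simp [hij.ne']

theorem spl_t2_r {m : ℕ} (B R T T' : Set ℝ) {i j : Fin m} (hij : i < j) :
    spl B (t2 R i T j T') (d1 j) = t2 (R \ B) i (T \ B) j (T' ∩ B) := by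
  funext k
  by_cases h : k = i
  · subst h
    simp [spl, t2, d1, hij.ne]
  · by_cases h' : k = j <;> simp [spl, t2, d1, h, h']
    subst h'
    simp [hij.ne']

theorem spl_t2_2 {m : ℕ} (B R T T' : Set ℝ) {i j : Fin m} (hij : i < j) :
    spl B (t2 R i T j T') (d2 i j) = t2 (R \ B) i (T ∩ B) j (T' ∩ B) := by
  funext k
  by_cases h : k = i
  · subst h
    simp [spl, t2, d2]
  · by_cases h' : k = j <;> simp [spl, t2, d2, h, h']
    subst h'
    simp [hij.ne']

end Pool.Agent.Work.MAC67
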