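import Pool.Agent.Work.MAC67.Core

namespace Pool.Agent.Work.MAC67

open MeasureTheory
open scoped ENNReal

/-- number of `true` -/
def num {n : ℕ} (b : Fin n → Bool) : ℕ := (Finset.univ.filter fun i => b i = true).card

/-- the refined sets after a slot -/
def spl {n : ℕ} (B : Set ℝ) (S : Fin n → Set ℝ) (b : Fin n → Bool) : Fin n → Set ℝ :=
  fun i => if b i = true then S i ∩ B else S i \ B

/-- unnormalised expected remaining time -/
noncomputable def K {n : ℕ} (μ : Measure ℝ) (A : List ℕ → Set ℝ) (f : List ℕ)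
    (S : Fin n → Set ℝ) : ℝ≥0∞ :=
  ∫⁻ u in Set.univ.pi S, ((Zt A u f : ℕ∞) : ℝ≥0∞) ∂(Measure.pi fun _ => μ)

theorem spl_measurable {n : ℕ} {B : Set ℝ} (hB : MeasurableSet B) {S : Fin n → Set ℝ}
    (hS : ∀ i, MeasurableSet (S i)) (b : Fin n → Bool) (i : Fin n) :
    MeasurableSet (spl B S b i) := by
  unfold spl
  split
  · exact (hS i).inter hB
  · exact (hS i).diff hB

theorem pi_eq_iUnion {n : ℕ} (B : Set ℝ) (S : Fin n → Set ℝ) :
    Set.univ.pi S = ⋃ b : Fin n → Bool, Set.univ.pi (spl B S b) := by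
  classical
  ext u
  simp only [Set.mem_univ_pi, Set.mem_iUnion, spl]
  constructor
  · intro h
    refine ⟨fun i => decide (u i ∈ B), fun i => ?_⟩
    by_cases hi : u i ∈ B
    · simp [hi, h i]
    · simp [hi, h i]
  · rintro ⟨b, hb⟩ i
    have := hb i
    split at this
    · exact this.1
    · exact this.1

theorem cnt_eq {n : ℕ} (A : List ℕ → Set ℝ) (f : List ℕ) (S : Fin n → Set ℝ)
    (b : Fin n → Bool) (u : Fin n → ℝ) (hu : u ∈ Set.univ.pi (spl (A f) S b)) :
    cnt A u f = num b := by
  unfold cnt num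
  congr 1
  ext i
  have := (Set.mem_univ_pi.mp hu) i
  simp only [Finset.mem_filter, Finset.mem_univ, true_and]
  unfold spl at this
  split at this
  · rename_i h; simp [h, this.2]
  · rename_i h; simp [h, this.2]

theorem pi_disjoint {n : ℕ} (B : Set ℝ) (S : Fin n → Set ℝ) :
    Pairwise (Function.onFun Disjoint fun b : Fin n → Bool => Set.univ.pi (spl B S b)) := by
  intro b c hbc
  rw [Function.onFun, Set.disjoint_left]
  intro u hb hc
  apply hbc
  funext i
  have h1 := (Set.mem_univ_pi.mp hb) i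
  have h2 := (Set.mem_univ_pi.mp hc) i
  unfold spl at h1 h2
  cases hbi : b i <;> cases hci : c i <;> simp [hbi, hci] at h1 h2 ⊢
  · exact h1.2 h2.2
  · exact h2.2 h1.2

theorem K_step {n : ℕ} (μ : Measure ℝ) [SigmaFinite μ] (A : List ℕ → Set ℝ)
    (hA : ∀ f, MeasurableSet (A f)) (f : List ℕ) (S : Fin n → Set ℝ)
    (hS : ∀ i, MeasurableSet (S i)) :
    K μ A f S = ∑ b : Fin n → Bool, (∏ i, μ (spl (A f) S b i) +
      if num b = 1 then 0 else K μ A (num b :: f) (spl (A f) S b)) := by
  unfold K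
  rw [pi_eq_iUnion (A f) S, lintegral_iUnion, tsum_fintype]
  · refine Finset.sum_congr rfl fun b _ => ?_
    have hm : MeasurableSet (Set.univ.pi (spl (A f) S b)) :=
      MeasurableSet.univ_pi fun i => spl_measurable (hA f) hS b i
    have hv : ∏ i, μ (spl (A f) S b i) =
        ∫⁻ _ in Set.univ.pi (spl (A f) S b), 1 ∂(Measure.pi fun _ => μ) := by
      rw [setLIntegral_one, Measure.pi_pi]
    rw [hv]
    split
    · rename_i h1
      rw [add_zero]
      refine setLIntegral_congr_fun hm fun u hu => ?_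
      have : cnt A u f = 1 := by rw [cnt_eq A f S b u hu, h1]
      rw [Zt_eq_one A u f this]
      simp
    · rename_i h1
      rw [← lintegral_add_left measurable_const]
      refine setLIntegral_congr_fun hm fun u hu => ?_
      have hc := cnt_eq A f S b u hu
      have : cnt A u f ≠ 1 := by rw [hc]; exact h1
      rw [Zt_step A u f this]
      unfold nxt
      rw [hc]
      simp
  · exact fun b => MeasurableSet.univ_pi fun i => spl_measurable (hA f) hS b i
  · exact pi_disjoint (A f) S

theorem vol_le_K {n : ℕ} (μ : Measure ℝ) [SigmaFinite μ] (A : List ℕ → Set ℝ) (f : List ℕ)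
    (S : Fin n → Set ℝ) : ∏ i, μ (S i) ≤ K μ A f S := by
  unfold K
  rw [← Measure.pi_pi, ← setLIntegral_one]
  refine lintegral_mono fun u => ?_
  have h1 := ENat.toENNReal_le.mpr (one_le_Zt A u f)
  rwa [ENat.toENNReal_one] at h1

end Pool.Agent.Work.MAC67
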