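import Pool.Agent.Work.MAC67.Prod
import Pool.Agent.Work.MAC67.Step

namespace Pool.Agent.Work.MAC67

/-- weight of a transmission vector -/
noncomputable def wt {n : ℕ} (x y : Fin n → ℝ) (b : Fin n → Bool) : ℝ :=
  ∏ i, if b i = true then x i else y i

theorem wt_nonneg {n : ℕ} {x y : Fin n → ℝ} (hx : ∀ i, 0 ≤ x i) (hy : ∀ i, 0 ≤ y i)
    (b : Fin n → Bool) : 0 ≤ wt x y b := by
  unfold wt
  exact Finset.prod_nonneg fun i _ => by split <;> simp [hx, hy]

theorem sum_wt {n : ℕ} (x y : Fin n → ℝ) : ∑ b : Fin n → Bool, wt x y b = ∏ i, (x i + y i) := by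
  have h : ∏ i, (x i + y i) = ∏ i : Fin n, ∑ j : Bool, (if j = true then x i else y i) := by
    refine Finset.prod_congr rfl fun i _ => ?_
    rw [Fintype.sum_bool]; simp
  rw [h, Finset.prod_univ_sum, Fintype.piFinset_univ]
  rfl

theorem num_one_filter {n : ℕ} :
    (Finset.univ.filter fun b : Fin n → Bool => num b = 1) =
      Finset.univ.image (fun i : Fin n => fun j : Fin n => decide (j = i)) := by
  ext b
  simp only [Finset.mem_filter, Finset.mem_univ, true_and, Finset.mem_image]
  constructor
  · intro h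
    unfold num at h
    obtain ⟨i, hi⟩ := Finset.card_eq_one.mp h
    refine ⟨i, ?_⟩
    funext j
    have : j ∈ (Finset.univ.filter fun i => b i = true) ↔ j ∈ ({i} : Finset (Fin n)) := by rw [hi]
    simp only [Finset.mem_filter, Finset.mem_univ, true_and, Finset.mem_singleton] at this
    by_cases hj : j = i
    · have hb := this.mpr hj
      rw [hb, hj]; simp
    · have hb : ¬ b j = true := fun h => hj (this.mp h)
      simp only [Bool.not_eq_true] at hb
      rw [hb]; simp [hj]
  · rintro ⟨i, rfl⟩
    unfold num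
    simp [Finset.filter_eq']

theorem sum_num_one {n : ℕ} (F : (Fin n → Bool) → ℝ) :
    ∑ b ∈ Finset.univ.filter (fun b : Fin n → Bool => num b = 1), F b =
      ∑ i : Fin n, F (fun j => decide (j = i)) := by
  rw [num_one_filter, Finset.sum_image]
  intro i _ j _ hij
  have := congrFun hij i
  simpa using this

theorem wt_single {n : ℕ} (x y : Fin n → ℝ) (i : Fin n) :
    wt x y (fun j => decide (j = i)) = x i * ∏ j ∈ Finset.univ.erase i, y j := by
  unfold wt
  rw [← Finset.mul_prod_erase Finset.univ _ (Finset.mem_univ i)]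
  congr 1
  · simp
  · refine Finset.prod_congr rfl fun j hj => ?_
    have := Finset.ne_of_mem_erase hj
    simp [this]

/-- label maps all of whose classes have two or three elements -/
def Small {n : ℕ} (c : Fin n → ℕ) : Prop :=
  ∀ i, (Finset.univ.filter fun j => c j = c i).card = 2 ∨
    (Finset.univ.filter fun j => c j = c i).card = 3

/-- vectors constant on the classes -/
def Cst {n : ℕ} (c : Fin n → ℕ) (b : Fin n → Bool) : Prop := ∀ i j, c i = c j → b i = b j

theorem exists_other {n : ℕ} {c : Fin n → ℕ} (hc : Small c) (i : Fin n) :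
    ∃ j, j ≠ i ∧ c j = c i := by
  have h : 1 < (Finset.univ.filter fun j => c j = c i).card := by
    rcases hc i with h | h <;> rw [h] <;> norm_num
  obtain ⟨j, hj, hne⟩ := Finset.exists_mem_ne h i
  exact ⟨j, hne, (Finset.mem_filter.mp hj).2⟩

theorem not_cst_of_num_one {n : ℕ} {c : Fin n → ℕ} (hc : Small c) {b : Fin n → Bool}
    (hb : num b = 1) : ¬ Cst c b := by
  intro h
  have hb' : b ∈ (Finset.univ.filter fun b : Fin n → Bool => num b = 1) := by simp [hb]
  rw [num_one_filter, Finset.mem_image] at hb'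
  obtain ⟨i, _, rfl⟩ := hb'
  obtain ⟨j, hji, hcj⟩ := exists_other hc i
  have := h j i hcj
  simp [hji] at this

open Classical in
/-- the key inequality for the sums -/
theorem single_le {n : ℕ} (C : ℝ) (hC0 : 0 ≤ C) (hC1 : C ≤ 788 / 1000)
    (h3 : ∀ v : ℝ, 0 ≤ v → 3 * v ≤ C * (1 + v ^ 3) + (1 - C) * (1 + v) ^ 3)
    (c : Fin n → ℕ) (hc : Small c) (X Y : ℕ → ℝ) (hX : ∀ l, 0 ≤ X l) (hY : ∀ l, 0 ≤ Y l) :
    ∑ b ∈ Finset.univ.filter (fun b : Fin n → Bool => num b = 1),
        wt (fun i => X (c i)) (fun i => Y (c i)) b ≤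
      (1 - C) * ∏ i, (X (c i) + Y (c i)) +
      C * ∑ b ∈ Finset.univ.filter (fun b : Fin n → Bool => Cst c b),
        wt (fun i => X (c i)) (fun i => Y (c i)) b := by
  have hw : ∀ b : Fin n → Bool, 0 ≤ wt (fun i => X (c i)) (fun i => Y (c i)) b :=
    wt_nonneg (fun i => hX _) (fun i => hY _)
  rw [sum_num_one]
  simp only [wt_single]
  by_cases h0 : ∃ j, Y (c j) = 0
  · obtain ⟨j, hj⟩ := h0
    have hz : ∀ i : Fin n, X (c i) * ∏ k ∈ Finset.univ.erase i, Y (c k) = 0 := by
      intro i
      obtain ⟨k, hk, hkc⟩ : ∃ k, k ≠ i ∧ c k = c j := by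
        by_cases hij : j = i
        · subst hij; exact exists_other hc j
        · exact ⟨j, hij, rfl⟩
      rw [Finset.prod_eq_zero (Finset.mem_erase.mpr ⟨hk, Finset.mem_univ k⟩) (by rw [hkc, hj]),
        mul_zero]
    rw [Finset.sum_eq_zero fun i _ => hz i]
    have h1 : 0 ≤ ∏ i, (X (c i) + Y (c i)) :=
      Finset.prod_nonneg fun i _ => add_nonneg (hX _) (hY _)
    have h2 := Finset.sum_nonneg fun b (_ : b ∈ Finset.univ.filter
      (fun b : Fin n → Bool => Cst c b)) => hw b
    have : 0 ≤ 1 - C := by linarith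
    positivity
  · push Not at h0
    have hpos : ∀ j, 0 < Y (c j) := fun j => lt_of_le_of_ne (hY _) (h0 j).symm
    set v : ℕ → ℝ := fun l => X l / Y l with hv
    set N := ∏ j, Y (c j) with hN
    have hN0 : 0 < N := Finset.prod_pos fun j _ => hpos j
    set L := Finset.univ.image c with hL
    set g : ℕ → ℕ := fun l => (Finset.univ.filter fun j : Fin n => c j = l).card with hg
    have hv0 : ∀ l, 0 ≤ v l := fun l => div_nonneg (hX l) (hY l)
    have hvX : ∀ i : Fin n, X (c i) = v (c i) * Y (c i) := fun i => by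
      simp only [hv]; field_simp [(hpos i).ne']
    have hgL : ∀ l ∈ L, g l = 2 ∨ g l = 3 := by
      intro l hl
      obtain ⟨i, _, rfl⟩ := Finset.mem_image.mp hl
      exact hc i
    -- left-hand side
    have eS : ∑ i : Fin n, X (c i) * ∏ k ∈ Finset.univ.erase i, Y (c k) =
        N * ∑ l ∈ L, (g l : ℝ) * v l := by
      have : ∑ l ∈ L, (g l : ℝ) * v l = ∑ i : Fin n, v (c i) := by
        rw [hL, Finset.sum_comp v c]
        refine Finset.sum_congr rfl fun l _ => ?_
        rw [nsmul_eq_mul]
      rw [this, Finset.mul_sum]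
      refine Finset.sum_congr rfl fun i _ => ?_
      rw [hvX i, hN, ← Finset.mul_prod_erase Finset.univ _ (Finset.mem_univ i)]
      ring
    have eM : ∏ i, (X (c i) + Y (c i)) = N * ∏ l ∈ L, (1 + v l) ^ g l := by
      have : ∏ l ∈ L, (1 + v l) ^ g l = ∏ i : Fin n, (1 + v (c i)) := by
        rw [hL, Finset.prod_comp (fun l => 1 + v l) c]
      rw [this, hN, ← Finset.prod_mul_distrib]
      refine Finset.prod_congr rfl fun i _ => ?_
      rw [hvX i]; ring
    have eQ : N * ∏ l ∈ L, (1 + v l ^ g l) ≤
        ∑ b ∈ Finset.univ.filter (fun b : Fin n → Bool => Cst c b),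
          wt (fun i => X (c i)) (fun i => Y (c i)) b := by
      have h1 : N * ∏ l ∈ L, (1 + v l ^ g l) = ∑ t ∈ L.powerset,
          wt (fun i => X (c i)) (fun i => Y (c i)) (fun i => decide (c i ∈ t)) := by
        rw [Finset.prod_one_add, Finset.mul_sum]
        refine Finset.sum_congr rfl fun t ht => ?_
        have htL := Finset.mem_powerset.mp ht
        have h2 : ∏ l ∈ t, v l ^ g l = ∏ i : Fin n, (if c i ∈ t then v (c i) else 1) := by
          rw [Finset.prod_comp (fun l => if l ∈ t then v l else 1) c, ← hL]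
          have h3 : ∏ l ∈ L, (if l ∈ t then v l else 1) ^ g l =
              ∏ l ∈ L, (if l ∈ t then v l ^ g l else 1) := by
            refine Finset.prod_congr rfl fun l _ => ?_
            split <;> simp
          have h4 : L ∩ t = t := Finset.inter_eq_right.mpr htL
          calc ∏ l ∈ t, v l ^ g l = ∏ l ∈ L ∩ t, v l ^ g l := by rw [h4]
            _ = ∏ l ∈ L, (if l ∈ t then v l ^ g l else 1) := by
              rw [Finset.prod_ite_mem]
            _ = _ := h3.symm
        rw [h2, hN, ← Finset.prod_mul_distrib]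
        unfold wt
        refine Finset.prod_congr rfl fun i _ => ?_
        by_cases hi : c i ∈ t
        · simp only [hi, if_true, decide_true]
          rw [hvX i]; ring
        · simp [hi]
      rw [h1]
      have hinj : Set.InjOn (fun t : Finset ℕ => fun i : Fin n => decide (c i ∈ t))
          (L.powerset : Set (Finset ℕ)) := by
        intro t ht t' ht' h
        have htL : t ⊆ L := Finset.mem_powerset.mp ht
        have htL' : t' ⊆ L := Finset.mem_powerset.mp ht'
        ext l
        constructor
        · intro hl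
          obtain ⟨i, _, hi⟩ := Finset.mem_image.mp (htL hl)
          have := congrFun h i
          simp only [hi, decide_eq_decide] at this
          exact this.mp hl
        · intro hl
          obtain ⟨i, _, hi⟩ := Finset.mem_image.mp (htL' hl)
          have := congrFun h i
          simp only [hi, decide_eq_decide] at this
          exact this.mpr hl
      rw [← Finset.sum_image (f := fun b => wt (fun i => X (c i)) (fun i => Y (c i)) b) hinj]
      refine Finset.sum_le_sum_of_subset_of_nonneg ?_ fun b _ _ => hw b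
      intro b hb
      obtain ⟨t, _, rfl⟩ := Finset.mem_image.mp hb
      rw [Finset.mem_filter]
      refine ⟨Finset.mem_univ _, fun i j hij => ?_⟩
      simp [hij]
    have key := prod_ineq C hC0 hC1 h3 L g hgL v (fun l _ => hv0 l)
    rw [eS, eM]
    have := mul_le_mul_of_nonneg_left key hN0.le
    have h5 := mul_le_mul_of_nonneg_left eQ hC0
    nlinarith

end Pool.Agent.Work.MAC67
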