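import Pool.Agent.Work.MAC67.Blocks

namespace Pool.Agent.Work.MAC67

/-- the denominator is positive -/
theorem den_pos {n : ℕ} (hn : 2 ≤ n) {p : ℝ} (h0 : 0 < p) (h1 : p < 1) :
    0 < 1 - p ^ n - (1 - p) ^ n := by
  have h2 : p ^ n ≤ p ^ 2 := pow_le_pow_of_le_one h0.le h1.le hn
  have h3 : (1 - p) ^ n ≤ (1 - p) ^ 2 :=
    pow_le_pow_of_le_one (by linarith) (by linarith) hn
  nlinarith

theorem den_le_one {n : ℕ} {p : ℝ} (h0 : 0 < p) (h1 : p < 1) :
    1 - p ^ n - (1 - p) ^ n ≤ 1 := by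
  have h2 : 0 ≤ p ^ n := pow_nonneg h0.le n
  have h3 : 0 ≤ (1 - p) ^ n := pow_nonneg (by linarith) n
  linarith

/-- the numbers of the recursion for given coefficients -/
noncomputable def quot (n : ℕ) (e : ℕ → ℝ) (p : ℝ) : ℝ :=
  (1 + ∑ i ∈ Finset.Ico 2 n, e i * ((n.choose i : ℝ) * p ^ i * (1 - p) ^ (n - i))) /
    (1 - p ^ n - (1 - p) ^ n)

theorem z_eq {n : ℕ} (hn : 2 ≤ n) :
    z n = ⨅ p : Set.Ioo (0 : ℝ) 1, quot n (fun i => min (z i) (z (n - i))) p := by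
  rw [z, if_neg (by omega)]
  refine iInf_congr fun p => ?_
  unfold quot
  congr 2
  rw [Finset.sum_coe_sort (Finset.Ico 2 n) (fun i : ℕ => min (z i) (z (n - i)) *
      ((n.choose i : ℝ) * (p : ℝ) ^ i * (1 - (p : ℝ)) ^ (n - i)))]

theorem one_le_quot {n : ℕ} (hn : 2 ≤ n) {e : ℕ → ℝ} (he : ∀ i ∈ Finset.Ico 2 n, 0 ≤ e i)
    {p : ℝ} (h0 : 0 < p) (h1 : p < 1) : 1 ≤ quot n e p := by
  unfold quot
  rw [le_div_iff₀ (den_pos hn h0 h1), one_mul]
  have h2 : 0 ≤ ∑ i ∈ Finset.Ico 2 n, e i * ((n.choose i : ℝ) * p ^ i * (1 - p) ^ (n - i)) := by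
    refine Finset.sum_nonneg fun i hi => ?_
    have h3 : 0 ≤ 1 - p := by linarith
    have := he i hi
    positivity
  have := den_le_one (n := n) h0 h1
  linarith

theorem bdd_quot {n : ℕ} (hn : 2 ≤ n) {e : ℕ → ℝ} (he : ∀ i ∈ Finset.Ico 2 n, 0 ≤ e i) :
    BddBelow (Set.range fun p : Set.Ioo (0 : ℝ) 1 => quot n e p) := by
  refine ⟨1, ?_⟩
  rintro _ ⟨p, rfl⟩
  exact one_le_quot hn he p.2.1 p.2.2

instance : Nonempty (Set.Ioo (0 : ℝ) 1) := ⟨⟨1 / 2, by norm_num, by norm_num⟩⟩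

theorem one_le_inf {n : ℕ} (hn : 2 ≤ n) {e : ℕ → ℝ} (he : ∀ i ∈ Finset.Ico 2 n, 0 ≤ e i) :
    1 ≤ ⨅ p : Set.Ioo (0 : ℝ) 1, quot n e p :=
  le_ciInf fun p => one_le_quot hn he p.2.1 p.2.2

theorem one_le_z (n : ℕ) : 1 ≤ z n := by
  induction n using Nat.strong_induction_on with
  | _ n ih =>
    by_cases hn : 2 ≤ n
    · rw [z_eq hn]
      refine one_le_inf hn fun i hi => ?_
      have hi' := Finset.mem_Ico.mp hi
      exact le_min (by linarith [ih i hi'.2]) (by linarith [ih (n - i) (by omega)])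
    · rw [z, if_pos (by omega)]

theorem z_one : z 1 = 1 := by rw [z, if_pos le_rfl]

theorem z_two : z 2 = 2 := by
  rw [z_eq le_rfl]
  apply le_antisymm
  · refine (ciInf_le (bdd_quot le_rfl (by simp)) ⟨1 / 2, by norm_num, by norm_num⟩).trans ?_
    simp only [quot]
    norm_num
  · refine le_ciInf fun p => ?_
    have h0 := p.2.1
    have h1 := p.2.2
    rw [quot, le_div_iff₀ (den_pos le_rfl h0 h1)]
    simp only [Finset.Ico_self, Finset.sum_empty, add_zero]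
    nlinarith [sq_nonneg (2 * (p : ℝ) - 1)]

theorem z_three : z 3 = ⨅ p : Set.Ioo (0 : ℝ) 1,
    (1 + 3 * (p : ℝ) ^ 2 * (1 - p)) / (1 - (p : ℝ) ^ 3 - (1 - p) ^ 3) := by
  rw [z_eq (by norm_num)]
  refine iInf_congr fun p => ?_
  unfold quot
  have : Finset.Ico 2 3 = {2} := by decide
  rw [this, Finset.sum_singleton]
  have h : min (z 2) (z (3 - 2)) = 1 := by
    rw [show 3 - 2 = 1 from rfl, z_one, z_two]; norm_num
  simp only [h]
  norm_num [Nat.choose]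

theorem z_three_le : z 3 ≤ 1788 / 1000 := by
  rw [z_three]
  refine (ciInf_le ?_ ⟨412 / 1000, by norm_num, by norm_num⟩).trans ?_
  · refine ⟨0, ?_⟩
    rintro _ ⟨p, rfl⟩
    have h0 := p.2.1
    have h1 := p.2.2
    have h2 := den_pos (n := 3) (by norm_num) h0 h1
    have h3 : 0 ≤ 1 - (p : ℝ) := by linarith
    show 0 ≤ (1 + 3 * (p : ℝ) ^ 2 * (1 - p)) / (1 - (p : ℝ) ^ 3 - (1 - p) ^ 3)
    positivity
  · norm_num

theorem z_three_mul {p : ℝ} (h0 : 0 < p) (h1 : p < 1) :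
    z 3 * (3 * p * (1 - p)) ≤ 1 + 3 * p ^ 2 * (1 - p) := by
  have hd := den_pos (n := 3) (by norm_num) h0 h1
  have : z 3 ≤ (1 + 3 * p ^ 2 * (1 - p)) / (1 - p ^ 3 - (1 - p) ^ 3) := by
    rw [z_three]
    refine ciInf_le (f := fun p : Set.Ioo (0 : ℝ) 1 => (1 + 3 * (p : ℝ) ^ 2 * (1 - p)) /
      (1 - (p : ℝ) ^ 3 - (1 - p) ^ 3)) ?_ ⟨p, h0, h1⟩
    refine ⟨0, ?_⟩
    rintro _ ⟨p, rfl⟩
    have h0 := p.2.1
    have h1 := p.2.2
    have h2 := den_pos (n := 3) (by norm_num) h0 h1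
    have h3 : 0 ≤ 1 - (p : ℝ) := by linarith
    show 0 ≤ (1 + 3 * (p : ℝ) ^ 2 * (1 - p)) / (1 - (p : ℝ) ^ 3 - (1 - p) ^ 3)
    positivity
  rw [le_div_iff₀ hd] at this
  have e : 1 - p ^ 3 - (1 - p) ^ 3 = 3 * p * (1 - p) := by ring
  rwa [e] at this

/-- the inequality for a block of three users -/
theorem block_three (v : ℝ) (hv : 0 ≤ v) :
    3 * v ≤ (z 3 - 1) * (1 + v ^ 3) + (1 - (z 3 - 1)) * (1 + v) ^ 3 := by
  rcases hv.eq_or_lt with rfl | hv
  · norm_num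
  · have h1 : 0 < 1 + v := by linarith
    have hp0 : 0 < v / (1 + v) := by positivity
    have hp1 : v / (1 + v) < 1 := by rw [div_lt_one h1]; linarith
    have h := z_three_mul hp0 hp1
    have e1 : 1 - v / (1 + v) = 1 / (1 + v) := by field_simp; ring
    rw [e1] at h
    have h2 := mul_le_mul_of_nonneg_right h (pow_nonneg h1.le 3)
    have e2 : z 3 * (3 * (v / (1 + v)) * (1 / (1 + v))) * (1 + v) ^ 3 = z 3 * (3 * v * (1 + v)) := by
      field_simp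
    have e3 : (1 + 3 * (v / (1 + v)) ^ 2 * (1 / (1 + v))) * (1 + v) ^ 3 =
        (1 + v) ^ 3 + 3 * v ^ 2 := by
      field_simp
    rw [e2, e3] at h2
    nlinarith

/-- The coefficients of the lower bound. -/
noncomputable def coef (n i : ℕ) : ℝ :=
  if i = n - 1 then 1 else if 7 ≤ n ∧ (i = 2 ∨ i = n - 2) then 2 else z 3

/-- The lower bound of the general theorem: the recursion for `z_n` with `coef n i` in the place of
`min (z_i) (z_(n-i))`. -/
noncomputable def ell (n : ℕ) : ℝ :=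
  ⨅ p : Set.Ioo (0 : ℝ) 1,
    (1 + ∑ i ∈ Finset.Ico 2 n, coef n i *
      ((n.choose i : ℝ) * (p : ℝ) ^ i * (1 - (p : ℝ)) ^ (n - i))) /
        (1 - (p : ℝ) ^ n - (1 - (p : ℝ)) ^ n)

theorem ell_eq (n : ℕ) : ell n = ⨅ p : Set.Ioo (0 : ℝ) 1, quot n (coef n) p := rfl

theorem coef_nonneg (n i : ℕ) : 0 ≤ coef n i := by
  unfold coef
  split
  · norm_num
  · split
    · norm_num
    · linarith [one_le_z 3]

theorem coef_le_two (n i : ℕ) : coef n i ≤ 2 := by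
  unfold coef
  split
  · norm_num
  · split
    · exact le_rfl
    · linarith [z_three_le]

theorem one_le_ell {n : ℕ} (hn : 2 ≤ n) : 1 ≤ ell n := by
  rw [ell_eq]
  exact one_le_inf hn fun i _ => coef_nonneg n i

theorem ell_mul {n : ℕ} (hn : 2 ≤ n) {p : ℝ} (h0 : 0 < p) (h1 : p < 1) :
    ell n * (1 - p ^ n - (1 - p) ^ n) ≤
      1 + ∑ i ∈ Finset.Ico 2 n, coef n i *
        ((n.choose i : ℝ) * p ^ i * (1 - p) ^ (n - i)) := by
  have h : ell n ≤ quot n (coef n) p := by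
    rw [ell_eq]
    exact ciInf_le (f := fun p : Set.Ioo (0 : ℝ) 1 => quot n (coef n) p)
      (bdd_quot hn fun i _ => coef_nonneg n i) ⟨p, h0, h1⟩
  unfold quot at h
  rwa [le_div_iff₀ (den_pos hn h0 h1)] at h

theorem binom_split {n : ℕ} (hn : 2 ≤ n) (x y : ℝ) :
    (x + y) ^ n = y ^ n + n * x * y ^ (n - 1) +
      ∑ i ∈ Finset.Ico 2 n, ((n.choose i : ℝ) * x ^ i * y ^ (n - i)) + x ^ n := by
  rw [add_pow, Finset.sum_range_succ, Finset.range_eq_Ico,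
    Finset.sum_eq_sum_Ico_succ_bot (by omega), Finset.sum_eq_sum_Ico_succ_bot (by omega)]
  simp only [pow_zero, Nat.sub_zero, Nat.choose_zero_right, Nat.cast_one, zero_add, pow_one,
    Nat.choose_one_right, Nat.sub_self, Nat.choose_self, one_mul, mul_one]
  have : ∀ i, x ^ i * y ^ (n - i) * (n.choose i : ℝ) = (n.choose i : ℝ) * x ^ i * y ^ (n - i) :=
    fun i => by ring
  simp only [this]
  norm_num
  ring

theorem ell_le_five {n : ℕ} (hn : 2 ≤ n) : ell n ≤ 5 := by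
  have h := ell_mul hn (p := 1 / 2) (by norm_num) (by norm_num)
  have hb := binom_split hn (1 / 2 : ℝ) (1 - 1 / 2)
  have hs : ∑ i ∈ Finset.Ico 2 n, coef n i *
        ((n.choose i : ℝ) * (1 / 2 : ℝ) ^ i * (1 - 1 / 2) ^ (n - i)) ≤
      2 * ∑ i ∈ Finset.Ico 2 n, ((n.choose i : ℝ) * (1 / 2 : ℝ) ^ i * (1 - 1 / 2) ^ (n - i)) := by
    rw [Finset.mul_sum]
    refine Finset.sum_le_sum fun i _ => ?_
    apply mul_le_mul_of_nonneg_right (coef_le_two n i)
    positivity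
  have h1 : (1 / 2 : ℝ) ^ n ≤ (1 / 2) ^ 2 :=
    pow_le_pow_of_le_one (by norm_num) (by norm_num) hn
  have h2 : 0 ≤ (n : ℝ) * (1 / 2) * (1 - 1 / 2) ^ (n - 1) := by positivity
  have e : (1 - 1 / 2 : ℝ) = 1 / 2 := by norm_num
  rw [e] at h hb hs h2
  have e2 : (1 / 2 + 1 / 2 : ℝ) ^ n = 1 := by norm_num
  rw [e2] at hb
  have h3 := one_le_ell hn
  have h4 : 0 ≤ (1 / 2 : ℝ) ^ n := by positivity
  nlinarith

/-- `z_n >= 2` for `n >= 4` follows from the lower bound of the coefficients; here for `n = 5` -/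
theorem ell_five : ell 5 = z 5 := by
  rw [z_eq (by norm_num), ell_eq]
  refine iInf_congr fun p => ?_
  unfold quot
  congr 2
  refine Finset.sum_congr rfl fun i hi => ?_
  have hi' := Finset.mem_Ico.mp hi
  have h3 := z_three_le
  have h4 := one_le_z 4
  obtain ⟨h1, h2⟩ := hi'
  congr 1
  show coef 5 i = min (z i) (z (5 - i))
  unfold coef
  interval_cases i
  · rw [if_neg (by norm_num), if_neg (by norm_num), z_two, min_eq_right]
    rw [show 5 - 2 = 3 from rfl]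
    linarith
  · rw [if_neg (by norm_num), if_neg (by norm_num), min_eq_left]
    rw [show 5 - 3 = 2 from rfl, z_two]; linarith
  · rw [if_pos (by norm_num), show 5 - 4 = 1 from rfl, z_one, min_eq_right h4]

/-- a general lower bound for infima -/
theorem le_inf_quot {n : ℕ} (hn : 2 ≤ n) {e : ℕ → ℝ} {c : ℝ}
    (h : ∀ p : ℝ, 0 < p → p < 1 → c * (1 - p ^ n - (1 - p) ^ n) ≤
      1 + ∑ i ∈ Finset.Ico 2 n, e i * ((n.choose i : ℝ) * p ^ i * (1 - p) ^ (n - i))) :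
    c ≤ ⨅ p : Set.Ioo (0 : ℝ) 1, quot n e p := by
  refine le_ciInf fun p => ?_
  unfold quot
  rw [le_div_iff₀ (den_pos hn p.2.1 p.2.2)]
  exact h p p.2.1 p.2.2

end Pool.Agent.Work.MAC67
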