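import Pool.Agent.Work.MAC67.Defs

namespace Pool.Agent.Work.MAC67

open MeasureTheory

/-! ### The process driven by sets of random numbers -/

/-- number of users transmitting after the feedback history `f` -/
noncomputable def cnt {n : ℕ} (A : List ℕ → Set ℝ) (u : Fin n → ℝ) (f : List ℕ) : ℕ :=
  by classical exact (Finset.univ.filter fun i => u i ∈ A f).card

/-- next feedback history -/
noncomputable def nxt {n : ℕ} (A : List ℕ → Set ℝ) (u : Fin n → ℝ) (f : List ℕ) : List ℕ :=
  cnt A u f :: f

/-- first success time from the history `f` on -/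
noncomputable def Zt {n : ℕ} (A : List ℕ → Set ℝ) (u : Fin n → ℝ) (f : List ℕ) : ℕ∞ :=
  ⨅ (t : ℕ) (_ : cnt A u ((nxt A u)^[t] f) = 1), ((t + 1 : ℕ) : ℕ∞)

theorem Zt_eq_one {n : ℕ} (A : List ℕ → Set ℝ) (u : Fin n → ℝ) (f : List ℕ)
    (h : cnt A u f = 1) : Zt A u f = 1 := by
  apply le_antisymm
  · unfold Zt
    refine (iInf₂_le 0 (by simpa using h)).trans ?_
    simp
  · unfold Zt
    refine le_iInf₂ fun t _ => ?_
    exact_mod_cast Nat.succ_le_succ (Nat.zero_le t)

theorem Zt_step {n : ℕ} (A : List ℕ → Set ℝ) (u : Fin n → ℝ) (f : List ℕ)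
    (h : cnt A u f ≠ 1) : Zt A u f = 1 + Zt A u (nxt A u f) := by
  unfold Zt
  rw [← inf_iInf_nat_succ]
  have h0 : (⨅ (_ : cnt A u ((nxt A u)^[0] f) = 1), (((0 : ℕ) + 1 : ℕ) : ℕ∞)) = ⊤ := by
    simp [h]
  rw [h0, top_inf_eq, ENat.add_iInf₂]
  refine iInf_congr fun t => ?_
  refine iInf_congr_Prop (by rw [Function.iterate_succ_apply]) fun _ => ?_
  push_cast
  ring

theorem one_le_Zt {n : ℕ} (A : List ℕ → Set ℝ) (u : Fin n → ℝ) (f : List ℕ) :
    1 ≤ Zt A u f := by
  unfold Zt
  refine le_iInf₂ fun t _ => ?_
  exact_mod_cast Nat.succ_le_succ (Nat.zero_le t)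

/-! ### The sets of an algorithm -/

/-- the own history as a function of the feedback history -/
def own (h : Alg) (v : ℝ) : List ℕ → List Bool
  | [] => []
  | _ :: f => h v (own h v f) f :: own h v f

/-- the set of random numbers for which a user transmits after the feedback history `f` -/
def setOf' (h : Alg) (f : List ℕ) : Set ℝ := {v | h v (own h v f) f = true}

theorem own_measurable (h : Alg) (hb : IsBorel h) (f : List ℕ) (x : List Bool) :
    MeasurableSet {v : ℝ | own h v f = x} := by
  induction f generalizing x with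
  | nil =>
    by_cases hx : x = []
    · subst hx; simp [own]
    · have : {v : ℝ | own h v [] = x} = ∅ := by
        ext v; simp [own, Ne.symm hx]
      rw [this]; exact MeasurableSet.empty
  | cons k f ih =>
    cases x with
    | nil =>
      have : {v : ℝ | own h v (k :: f) = []} = ∅ := by
        ext v; simp [own]
      rw [this]; exact MeasurableSet.empty
    | cons b x =>
      have : {v : ℝ | own h v (k :: f) = b :: x} =
          {v : ℝ | own h v f = x} ∩ {v : ℝ | h v x f = b} := by
        ext v
        simp only [own, List.cons.injEq, Set.mem_setOf_eq, Set.mem_inter_iff]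
        constructor
        · rintro ⟨h1, h2⟩
          subst h2
          exact ⟨rfl, h1⟩
        · rintro ⟨h1, h2⟩
          subst h1
          exact ⟨h2, rfl⟩
      rw [this]
      exact (ih x).inter ((hb x f) (measurableSet_singleton b))

theorem setOf'_measurable (h : Alg) (hb : IsBorel h) (f : List ℕ) :
    MeasurableSet (setOf' h f) := by
  have : setOf' h f = ⋃ x : List Bool, ({v : ℝ | own h v f = x} ∩ {v : ℝ | h v x f = true}) := by
    ext v
    simp only [setOf', Set.mem_setOf_eq, Set.mem_iUnion, Set.mem_inter_iff]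
    constructor
    · intro hv
      exact ⟨_, rfl, hv⟩
    · rintro ⟨x, hx, hv⟩
      rw [hx]; exact hv
  rw [this]
  exact MeasurableSet.iUnion fun x =>
    (own_measurable h hb f x).inter ((hb x f) (measurableSet_singleton true))

theorem run_eq {n : ℕ} (h : Alg) (u : Fin n → ℝ) (t : ℕ) :
    run h u t = (fun i => own h (u i) ((nxt (setOf' h) u)^[t] []), (nxt (setOf' h) u)^[t] []) := by
  induction t with
  | zero => simp [run, own]
  | succ t ih =>
    rw [Function.iterate_succ_apply']
    simp only [run, ih, nxt, own, cnt, setOf', Set.mem_setOf_eq]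

theorem transmitters_eq {n : ℕ} (h : Alg) (u : Fin n → ℝ) (t : ℕ) :
    transmitters h u t = cnt (setOf' h) u ((nxt (setOf' h) u)^[t] []) := by
  unfold transmitters
  rw [run_eq]
  simp only [cnt, setOf', Set.mem_setOf_eq]

theorem successTime_eq {n : ℕ} (h : Alg) (u : Fin n → ℝ) :
    successTime h u = Zt (setOf' h) u [] := by
  unfold successTime Zt
  simp only [transmitters_eq]

end Pool.Agent.Work.MAC67
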