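import Mathlib

namespace Pool.Agent.Work.MAC67

open MeasureTheory

/-- A decision rule used by every user. `h u x f` is the decision (`true` is transmit) of a user
with private randomness `u`, whose own earlier decisions are `x` (latest slot first), after the
feedback history `f` (latest slot first). For the histories of length `t` this is the function
`h_(t+1)` of the problem. -/
abbrev Alg := ℝ → List Bool → List ℕ → Bool

/-- All the functions of the rule are Borel. -/
def IsBorel (h : Alg) : Prop := ∀ (x : List Bool) (f : List ℕ), Measurable fun u : ℝ => h u x f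

/-- The own histories of the `n` users and the feedback history after `t` slots, latest slot
first, when all users follow the rule `h` and user `i` has the private randomness `u i`. -/
def run {n : ℕ} (h : Alg) (u : Fin n → ℝ) : ℕ → (Fin n → List Bool) × List ℕ
  | 0 => (fun _ => [], [])
  | t + 1 =>
    (fun i => h (u i) ((run h u t).1 i) (run h u t).2 :: (run h u t).1 i,
      (Finset.univ.filter fun i => h (u i) ((run h u t).1 i) (run h u t).2 = true).card ::
        (run h u t).2)

/-- The number of users transmitting in slot `t + 1`. -/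
def transmitters {n : ℕ} (h : Alg) (u : Fin n → ℝ) (t : ℕ) : ℕ :=
  (Finset.univ.filter fun i => h (u i) ((run h u t).1 i) (run h u t).2 = true).card

/-- The time `Z` of the first success: the first slot with exactly one transmitter, infinite if
there is none. -/
noncomputable def successTime {n : ℕ} (h : Alg) (u : Fin n → ℝ) : ℕ∞ :=
  ⨅ (t : ℕ) (_ : transmitters h u t = 1), ((t + 1 : ℕ) : ℕ∞)

/-- `E[Z]` when the private random numbers are independent and uniform on `[0,1)`. -/
noncomputable def expectedTime (n : ℕ) (h : Alg) : ENNReal :=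
  ∫⁻ u : Fin n → ℝ, ((successTime h u : ℕ∞) : ENNReal)
    ∂(Measure.pi fun _ => (volume : Measure ℝ).restrict (Set.Ico 0 1))

/-- `z_n^*`: the infimum of `E[Z]` over all algorithms. -/
noncomputable def zStar (n : ℕ) : ENNReal :=
  ⨅ (h : Alg) (_ : IsBorel h), expectedTime n h

/-- The numbers `z_n` of the problem, `z_1 = 1` and
`z_n = inf_p (1 + sum_(i=2)^(n-1) min(z_i, z_(n-i)) C(n,i) p^i (1-p)^(n-i)) / (1 - p^n - (1-p)^n)`
for `n >= 2`, the infimum over `0 < p < 1` (`z_0` is set to `1` and is not used). -/
noncomputable def z (n : ℕ) : ℝ :=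
  if n ≤ 1 then 1
  else ⨅ p : Set.Ioo (0 : ℝ) 1,
    (1 + ∑ i : Finset.Ico 2 n, min (z i.1) (z (n - i.1)) *
      ((n.choose i.1 : ℝ) * (p : ℝ) ^ i.1 * (1 - (p : ℝ)) ^ (n - i.1))) /
        (1 - (p : ℝ) ^ n - (1 - (p : ℝ)) ^ n)
termination_by n
decreasing_by
  · exact (Finset.mem_Ico.mp i.2).2
  · have := Finset.mem_Ico.mp i.2; omega

end Pool.Agent.Work.MAC67
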