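import Pool.Agent.Work.MAC67.Step

namespace Pool.Agent.Work.MAC67

open MeasureTheory
open scoped ENNReal

/-- unnormalised expected time after the present slot -/
noncomputable def D {n : ℕ} (μ : Measure ℝ) (A : List ℕ → Set ℝ) (f : List ℕ)
    (S : Fin n → Set ℝ) : ℝ≥0∞ :=
  ∑ b : Fin n → Bool, if num b = 1 then 0 else K μ A (num b :: f) (spl (A f) S b)

/-- volume of the part without success -/
noncomputable def NS {n : ℕ} (μ : Measure ℝ) (B : Set ℝ) (S : Fin n → Set ℝ) : ℝ≥0∞ :=
  ∑ b : Fin n → Bool, if num b = 1 then 0 else ∏ i, μ (spl B S b i)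

theorem sum_prod_spl {n : ℕ} (μ : Measure ℝ) {B : Set ℝ} (hB : MeasurableSet B)
    (S : Fin n → Set ℝ) :
    ∑ b : Fin n → Bool, ∏ i, μ (spl B S b i) = ∏ i, μ (S i) := by
  have h : ∏ i, μ (S i) = ∏ i : Fin n, ∑ j : Bool, (if j = true then μ (S i ∩ B)
      else μ (S i \ B)) := by
    refine Finset.prod_congr rfl fun i _ => ?_
    rw [Fintype.sum_bool]
    simp only [if_true, Bool.false_eq_true, if_false]
    exact (measure_inter_add_sdiff _ hB).symm
  rw [h, Finset.prod_univ_sum, Fintype.piFinset_univ]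
  refine Finset.sum_congr rfl fun b _ => Finset.prod_congr rfl fun i _ => ?_
  unfold spl
  split <;> rfl

theorem K_eq {n : ℕ} (μ : Measure ℝ) [SigmaFinite μ] (A : List ℕ → Set ℝ)
    (hA : ∀ f, MeasurableSet (A f)) (f : List ℕ) (S : Fin n → Set ℝ)
    (hS : ∀ i, MeasurableSet (S i)) : K μ A f S = ∏ i, μ (S i) + D μ A f S := by
  rw [K_step μ A hA f S hS, Finset.sum_add_distrib, sum_prod_spl μ (hA f) S]
  rfl

theorem D_step {n : ℕ} (μ : Measure ℝ) [SigmaFinite μ] (A : List ℕ → Set ℝ)
    (hA : ∀ f, MeasurableSet (A f)) (f : List ℕ) (S : Fin n → Set ℝ)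
    (hS : ∀ i, MeasurableSet (S i)) :
    D μ A f S = NS μ (A f) S +
      ∑ b : Fin n → Bool, if num b = 1 then 0 else D μ A (num b :: f) (spl (A f) S b) := by
  unfold D NS
  rw [← Finset.sum_add_distrib]
  refine Finset.sum_congr rfl fun b _ => ?_
  split
  · simp
  · rw [K_eq μ A hA _ _ (fun i => spl_measurable (hA f) hS b i)]
    rfl

theorem num_zero {n : ℕ} {b : Fin n → Bool} (h : num b = 0) : b = fun _ => false := by
  unfold num at h
  rw [Finset.card_eq_zero, Finset.filter_eq_empty_iff] at h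
  funext i
  have := h (Finset.mem_univ i)
  simpa using this

theorem num_false {n : ℕ} : num (fun _ : Fin n => false) = 0 := by
  unfold num
  simp

/-- the part of the recursion that is used -/
theorem D_lower {n : ℕ} (μ : Measure ℝ) [SigmaFinite μ] (A : List ℕ → Set ℝ)
    (hA : ∀ f, MeasurableSet (A f)) (f : List ℕ) (S : Fin n → Set ℝ)
    (hS : ∀ i, MeasurableSet (S i)) :
    NS μ (A f) S + (D μ A (0 :: f) (spl (A f) S fun _ => false) +
      ∑ b : Fin n → Bool, if num b = 2 then D μ A (2 :: f) (spl (A f) S b) else 0) ≤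
      D μ A f S := by
  rw [D_step μ A hA f S hS]
  refine add_le_add le_rfl ?_
  have h1 : D μ A (0 :: f) (spl (A f) S fun _ => false) =
      ∑ b : Fin n → Bool, if num b = 0 then D μ A (0 :: f) (spl (A f) S b) else 0 := by
    rw [Finset.sum_eq_single (fun _ : Fin n => false)]
    · rw [if_pos num_false]
    · intro b _ hb
      rw [if_neg]
      exact fun h => hb (num_zero h)
    · intro h; exact absurd (Finset.mem_univ _) h
  rw [h1, ← Finset.sum_add_distrib]
  refine Finset.sum_le_sum fun b _ => ?_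
  by_cases h0 : num b = 0
  · rw [h0]; simp
  · by_cases h2 : num b = 2
    · rw [h2]; simp
    · simp [h0, h2]

end Pool.Agent.Work.MAC67
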