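import Pool.Agent.Work.MAC67.Comb

namespace Pool.Agent.Work.MAC67

theorem exists_labels {n : ℕ} (m : ℕ) : ∀ s : Finset (Fin n), s.card = m → 2 ≤ m →
    ∃ c : Fin n → ℕ, ∀ i ∈ s, (s.filter fun j => c j = c i).card = 2 ∨
      (s.filter fun j => c j = c i).card = 3 := by
  induction m using Nat.strong_induction_on with
  | _ m ih =>
    intro s hs hm
    by_cases h3 : m ≤ 3
    · refine ⟨fun _ => 0, fun i _ => ?_⟩
      simp only [Finset.filter_true, hs]
      omega
    · obtain ⟨t, hts, ht⟩ := Finset.exists_subset_card_eq (s := s) (n := 2) (by omega)
      have hc : (s \ t).card = m - 2 := by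
        rw [Finset.card_sdiff_of_subset hts, hs, ht]
      obtain ⟨c, hc'⟩ := ih (m - 2) (by omega) (s \ t) hc (by omega)
      refine ⟨fun i => if i ∈ t then 0 else c i + 1, fun i hi => ?_⟩
      by_cases hit : i ∈ t
      · left
        have : (s.filter fun j => (if j ∈ t then 0 else c j + 1) =
            (if i ∈ t then 0 else c i + 1)) = t := by
          ext j
          simp only [Finset.mem_filter, hit, if_true]
          constructor
          · rintro ⟨_, h⟩
            by_contra hj
            rw [if_neg hj] at h
            omega
          · intro hj
            exact ⟨hts hj, by rw [if_pos hj]⟩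
        rw [this, ht]
      · have : (s.filter fun j => (if j ∈ t then 0 else c j + 1) =
            (if i ∈ t then 0 else c i + 1)) = (s \ t).filter fun j => c j = c i := by
          ext j
          simp only [Finset.mem_filter, hit, if_false, Finset.mem_sdiff]
          constructor
          · rintro ⟨hj, h⟩
            by_cases hjt : j ∈ t
            · rw [if_pos hjt] at h
              omega
            · rw [if_neg hjt] at h
              exact ⟨⟨hj, hjt⟩, by omega⟩
          · rintro ⟨⟨hj, hjt⟩, h⟩
            exact ⟨hj, by rw [if_neg hjt, h]⟩
        rw [this]
        exact hc' i (Finset.mem_sdiff.mpr ⟨hi, hit⟩)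

theorem exists_small {n : ℕ} (b : Fin n → Bool) (h1 : 2 ≤ num b) (h2 : num b + 2 ≤ n) :
    ∃ c : Fin n → ℕ, Small c ∧ Cst c b := by
  have hcard : (Finset.univ.filter fun i => b i = false).card = n - num b := by
    have := Finset.card_filter_add_card_filter_not (s := (Finset.univ : Finset (Fin n)))
      (fun i => b i = true)
    simp only [Bool.not_eq_true, Finset.card_univ, Fintype.card_fin] at this
    unfold num
    omega
  obtain ⟨c1, hc1⟩ := exists_labels (num b) (Finset.univ.filter fun i => b i = true) rfl h1
  obtain ⟨c2, hc2⟩ := exists_labels (n - num b) (Finset.univ.filter fun i => b i = false)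
    hcard (by omega)
  refine ⟨fun i => if b i = true then 2 * c1 i else 2 * c2 i + 1, ?_, ?_⟩
  · intro i
    by_cases hi : b i = true
    · have : (Finset.univ.filter fun j => (if b j = true then 2 * c1 j else 2 * c2 j + 1) =
          (if b i = true then 2 * c1 i else 2 * c2 i + 1)) =
          (Finset.univ.filter fun i => b i = true).filter fun j => c1 j = c1 i := by
        ext j
        simp only [Finset.mem_filter, Finset.mem_univ, true_and, hi, if_true]
        by_cases hj : b j = true
        · simp only [hj, if_true, true_and]
          omega
        · simp only [hj]
          constructor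
          · intro h; simp at h; omega
          · intro h; simp at h
      rw [this]
      exact hc1 i (by simp [hi])
    · have : (Finset.univ.filter fun j => (if b j = true then 2 * c1 j else 2 * c2 j + 1) =
          (if b i = true then 2 * c1 i else 2 * c2 i + 1)) =
          (Finset.univ.filter fun i => b i = false).filter fun j => c2 j = c2 i := by
        ext j
        rw [if_neg hi]
        simp only [Finset.mem_filter, Finset.mem_univ, true_and]
        by_cases hj : b j = true
        · rw [if_pos hj]
          simp only [hj]
          constructor
          · intro h; omega
          · intro h; simp at h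
        · rw [if_neg hj]
          simp only [Bool.not_eq_true] at hj
          simp only [hj, true_and]
          omega
      rw [this]
      simp only [Bool.not_eq_true] at hi
      exact hc2 i (by simp [hi])
  · intro i j hij
    by_cases hi : b i = true <;> by_cases hj : b j = true
    · rw [hi, hj]
    · simp only [hi, if_true] at hij
      rw [if_neg hj] at hij
      omega
    · simp only [hj, if_true] at hij
      rw [if_neg hi] at hij
      omega
    · simp only [Bool.not_eq_true] at hi hj
      rw [hi, hj]

end Pool.Agent.Work.MAC67
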