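import Mathlib

namespace Pool.Agent.Work.MAC67


theorem f0_nonneg (v : ℝ) (h0 : 0 ≤ v) (h1 : v ≤ 6771 / 10000) :
    0 ≤ (((1 + v) ^ 3 - 788 / 1000 * (3 * v + 3 * v ^ 2)) - 3 * v) * ((1 + v) ^ 3 - 788 / 1000 * (3 * v + 3 * v ^ 2)) - (1 - (212 / 1000 * (1 + v) ^ 3)) ^ 2 := by
  have key : (((1 + v) ^ 3 - 788 / 1000 * (3 * v + 3 * v ^ 2)) - 3 * v) * ((1 + v) ^ 3 - 788 / 1000 * (3 * v + 3 * v ^ 2)) - (1 - (212 / 1000 * (1 + v) ^ 3)) ^ 2 =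
      (126352000000000000000000/32121485979198960514707 : ℝ) * (v ^ 0 * ((6771/10000 : ℝ) - v) ^ 6) +
      (198109878400000000000000/10707161993066320171569 : ℝ) * (v ^ 1 * ((6771/10000 : ℝ) - v) ^ 5) +
      (13979656568320000000000/396561555298752598947 : ℝ) * (v ^ 2 * ((6771/10000 : ℝ) - v) ^ 4) +
      (1157244493167983744000000/32121485979198960514707 : ℝ) * (v ^ 3 * ((6771/10000 : ℝ) - v) ^ 3) +
      (195224665596576700662400/10707161993066320171569 : ℝ) * (v ^ 4 * ((6771/10000 : ℝ) - v) ^ 2) +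
      (175104671483132403757592/89226349942219334763075 : ℝ) * (v ^ 5 * ((6771/10000 : ℝ) - v) ^ 1) +
      (56965574475696862429195537/2007592873699935032169187500 : ℝ) * (v ^ 6 * ((6771/10000 : ℝ) - v) ^ 0) := by ring
  rw [key]
  have hY : (0 : ℝ) ≤ (6771/10000 : ℝ) - v := by linarith
  positivity

theorem f1_nonneg (v : ℝ) (h0 : 0 ≤ v) (h1 : v ≤ 1 / 2) :
    0 ≤ 8 * (212 / 1000 * (1 + v) ^ 3) * ((((1 + v) ^ 3 - 788 / 1000 * (3 * v + 3 * v ^ 2)) - 3 * v) - 2 * (212 / 1000 * (1 + v) ^ 3) * (1 - 2 * v) ^ 3) -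
      (2 * (1 - (212 / 1000 * (1 + v) ^ 3)) - 3 * (212 / 1000 * (1 + v) ^ 3) * (1 - 2 * v) ^ 2) ^ 2 := by
  have key : 8 * (212 / 1000 * (1 + v) ^ 3) * ((((1 + v) ^ 3 - 788 / 1000 * (3 * v + 3 * v ^ 2)) - 3 * v) - 2 * (212 / 1000 * (1 + v) ^ 3) * (1 - 2 * v) ^ 3) -
      (2 * (1 - (212 / 1000 * (1 + v) ^ 3)) - 3 * (212 / 1000 * (1 + v) ^ 3) * (1 - 2 * v) ^ 2) ^ 2 =
      (1492736/15625 : ℝ) * (v ^ 0 * ((1/2 : ℝ) - v) ^ 10) +
      (33122048/15625 : ℝ) * (v ^ 1 * ((1/2 : ℝ) - v) ^ 9) +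
      (217401408/15625 : ℝ) * (v ^ 2 * ((1/2 : ℝ) - v) ^ 8) +
      (732614528/15625 : ℝ) * (v ^ 3 * ((1/2 : ℝ) - v) ^ 7) +
      (1499315216/15625 : ℝ) * (v ^ 4 * ((1/2 : ℝ) - v) ^ 6) +
      (1979573808/15625 : ℝ) * (v ^ 5 * ((1/2 : ℝ) - v) ^ 5) +
      (1698338908/15625 : ℝ) * (v ^ 6 * ((1/2 : ℝ) - v) ^ 4) +
      (918487648/15625 : ℝ) * (v ^ 7 * ((1/2 : ℝ) - v) ^ 3) +
      (293988528/15625 : ℝ) * (v ^ 8 * ((1/2 : ℝ) - v) ^ 2) +
      (10200256/3125 : ℝ) * (v ^ 9 * ((1/2 : ℝ) - v) ^ 1) +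
      (4161392/15625 : ℝ) * (v ^ 10 * ((1/2 : ℝ) - v) ^ 0) := by ring
  rw [key]
  have hY : (0 : ℝ) ≤ (1/2 : ℝ) - v := by linarith
  positivity

theorem f2_nonneg (v : ℝ) (h0 : 1 / 2 ≤ v) (h1 : v ≤ 6771 / 10000) :
    0 ≤ 8 * (212 / 1000 * (1 + v) ^ 3) * (((1 + v) ^ 3 - 788 / 1000 * (3 * v + 3 * v ^ 2)) - 3 * v) - (2 * (1 - (212 / 1000 * (1 + v) ^ 3))) ^ 2 := by
  have key : 8 * (212 / 1000 * (1 + v) ^ 3) * (((1 + v) ^ 3 - 788 / 1000 * (3 * v + 3 * v ^ 2)) - 3 * v) - (2 * (1 - (212 / 1000 * (1 + v) ^ 3))) ^ 2 =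
      (260087000000000000000000/30853992323971014121 : ℝ) * ((v - (1/2 : ℝ)) ^ 0 * ((6771/10000 : ℝ) - v) ^ 6) +
      (1352709318000000000000000/30853992323971014121 : ℝ) * ((v - (1/2 : ℝ)) ^ 1 * ((6771/10000 : ℝ) - v) ^ 5) +
      (2730167439524040000000000/30853992323971014121 : ℝ) * ((v - (1/2 : ℝ)) ^ 2 * ((6771/10000 : ℝ) - v) ^ 4) +
      (2664454833912404384000000/30853992323971014121 : ℝ) * ((v - (1/2 : ℝ)) ^ 3 * ((6771/10000 : ℝ) - v) ^ 3) +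
      (1257846005179272928334400/30853992323971014121 : ℝ) * ((v - (1/2 : ℝ)) ^ 4 * ((6771/10000 : ℝ) - v) ^ 2) +
      (6041288939947005137977968/771349808099275353025 : ℝ) * ((v - (1/2 : ℝ)) ^ 5 * ((6771/10000 : ℝ) - v) ^ 1) +
      (168156974541079403306770611/482093630062047095640625 : ℝ) * ((v - (1/2 : ℝ)) ^ 6 * ((6771/10000 : ℝ) - v) ^ 0) := by ring
  rw [key]
  have hY : (0 : ℝ) ≤ (6771/10000 : ℝ) - v := by linarith
  have hX : (0 : ℝ) ≤ v - (1/2 : ℝ) := by linarith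
  positivity

theorem P0_nonneg (v U : ℝ) (h0 : 0 ≤ v) (h1 : v ≤ 6771 / 10000) :
    0 ≤ (((1 + v) ^ 3 - 788 / 1000 * (3 * v + 3 * v ^ 2)) - 3 * v) -
      2 * (1 - 212 / 1000 * (1 + v) ^ 3) * U +
        ((1 + v) ^ 3 - 788 / 1000 * (3 * v + 3 * v ^ 2)) * U ^ 2 := by
  have hf := f0_nonneg v h0 h1
  set s := (1 + v) ^ 3 - 788 / 1000 * (3 * v + 3 * v ^ 2) with hs
  set B := 212 / 1000 * (1 + v) ^ 3 with hB
  have hs1 : 1 ≤ s := by rw [hs]; nlinarith [pow_nonneg h0 2, pow_nonneg h0 3]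
  have h2 : 0 ≤ s * ((s - 3 * v) - 2 * (1 - B) * U + s * U ^ 2) := by
    nlinarith [sq_nonneg (s * U - (1 - B))]
  exact nonneg_of_mul_nonneg_right h2 (by linarith)

theorem P1_nonneg (v U : ℝ) (h0 : 0 ≤ v) (h1 : v ≤ 6771 / 10000) (hU : 0 ≤ U) :
    0 ≤ (((1 + v) ^ 3 - 788 / 1000 * (3 * v + 3 * v ^ 2)) - 3 * v) -
      2 * (1 - 212 / 1000 * (1 + v) ^ 3) * U +
        2 * (212 / 1000 * (1 + v) ^ 3) * U ^ 2 + (212 / 1000 * (1 + v) ^ 3) * U ^ 3 := by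
  rcases le_total v (1 / 2) with hv | hv
  · have hf := f1_nonneg v h0 hv
    set s := (1 + v) ^ 3 - 788 / 1000 * (3 * v + 3 * v ^ 2) with hs
    set B := 212 / 1000 * (1 + v) ^ 3 with hB
    have hB1 : 0 < B := by rw [hB]; positivity
    have hU0 : 0 ≤ 1 - 2 * v := by linarith
    set W := 1 - 2 * v with hW
    have h3 : 0 ≤ B ^ 2 * ((U - W) ^ 2 * (U + 2 * W)) := by positivity
    have h2 : 0 ≤ (8 * B) * ((s - 3 * v) - 2 * (1 - B) * U + 2 * B * U ^ 2 + B * U ^ 3) := by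
      have e : (8 * B) * ((s - 3 * v) - 2 * (1 - B) * U + 2 * B * U ^ 2 + B * U ^ 3) =
          (4 * B * U - (2 * (1 - B) - 3 * B * W ^ 2)) ^ 2 +
          (8 * B * ((s - 3 * v) - 2 * B * W ^ 3) - (2 * (1 - B) - 3 * B * W ^ 2) ^ 2) +
          8 * (B ^ 2 * ((U - W) ^ 2 * (U + 2 * W))) := by ring
      rw [e]
      have := sq_nonneg (4 * B * U - (2 * (1 - B) - 3 * B * W ^ 2))
      linarith
    exact nonneg_of_mul_nonneg_right h2 (by linarith)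
  · have hf := f2_nonneg v hv h1
    set s := (1 + v) ^ 3 - 788 / 1000 * (3 * v + 3 * v ^ 2) with hs
    set B := 212 / 1000 * (1 + v) ^ 3 with hB
    have hB1 : 0 < B := by rw [hB]; positivity
    have h3 : 0 ≤ B ^ 2 * U ^ 3 := by positivity
    have h2 : 0 ≤ (8 * B) * ((s - 3 * v) - 2 * (1 - B) * U + 2 * B * U ^ 2 + B * U ^ 3) := by
      have e : (8 * B) * ((s - 3 * v) - 2 * (1 - B) * U + 2 * B * U ^ 2 + B * U ^ 3) =
          (4 * B * U - (2 * (1 - B))) ^ 2 +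
          (8 * B * (s - 3 * v) - (2 * (1 - B)) ^ 2) +
          8 * (B ^ 2 * U ^ 3) := by ring
      rw [e]
      have := sq_nonneg (4 * B * U - (2 * (1 - B)))
      linarith
    exact nonneg_of_mul_nonneg_right h2 (by linarith)

/-- one block of size three and pairs -/
theorem block_ineq (C : ℝ) (hC0 : 0 ≤ C) (hC1 : C ≤ 788 / 1000)
    (h3 : ∀ v : ℝ, 0 ≤ v → 3 * v ≤ C * (1 + v ^ 3) + (1 - C) * (1 + v) ^ 3)
    (v U s2 : ℝ) (hv : 0 ≤ v) (hU : 0 ≤ U) (hs0 : 0 ≤ s2) (hs : s2 ≤ U ^ 2) :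
    3 * v + 2 * U ≤ C * ((1 + v ^ 3) * (1 + s2)) +
      (1 - C) * ((1 + v) ^ 3 * (1 + U + (U ^ 2 - s2) / 2) ^ 2) := by
  set e := (U ^ 2 - s2) / 2 with he
  have he0 : 0 ≤ e := by rw [he]; linarith
  have heU : e ≤ U ^ 2 / 2 := by rw [he]; linarith
  have hs2 : s2 = U ^ 2 - 2 * e := by rw [he]; ring
  rw [hs2]
  have h3v := h3 v hv
  set a := C * (1 + v ^ 3) with ha
  set B := (1 - C) * (1 + v) ^ 3 with hB
  have ha0 : 0 ≤ a := by rw [ha]; positivity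
  have hB0 : 0 ≤ B := by
    rw [hB]
    have : 0 ≤ 1 - C := by linarith
    positivity
  -- the two end points
  have hP : 3 * v + 2 * U ≤ a * (1 + U ^ 2) + B * (1 + U) ^ 2 ∧
      3 * v + 2 * U ≤ a + B * (1 + 2 * U + 2 * U ^ 2 + U ^ 3) := by
    rcases le_total 1 B with hB1 | hB1
    · constructor
      · nlinarith [mul_nonneg ha0 (sq_nonneg U), mul_nonneg hU (sub_nonneg.mpr hB1),
          mul_nonneg hB0 (sq_nonneg U)]
      · nlinarith [mul_nonneg hU (sub_nonneg.mpr hB1),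
          mul_nonneg hB0 (sq_nonneg U), mul_nonneg hB0 (pow_nonneg hU 3)]
    · have hBB : 212 / 1000 * (1 + v) ^ 3 ≤ B := by
        rw [hB]
        apply mul_le_mul_of_nonneg_right _ (by positivity)
        linarith
      have hv1 : v ≤ 6771 / 10000 := by
        by_contra hcon
        push Not at hcon
        have : (6771 / 10000 + 1 : ℝ) ^ 3 ≤ (1 + v) ^ 3 := by
          apply pow_le_pow_left₀ (by norm_num)
          linarith
        have h4 : (1 : ℝ) < 212 / 1000 * (6771 / 10000 + 1) ^ 3 := by norm_num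
        nlinarith
      have hss : (1 + v) ^ 3 - 788 / 1000 * (3 * v + 3 * v ^ 2) ≤ a + B := by
        rw [ha, hB]
        nlinarith [mul_nonneg (sub_nonneg.mpr hC1) hv,
          mul_nonneg (sub_nonneg.mpr hC1) (sq_nonneg v)]
      have p0 := P0_nonneg v U hv hv1
      have p1 := P1_nonneg v U hv hv1 hU
      set s := (1 + v) ^ 3 - 788 / 1000 * (3 * v + 3 * v ^ 2) with hsdef
      set B' := 212 / 1000 * (1 + v) ^ 3 with hB'
      constructor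
      · nlinarith [mul_nonneg (sub_nonneg.mpr hBB) hU,
          mul_nonneg (sub_nonneg.mpr hss) (sq_nonneg U)]
      · nlinarith [mul_nonneg (sub_nonneg.mpr hBB) hU,
          mul_nonneg (sub_nonneg.mpr hBB) (sq_nonneg U),
          mul_nonneg (sub_nonneg.mpr hBB) (pow_nonneg hU 3)]
  have hlow : a * (1 + (U ^ 2 - 2 * e)) + B * ((1 + U) ^ 2 + 2 * (1 + U) * e) ≤
      C * ((1 + v ^ 3) * (1 + (U ^ 2 - 2 * e))) + (1 - C) * ((1 + v) ^ 3 * (1 + U + e) ^ 2) := by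
    have e1 : C * ((1 + v ^ 3) * (1 + (U ^ 2 - 2 * e))) = a * (1 + (U ^ 2 - 2 * e)) := by
      rw [ha]; ring
    have e2 : (1 - C) * ((1 + v) ^ 3 * (1 + U + e) ^ 2) = B * (1 + U + e) ^ 2 := by
      rw [hB]; ring
    rw [e1, e2]
    nlinarith [mul_nonneg hB0 (sq_nonneg e)]
  refine le_trans ?_ hlow
  rcases le_total 0 (B * (1 + U) - a) with hk | hk
  · nlinarith [hP.1, mul_nonneg hk he0]
  · nlinarith [hP.2, mul_nonneg (neg_nonneg.mpr hk) (sub_nonneg.mpr heU)]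

end Pool.Agent.Work.MAC67
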