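import Pool.Agent.Work.MAC67.Cfg

namespace Pool.Agent.Work.MAC67

open MeasureTheory
open scoped ENNReal

/-- The total of a functional over all configurations of a state. The state is given by the set `X`
for the two special users, the set `R` for the `m` other users, and a finite family of pairs
`(X_l, R_l)` for a special user together with one other user. -/
noncomputable def TT {m : ℕ} {M : Type} [AddCommMonoid M] (Φ : (Fin (m + 2) → Set ℝ) → M)
    (X R : Set ℝ) {κ : Type} [Fintype κ] (Xl Rl : κ → Set ℝ) : M :=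
  Φ (cfg X X fun _ => R) +
  ∑ l, ∑ j : Fin m, (Φ (cfg X (Xl l) (t1 R j (Rl l))) + Φ (cfg (Xl l) X (t1 R j (Rl l)))) +
  ∑ l, ∑ l', ∑ i : Fin m, ∑ j : Fin m,
    if i < j then Φ (cfg (Xl l) (Xl l') (t2 R i (Rl l) j (Rl l'))) else 0

/-- the new sets for the special user -/
def nX (B X : Set ℝ) {κ : Type} (Xl : κ → Set ℝ) : Option (κ ⊕ κ) → Set ℝ
  | none => X \ B
  | some (Sum.inl l) => Xl l ∩ B
  | some (Sum.inr l) => Xl l \ B

/-- the new sets for the other user -/
def nR (B R : Set ℝ) {κ : Type} (Rl : κ → Set ℝ) : Option (κ ⊕ κ) → Set ℝ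
  | none => R ∩ B
  | some (Sum.inl l) => Rl l \ B
  | some (Sum.inr l) => Rl l ∩ B

theorem meas_t1 {m : ℕ} {R T : Set ℝ} (hR : MeasurableSet R) (hT : MeasurableSet T) (j k : Fin m) :
    MeasurableSet (t1 R j T k) := by
  unfold t1
  split <;> assumption

theorem meas_t2 {m : ℕ} {R T T' : Set ℝ} (hR : MeasurableSet R) (hT : MeasurableSet T)
    (hT' : MeasurableSet T') (i j k : Fin m) :
    MeasurableSet (t2 R i T j T' k) := by
  unfold t2
  split
  · assumption
  · split <;> assumption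

theorem one_le_sum {m : ℕ} (g : Fin m → ℝ≥0∞) (j : Fin m) : g j ≤ ∑ j', g j' :=
  Finset.single_le_sum (fun _ _ => zero_le) (Finset.mem_univ j)

section

variable {m : ℕ} (μ : Measure ℝ) [SigmaFinite μ] (A : List ℕ → Set ℝ)
  (hA : ∀ f, MeasurableSet (A f)) (f : List ℕ)

include hA

theorem low0 {X R : Set ℝ} (hX : MeasurableSet X) (hR : MeasurableSet R) :
    NS μ (A f) (cfg X X fun _ : Fin m => R) +
      (D μ A (0 :: f) (cfg (X \ A f) (X \ A f) fun _ : Fin m => R \ A f) +
      (D μ A (2 :: f) (cfg (X ∩ A f) (X ∩ A f) fun _ : Fin m => R \ A f) +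
      ∑ j : Fin m, D μ A (2 :: f) (cfg (X ∩ A f) (X \ A f) (t1 (R \ A f) j (R ∩ A f))) +
      ∑ j : Fin m, D μ A (2 :: f) (cfg (X \ A f) (X ∩ A f) (t1 (R \ A f) j (R ∩ A f))) +
      ∑ i : Fin m, ∑ j : Fin m, (if i < j then
        D μ A (2 :: f) (cfg (X \ A f) (X \ A f) (t2 (R \ A f) i (R ∩ A f) j (R ∩ A f)))
        else 0))) ≤
      D μ A f (cfg X X fun _ : Fin m => R) := by
  refine le_trans ?_ (D_lower μ A hA f _ (cfg_forall hX hX fun _ => hR))
  refine add_le_add le_rfl (add_le_add (le_of_eq ?_) (le_trans (le_of_eq ?_)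
    (sel fun b => D μ A (2 :: f) (spl (A f) (cfg X X fun _ : Fin m => R) b))))
  · rw [show (fun _ : Fin (m + 2) => false) = cfg false false (fun _ : Fin m => false) from ?_,
      spl_cfg, spl_t0_0]
    · simp [sp]
    · funext i
      exact (cfg_forall (p := fun b => false = b) rfl rfl (fun _ => rfl) i)
  · simp only [spl_cfg, spl_t0_0, spl_t0_1, spl_t0_2, sp, if_true, Bool.false_eq_true, if_false]

theorem low1 {X R Y T : Set ℝ} (hX : MeasurableSet X) (hR : MeasurableSet R)
    (hY : MeasurableSet Y) (hT : MeasurableSet T) (j : Fin m) :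
    NS μ (A f) (cfg X Y (t1 R j T)) +
      (D μ A (0 :: f) (cfg (X \ A f) (Y \ A f) (t1 (R \ A f) j (T \ A f))) +
      (D μ A (2 :: f) (cfg (X ∩ A f) (Y ∩ A f) (t1 (R \ A f) j (T \ A f))) +
      D μ A (2 :: f) (cfg (X ∩ A f) (Y \ A f) (t1 (R \ A f) j (T ∩ A f))) +
      ∑ i : Fin m, (if i < j then D μ A (2 :: f)
        (cfg (X \ A f) (Y ∩ A f) (t2 (R \ A f) i (R ∩ A f) j (T \ A f))) else 0) +
      ∑ i : Fin m, (if i < j then D μ A (2 :: f)
        (cfg (X \ A f) (Y \ A f) (t2 (R \ A f) i (R ∩ A f) j (T ∩ A f))) else 0))) ≤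
      D μ A f (cfg X Y (t1 R j T)) := by
  refine le_trans ?_ (D_lower μ A hA f _ (cfg_forall hX hY fun k => meas_t1 hR hT j k))
  refine add_le_add le_rfl (add_le_add (le_of_eq ?_) (le_trans ?_
    (sel fun b => D μ A (2 :: f) (spl (A f) (cfg X Y (t1 R j T)) b))))
  · rw [show (fun _ : Fin (m + 2) => false) = cfg false false (fun _ : Fin m => false) from ?_,
      spl_cfg, spl_t1_0]
    · simp [sp]
    · funext i
      exact (cfg_forall (p := fun b => false = b) rfl rfl (fun _ => rfl) i)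
  · refine add_le_add (add_le_add (add_le_add (le_of_eq ?_) ?_) ?_) ?_
    · simp only [spl_cfg, spl_t1_0, sp, if_true]
    · refine le_trans (le_of_eq ?_) (one_le_sum (fun j' => D μ A (2 :: f) (spl (A f)
        (cfg X Y (t1 R j T)) (cfg true false (d1 j')))) j)
      simp only [spl_cfg, spl_t1_1, sp, if_true, Bool.false_eq_true, if_false]
    · refine Finset.sum_le_sum fun i _ => ?_
      by_cases h : i < j
      · rw [if_pos h]
        simp only [spl_cfg, spl_t1_l _ _ _ h, sp, if_true, Bool.false_eq_true, if_false]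
        exact le_rfl
      · rw [if_neg h]; exact zero_le
    · refine Finset.sum_le_sum fun i _ => ?_
      refine le_trans ?_ (one_le_sum (fun j' => if i < j' then D μ A (2 :: f) (spl (A f)
        (cfg X Y (t1 R j T)) (cfg false false (d2 i j'))) else 0) j)
      by_cases h : i < j
      · rw [if_pos h]
        simp only [if_pos h, spl_cfg, spl_t1_l2 _ _ _ h, sp, Bool.false_eq_true, if_false]
        exact le_rfl
      · rw [if_neg h]; exact zero_le

theorem low1' {X R Y T : Set ℝ} (hX : MeasurableSet X) (hR : MeasurableSet R)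
    (hY : MeasurableSet Y) (hT : MeasurableSet T) (i : Fin m) :
    NS μ (A f) (cfg Y X (t1 R i T)) +
      (D μ A (0 :: f) (cfg (Y \ A f) (X \ A f) (t1 (R \ A f) i (T \ A f))) +
      (D μ A (2 :: f) (cfg (Y ∩ A f) (X ∩ A f) (t1 (R \ A f) i (T \ A f))) +
      D μ A (2 :: f) (cfg (Y \ A f) (X ∩ A f) (t1 (R \ A f) i (T ∩ A f))) +
      ∑ j : Fin m, (if i < j then D μ A (2 :: f)
        (cfg (Y ∩ A f) (X \ A f) (t2 (R \ A f) i (T \ A f) j (R ∩ A f))) else 0) +
      ∑ j : Fin m, (if i < j then D μ A (2 :: f)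
        (cfg (Y \ A f) (X \ A f) (t2 (R \ A f) i (T ∩ A f) j (R ∩ A f))) else 0))) ≤
      D μ A f (cfg Y X (t1 R i T)) := by
  refine le_trans ?_ (D_lower μ A hA f _ (cfg_forall hY hX fun k => meas_t1 hR hT i k))
  refine add_le_add le_rfl (add_le_add (le_of_eq ?_) (le_trans ?_
    (sel fun b => D μ A (2 :: f) (spl (A f) (cfg Y X (t1 R i T)) b))))
  · rw [show (fun _ : Fin (m + 2) => false) = cfg false false (fun _ : Fin m => false) from ?_,
      spl_cfg, spl_t1_0]
    · simp [sp]
    · funext i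
      exact (cfg_forall (p := fun b => false = b) rfl rfl (fun _ => rfl) i)
  · rw [add_right_comm _ (D μ A (2 :: f) (cfg (Y \ A f) (X ∩ A f) (t1 (R \ A f) i (T ∩ A f))))]
    refine add_le_add (add_le_add (add_le_add (le_of_eq ?_) ?_) ?_) ?_
    · simp only [spl_cfg, spl_t1_0, sp, if_true]
    · refine Finset.sum_le_sum fun j _ => ?_
      by_cases h : i < j
      · rw [if_pos h]
        simp only [spl_cfg, spl_t1_r _ _ _ h, sp, if_true, Bool.false_eq_true, if_false]
        exact le_rfl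
      · rw [if_neg h]; exact zero_le
    · refine le_trans (le_of_eq ?_) (one_le_sum (fun i' => D μ A (2 :: f) (spl (A f)
        (cfg Y X (t1 R i T)) (cfg false true (d1 i')))) i)
      simp only [spl_cfg, spl_t1_1, sp, if_true, Bool.false_eq_true, if_false]
    · refine le_trans ?_ (one_le_sum (fun i' => ∑ j : Fin m, if i' < j then D μ A (2 :: f)
        (spl (A f) (cfg Y X (t1 R i T)) (cfg false false (d2 i' j))) else 0) i)
      refine Finset.sum_le_sum fun j _ => ?_
      by_cases h : i < j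
      · rw [if_pos h]
        simp only [if_pos h, spl_cfg, spl_t1_r2 _ _ _ h, sp, Bool.false_eq_true, if_false]
        exact le_rfl
      · rw [if_neg h]; exact zero_le

theorem low2 {R Y T Y' T' : Set ℝ} (hR : MeasurableSet R)
    (hY : MeasurableSet Y) (hT : MeasurableSet T) (hY' : MeasurableSet Y')
    (hT' : MeasurableSet T') {i j : Fin m} (hij : i < j) :
    NS μ (A f) (cfg Y Y' (t2 R i T j T')) +
      (D μ A (0 :: f) (cfg (Y \ A f) (Y' \ A f) (t2 (R \ A f) i (T \ A f) j (T' \ A f))) +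
      (D μ A (2 :: f) (cfg (Y ∩ A f) (Y' ∩ A f) (t2 (R \ A f) i (T \ A f) j (T' \ A f))) +
      D μ A (2 :: f) (cfg (Y ∩ A f) (Y' \ A f) (t2 (R \ A f) i (T \ A f) j (T' ∩ A f))) +
      D μ A (2 :: f) (cfg (Y \ A f) (Y' ∩ A f) (t2 (R \ A f) i (T ∩ A f) j (T' \ A f))) +
      D μ A (2 :: f) (cfg (Y \ A f) (Y' \ A f) (t2 (R \ A f) i (T ∩ A f) j (T' ∩ A f))))) ≤
      D μ A f (cfg Y Y' (t2 R i T j T')) := by
  refine le_trans ?_ (D_lower μ A hA f _ (cfg_forall hY hY' fun k => meas_t2 hR hT hT' i j k))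
  refine add_le_add le_rfl (add_le_add (le_of_eq ?_) (le_trans ?_
    (sel fun b => D μ A (2 :: f) (spl (A f) (cfg Y Y' (t2 R i T j T')) b))))
  · rw [show (fun _ : Fin (m + 2) => false) = cfg false false (fun _ : Fin m => false) from ?_,
      spl_cfg, spl_t2_0]
    · simp [sp]
    · funext i
      exact (cfg_forall (p := fun b => false = b) rfl rfl (fun _ => rfl) i)
  · refine add_le_add (add_le_add (add_le_add (le_of_eq ?_) ?_) ?_) ?_
    · simp only [spl_cfg, spl_t2_0, sp, if_true]
    · refine le_trans (le_of_eq ?_) (one_le_sum (fun j' => D μ A (2 :: f) (spl (A f)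
        (cfg Y Y' (t2 R i T j T')) (cfg true false (d1 j')))) j)
      simp only [spl_cfg, spl_t2_r _ _ _ _ hij, sp, if_true, Bool.false_eq_true, if_false]
    · refine le_trans (le_of_eq ?_) (one_le_sum (fun i' => D μ A (2 :: f) (spl (A f)
        (cfg Y Y' (t2 R i T j T')) (cfg false true (d1 i')))) i)
      simp only [spl_cfg, spl_t2_l _ _ _ _ hij, sp, if_true, Bool.false_eq_true, if_false]
    · refine le_trans ?_ (one_le_sum (fun i' => ∑ j' : Fin m, if i' < j' then D μ A (2 :: f)
        (spl (A f) (cfg Y Y' (t2 R i T j T')) (cfg false false (d2 i' j'))) else 0) i)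
      refine le_trans ?_ (one_le_sum (fun j' => if i < j' then D μ A (2 :: f)
        (spl (A f) (cfg Y Y' (t2 R i T j T')) (cfg false false (d2 i j'))) else 0) j)
      simp only [if_pos hij, spl_cfg, spl_t2_2 _ _ _ _ hij, sp, Bool.false_eq_true, if_false]
      exact le_rfl

end

end Pool.Agent.Work.MAC67
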