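import Mathlib

namespace Pool.Agent.Work.MAC67

theorem pow_quad (N : ℕ) {t : ℝ} (ht : 0 ≤ t) :
    1 + (N : ℝ) * t + (N : ℝ) * ((N : ℝ) - 1) / 2 * t ^ 2 ≤ (1 + t) ^ N := by
  induction N with
  | zero => simp
  | succ N ih =>
    rw [pow_succ (1 + t) N]
    push_cast
    have h1 := mul_le_mul_of_nonneg_right ih (show 0 ≤ 1 + t by linarith)
    have h2 : 0 ≤ (N : ℝ) * ((N : ℝ) - 1) / 2 * t ^ 3 := by
      rcases Nat.eq_zero_or_pos N with rfl | hN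
      · simp
      · have : (1 : ℝ) ≤ N := by exact_mod_cast hN
        have : 0 ≤ (N : ℝ) - 1 := by linarith
        positivity
    nlinarith

/-- the scaled polynomial inequality -/
theorem scaled {a m t P x0 x1 y0 y1 y2 : ℝ} (hm : 5 ≤ m) (ha : a * m = m - 2) (ht : 0 ≤ t)
    (hP : 1 + (m - 2) * t + (m - 2) * (m - 3) / 2 * t ^ 2 ≤ P)
    (hx0 : 0 ≤ x0) (hx1 : 0 ≤ x1) (hy0 : 0 ≤ y0) (hy1 : 0 ≤ y1) (hy2 : 0 ≤ y2) :
    0 ≤ 2 * (x0 + x1) * (y0 + y1 + y2) * (P * (1 + t)) + a * (y0 + y1 + y2) ^ 2 * P +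
      (x0 + y0) ^ 2 + (x1 + y1 + m / 2 * t * x0) ^ 2 - 2 * x0 * x1 - m * t * x0 ^ 2 -
      4 * x1 * y0 - 4 * x0 * y1 - 4 * (m - 1) * t * x0 * y0 - 2 * (1 + a) * y0 * y1 -
      2 * a * (m - 1) * t * y0 ^ 2 := by
  have hm0 : 0 < m := by linarith
  have ha0 : 0 < a := by
    by_contra h
    push Not at h
    nlinarith
  have ha1 : a < 1 := by
    by_contra h
    push Not at h
    nlinarith
  have hmt : 0 ≤ (m - 2) * t := mul_nonneg (by linarith) ht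
  have hmt2 : 0 ≤ (m - 2) * (m - 3) / 2 * t ^ 2 := by
    have h1 : 0 ≤ m - 2 := by linarith
    have h2 : 0 ≤ m - 3 := by linarith
    positivity
  have hP1 : 1 ≤ P := by linarith
  -- the number theta
  obtain ⟨θ, h0, h1, h2, h3⟩ : ∃ θ : ℝ, 0 ≤ θ ∧ θ ≤ 1 ∧ θ ≤ a * (P - 1) ∧
      0 ≤ 2 * θ - θ ^ 2 + a * (P - 2 * (m - 1) * t) := by
    rcases le_total (a * (P - 1)) 1 with h | h
    · refine ⟨a * (P - 1), mul_nonneg ha0.le (by linarith), h, le_rfl, ?_⟩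
      have hθ : 0 ≤ a * (P - 1) := mul_nonneg ha0.le (by linarith)
      have e1 : a * (P - 1) ≤ 2 * (a * (P - 1)) - (a * (P - 1)) ^ 2 := by nlinarith
      have e2 : 0 ≤ a * (2 * P - 1 - 2 * (m - 1) * t) := by
        apply mul_nonneg ha0.le
        nlinarith [sq_nonneg (t - 1), sq_nonneg t, mul_nonneg (show 0 ≤ m - 5 by linarith)
          (sq_nonneg t), mul_nonneg (mul_nonneg (show 0 ≤ m - 5 by linarith)
          (show 0 ≤ m - 5 by linarith)) (sq_nonneg t)]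
      nlinarith
    · refine ⟨1, by norm_num, le_rfl, h, ?_⟩
      have e1 : a * (1 + (m - 2) * t + (m - 2) * (m - 3) / 2 * t ^ 2) ≤ a * P :=
        mul_le_mul_of_nonneg_left hP ha0.le
      have e2 : 0 ≤ m * (1 + a * (1 + (m - 2) * t + (m - 2) * (m - 3) / 2 * t ^ 2 -
          2 * (m - 1) * t)) := by
        set s := (m - 2) * t with hs
        have e3 : m * (1 + a * (1 + (m - 2) * t + (m - 2) * (m - 3) / 2 * t ^ 2 -
          2 * (m - 1) * t)) = (m - 5) * (2 - s + s ^ 2 / 2) + 5 * (8 / 5 - s + s ^ 2 / 5) := by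
          have : m * (1 + a * (1 + (m - 2) * t + (m - 2) * (m - 3) / 2 * t ^ 2 -
            2 * (m - 1) * t)) = m + (a * m) * (1 + (m - 2) * t + (m - 2) * (m - 3) / 2 * t ^ 2 -
            2 * (m - 1) * t) := by ring
          rw [this, ha, hs]
          ring
        rw [e3]
        have e4 : 0 ≤ 2 - s + s ^ 2 / 2 := by nlinarith [sq_nonneg (s - 1)]
        have e5 : 0 ≤ 8 / 5 - s + s ^ 2 / 5 := by nlinarith [sq_nonneg (s - 5 / 2)]
        have e6 : 0 ≤ m - 5 := by linarith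
        positivity
      have e7 : 0 ≤ 1 + a * (1 + (m - 2) * t + (m - 2) * (m - 3) / 2 * t ^ 2 -
          2 * (m - 1) * t) := by
        by_contra hc
        push Not at hc
        nlinarith
      nlinarith
  have hPt : P ≤ P * (1 + t) := by nlinarith
  have hα : 0 ≤ 2 * (P * (1 + t)) - (3 * m - 4) * t := by
    have e1 : (1 + (m - 2) * t + (m - 2) * (m - 3) / 2 * t ^ 2) * (1 + t) ≤ P * (1 + t) :=
      mul_le_mul_of_nonneg_right hP (by linarith)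
    have e2 : 0 ≤ (m - 2) * (m - 3) / 2 * t ^ 2 * t := mul_nonneg hmt2 ht
    have e3 : 0 ≤ 2 - (m - 2) * t + ((m - 2) * t) ^ 2 := by nlinarith [sq_nonneg ((m - 2) * t - 1)]
    have e4 : 0 ≤ (m - 2) * t ^ 2 := mul_nonneg (by linarith) (sq_nonneg t)
    nlinarith
  have hα2 : 0 ≤ 2 * (P * (1 + t)) - (3 * m - 4) * t + (2 - m * t) := by
    have e1 : (1 + (m - 2) * t + (m - 2) * (m - 3) / 2 * t ^ 2) * (1 + t) ≤ P * (1 + t) :=
      mul_le_mul_of_nonneg_right hP (by linarith)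
    have e2 : 0 ≤ (m - 2) * (m - 3) / 2 * t ^ 2 * t := mul_nonneg hmt2 ht
    have e3 : 0 ≤ 4 - 2 * ((m - 1) * t) + 3 / 4 * ((m - 1) * t) ^ 2 := by
      nlinarith [sq_nonneg ((m - 1) * t - 4 / 3)]
    have e4 : 0 ≤ (m - 5) * (m - 1) * t ^ 2 := by
      have h1 : 0 ≤ m - 5 := by linarith
      have h2 : 0 ≤ m - 1 := by linarith
      positivity
    nlinarith
  have g2 : 0 ≤ 2 * (P * (1 + t)) - (3 * m - 4) * t + 2 * θ * (1 - m * t / 2) := by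
    have := add_nonneg (mul_nonneg (show 0 ≤ 1 - θ by linarith) hα) (mul_nonneg h0 hα2)
    nlinarith
  have g3 : 0 ≤ 2 * (P * (1 + t)) - 2 - 2 * θ := by nlinarith
  have g4 : 0 ≤ 2 * a * (P - 1) - 2 * θ := by nlinarith
  have key : 2 * (x0 + x1) * (y0 + y1 + y2) * (P * (1 + t)) + a * (y0 + y1 + y2) ^ 2 * P +
      (x0 + y0) ^ 2 + (x1 + y1 + m / 2 * t * x0) ^ 2 - 2 * x0 * x1 - m * t * x0 ^ 2 -
      4 * x1 * y0 - 4 * x0 * y1 - 4 * (m - 1) * t * x0 * y0 - 2 * (1 + a) * y0 * y1 -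
      2 * a * (m - 1) * t * y0 ^ 2 =
      (x0 * (1 - m * t / 2) + y0 - x1 - y1 - θ * y0) ^ 2 +
      y0 ^ 2 * (2 * θ - θ ^ 2 + a * (P - 2 * (m - 1) * t)) +
      x0 * y0 * (2 * (P * (1 + t)) - (3 * m - 4) * t + 2 * θ * (1 - m * t / 2)) +
      x1 * y0 * (2 * (P * (1 + t)) - 2 - 2 * θ) +
      y0 * y1 * (2 * a * (P - 1) - 2 * θ) +
      x0 * y1 * (2 * (P * (1 + t)) - 2) + x1 * y1 * (2 * (P * (1 + t))) +
      y1 ^ 2 * (a * P) + 2 * (x0 + x1) * y2 * (P * (1 + t)) +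
      a * P * (2 * (y0 + y1) * y2 + y2 ^ 2) := by
    ring
  rw [key]
  have hP0 : 0 ≤ P := by linarith
  have hPt0 : 0 ≤ P * (1 + t) := by linarith
  have g5 : 0 ≤ 2 * (P * (1 + t)) - 2 := by linarith
  positivity

/-- The Bellman inequality in real numbers; `m = k + 5`. -/
theorem main_ineq (k : ℕ) {x0 x1 e0 e1 e2 r0 r1 : ℝ} (hx0 : 0 ≤ x0) (hx1 : 0 ≤ x1)
    (he0 : 0 ≤ e0) (he1 : 0 ≤ e1) (he2 : 0 ≤ e2) (hr0 : 0 ≤ r0) (hr1 : 0 ≤ r1) :
    (r0 + r1) ^ (k + 3) * ((r0 + r1) * (x0 + x1) + ((k : ℝ) + 5) / 2 * (e0 + e1 + e2)) ^ 2 ≤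
      ((x0 + x1) ^ 2 * (r0 + r1) ^ (k + 5) - 2 * x0 * x1 * r0 ^ (k + 5) -
        ((k : ℝ) + 5) * x0 ^ 2 * r1 * r0 ^ (k + 4)) +
      2 * ((k : ℝ) + 5) * ((x0 + x1) * (e0 + e1 + e2) * (r0 + r1) ^ (k + 4) -
        (x1 * e0 + x0 * e1) * r0 ^ (k + 4) - ((k : ℝ) + 4) * x0 * e0 * r1 * r0 ^ (k + 3)) +
      ((k : ℝ) + 5) * ((k : ℝ) + 4) / 2 * ((e0 + e1 + e2) ^ 2 * (r0 + r1) ^ (k + 3) -
        2 * e0 * e1 * r0 ^ (k + 3) - ((k : ℝ) + 3) * e0 ^ 2 * r1 * r0 ^ (k + 2)) +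
      r0 ^ (k + 3) * (r0 * x0 + ((k : ℝ) + 5) / 2 * e0) ^ 2 +
      r0 ^ (k + 3) * (r0 * x1 + ((k : ℝ) + 5) / 2 * (e1 + x0 * r1)) ^ 2 := by
  have hk : (0 : ℝ) ≤ k := Nat.cast_nonneg k
  rcases hr0.eq_or_lt with h | h
  · subst h
    have p : ∀ j : ℕ, (0 : ℝ) ^ (k + (j + 1)) = 0 := fun j => by
      rw [← add_assoc]; exact zero_pow (by omega)
    rw [p 2, p 4, p 3, p 1]
    simp only [zero_add, mul_zero, sub_zero, zero_mul, add_zero]
    have h1 : 0 ≤ r1 ^ (k + 3) := pow_nonneg hr1 _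
    have e : r1 ^ (k + 4) = r1 ^ (k + 3) * r1 := by rw [← pow_succ]
    have e' : r1 ^ (k + 5) = r1 ^ (k + 3) * r1 ^ 2 := by rw [← pow_add]
    rw [e, e']
    have h2 : 0 ≤ r1 ^ (k + 3) * (((k : ℝ) + 5) * ((x0 + x1) * (e0 + e1 + e2) * r1) +
        ((k : ℝ) + 5) * ((k : ℝ) + 3) / 4 * (e0 + e1 + e2) ^ 2) := by positivity
    nlinarith
  · set t := r1 / r0 with htd
    have ht : 0 ≤ t := div_nonneg hr1 h.le
    have hr : r1 = t * r0 := by rw [htd]; field_simp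
    set m : ℝ := (k : ℝ) + 5 with hm
    have hP := pow_quad (k + 3) ht
    push_cast at hP
    have hm0 : m ≠ 0 := by rw [hm]; positivity
    have hs := scaled (a := (m - 2) / m) (m := m) (t := t) (P := (1 + t) ^ (k + 3))
      (x0 := r0 * x0) (x1 := r0 * x1) (y0 := m / 2 * e0) (y1 := m / 2 * e1) (y2 := m / 2 * e2)
      (by rw [hm]; linarith) (div_mul_cancel₀ _ hm0) ht (by rw [hm]; linarith) (by positivity)
      (by positivity) (by positivity) (by positivity) (by positivity)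
    have h3 := mul_nonneg (pow_nonneg h.le (k + 3)) hs
    have e3 : (r0 + r1) ^ (k + 3) = r0 ^ (k + 3) * (1 + t) ^ (k + 3) := by
      rw [hr, ← mul_pow]; ring
    have e4 : (r0 + r1) ^ (k + 4) = r0 ^ (k + 3) * (1 + t) ^ (k + 3) * (r0 + r1) := by
      rw [← e3, ← pow_succ]
    have e5 : (r0 + r1) ^ (k + 5) = r0 ^ (k + 3) * (1 + t) ^ (k + 3) * (r0 + r1) ^ 2 := by
      rw [← e3, ← pow_add]
    have q2 : r1 * r0 ^ (k + 2) = t * r0 ^ (k + 3) := by rw [hr]; ring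
    have q4 : r0 ^ (k + 4) = r0 ^ (k + 3) * r0 := by rw [← pow_succ]
    have q5 : r0 ^ (k + 5) = r0 ^ (k + 3) * r0 ^ 2 := by rw [← pow_add]
    rw [e3, e4, e5, q4, q5]
    have q2' : ∀ c : ℝ, c * r1 * r0 ^ (k + 2) = c * (t * r0 ^ (k + 3)) := fun c => by
      rw [← q2]; ring
    rw [q2', hr]
    set Q := (1 + t) ^ (k + 3)
    set W := r0 ^ (k + 3)
    have hk4 : (k : ℝ) + 4 = m - 1 := by rw [hm]; ring
    have hk3 : (k : ℝ) + 3 = m - 2 := by rw [hm]; ring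
    rw [hk4, hk3]
    refine le_of_sub_nonneg (le_of_le_of_eq h3 ?_)
    field_simp
    ring

theorem bern (M : ℕ) {r0 r1 : ℝ} (hr0 : 0 ≤ r0) (hr1 : 0 ≤ r1) :
    r0 ^ (M + 1) + ((M : ℝ) + 1) * r1 * r0 ^ M ≤ (r0 + r1) ^ (M + 1) := by
  induction M with
  | zero => simp
  | succ M ih =>
    have h1 := mul_le_mul_of_nonneg_right ih (show 0 ≤ r0 + r1 by linarith)
    have h2 : 0 ≤ ((M : ℝ) + 1) * r1 * r0 ^ M * r1 := by positivity
    push_cast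
    rw [pow_succ (r0 + r1), pow_succ r0 (M + 1)]
    rw [pow_succ r0 M] at h1 ⊢
    nlinarith

theorem bern2 (M : ℕ) {r0 r1 : ℝ} (hr0 : 0 ≤ r0) (hr1 : 0 ≤ r1) :
    ((M : ℝ) + 2) * r1 * r0 ^ (M + 1) ≤ 1 / 2 * (r0 + r1) ^ (M + 2) := by
  rcases hr0.eq_or_lt with h | h
  · subst h
    rw [zero_pow (by omega)]
    have : 0 ≤ (0 + r1) ^ (M + 2) := pow_nonneg (by linarith) _
    linarith
  · set t := r1 / r0 with htd
    have ht : 0 ≤ t := div_nonneg hr1 h.le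
    have hr : r1 = t * r0 := by rw [htd]; field_simp
    have hP := pow_quad (M + 2) ht
    push_cast at hP
    have e : (r0 + r1) ^ (M + 2) = r0 ^ (M + 2) * (1 + t) ^ (M + 2) := by
      rw [hr, ← mul_pow]; ring
    have hW : 0 ≤ r0 ^ (M + 2) := pow_nonneg h.le _
    rw [e, hr]
    have e2 : ((M : ℝ) + 2) * (t * r0) * r0 ^ (M + 1) = r0 ^ (M + 2) * (((M : ℝ) + 2) * t) := by
      ring
    rw [e2]
    have hM : (0 : ℝ) ≤ M := Nat.cast_nonneg M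
    have h3 : ((M : ℝ) + 2) * t ≤ 1 / 2 * (1 + t) ^ (M + 2) := by
      have h4 : 0 ≤ 1 - ((M : ℝ) + 2) * t + ((M : ℝ) + 2) * ((M : ℝ) + 1) / 2 * t ^ 2 := by
        nlinarith [sq_nonneg (((M : ℝ) + 2) * t - 2), mul_nonneg hM (sq_nonneg t),
          mul_nonneg (mul_nonneg hM hM) (sq_nonneg t)]
      nlinarith
    nlinarith [mul_le_mul_of_nonneg_left h3 hW]

end Pool.Agent.Work.MAC67
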