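import Pool.Agent.Work.MAC67.PairVol

namespace Pool.Agent.Work.MAC67

open MeasureTheory
open scoped ENNReal

/-- the potential -/
noncomputable def EE (k : ℕ) (μ : Measure ℝ) (X R : Set ℝ) {κ : Type} [Fintype κ]
    (Xl Rl : κ → Set ℝ) : ℝ :=
  μ.real R ^ (k + 3) * (μ.real R * μ.real X + ((k : ℝ) + 5) / 2 *
    ∑ l, μ.real (Xl l) * μ.real (Rl l)) ^ 2

theorem EE_nonneg (k : ℕ) (μ : Measure ℝ) (X R : Set ℝ) {κ : Type} [Fintype κ]
    (Xl Rl : κ → Set ℝ) : 0 ≤ EE k μ X R Xl Rl := by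
  unfold EE
  have : 0 ≤ μ.real R := measureReal_nonneg
  positivity

/-- the lower bound `w` times the potential for all states -/
def PP (k : ℕ) (μ : Measure ℝ) (w : ℝ) : Prop :=
  ∀ (A : List ℕ → Set ℝ), (∀ f, MeasurableSet (A f)) → ∀ (f : List ℕ) (X R : Set ℝ),
    MeasurableSet X → MeasurableSet R → ∀ (κ : Type) [Fintype κ] (Xl Rl : κ → Set ℝ),
    (∀ l, MeasurableSet (Xl l)) → (∀ l, MeasurableSet (Rl l)) →
    ENNReal.ofReal (w * EE k μ X R Xl Rl) ≤ TT (m := k + 5) (D μ A f) X R Xl Rl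

theorem PP_zero (k : ℕ) (μ : Measure ℝ) : PP k μ 0 := by
  intro A _ f X R _ _ κ _ Xl Rl _ _
  simp

theorem real_split {μ : Measure ℝ} [IsFiniteMeasure μ] (T : Set ℝ) {B : Set ℝ}
    (hB : MeasurableSet B) : μ.real T = μ.real (T \ B) + μ.real (T ∩ B) := by
  rw [add_comm]; exact (measureReal_inter_add_sdiff hB).symm

theorem PP_step (k : ℕ) (μ : Measure ℝ) [IsFiniteMeasure μ] (w : ℝ) (hw0 : 0 ≤ w) (hw1 : w ≤ 1)
    (h : PP k μ w) : PP k μ (w + (1 - w) / 8) := by
  intro A hA f X R hX hR κ _ Xl Rl hXl hRl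
  set B := A f with hBd
  have hB : MeasurableSet B := hA f
  set x0 := μ.real (X \ B) with hx0
  set x1 := μ.real (X ∩ B) with hx1
  set r0 := μ.real (R \ B) with hr0
  set r1 := μ.real (R ∩ B) with hr1
  set e0 := ∑ l, μ.real (Xl l \ B) * μ.real (Rl l \ B) with he0
  set e1 := ∑ l, (μ.real (Xl l ∩ B) * μ.real (Rl l \ B) +
      μ.real (Xl l \ B) * μ.real (Rl l ∩ B)) with he1
  set e2 := ∑ l, μ.real (Xl l ∩ B) * μ.real (Rl l ∩ B) with he2
  have px0 : 0 ≤ x0 := measureReal_nonneg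
  have px1 : 0 ≤ x1 := measureReal_nonneg
  have pr0 : 0 ≤ r0 := measureReal_nonneg
  have pr1 : 0 ≤ r1 := measureReal_nonneg
  have pe0 : 0 ≤ e0 := Finset.sum_nonneg fun l _ => mul_nonneg measureReal_nonneg
    measureReal_nonneg
  have pe1 : 0 ≤ e1 := Finset.sum_nonneg fun l _ => add_nonneg
    (mul_nonneg measureReal_nonneg measureReal_nonneg)
    (mul_nonneg measureReal_nonneg measureReal_nonneg)
  have pe2 : 0 ≤ e2 := Finset.sum_nonneg fun l _ => mul_nonneg measureReal_nonneg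
    measureReal_nonneg
  have hE : EE k μ X R Xl Rl = (r0 + r1) ^ (k + 3) *
      ((r0 + r1) * (x0 + x1) + ((k : ℝ) + 5) / 2 * (e0 + e1 + e2)) ^ 2 := by
    unfold EE
    have e : ∑ l, μ.real (Xl l) * μ.real (Rl l) = e0 + e1 + e2 := by
      rw [he0, he1, he2, ← Finset.sum_add_distrib, ← Finset.sum_add_distrib]
      refine Finset.sum_congr rfl fun l _ => ?_
      rw [real_split (μ := μ) (Xl l) hB, real_split (μ := μ) (Rl l) hB]
      ring
    rw [e, real_split (μ := μ) X hB, real_split (μ := μ) R hB]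
  have hE0 : EE k μ (X \ B) (R \ B) (fun l => Xl l \ B) (fun l => Rl l \ B) =
      r0 ^ (k + 3) * (r0 * x0 + ((k : ℝ) + 5) / 2 * e0) ^ 2 := rfl
  have hE1 : EE k μ (X ∩ B) (R \ B) (nX B X Xl) (nR B R Rl) =
      r0 ^ (k + 3) * (r0 * x1 + ((k : ℝ) + 5) / 2 * (e1 + x0 * r1)) ^ 2 := by
    unfold EE
    have e : ∑ l, μ.real (nX B X Xl l) * μ.real (nR B R Rl l) = e1 + x0 * r1 := by
      rw [Fintype.sum_option, Fintype.sum_sum_type]
      simp only [nX, nR]
      rw [he1, Finset.sum_add_distrib]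
      ring
    rw [e]
  have mX : ∀ l, MeasurableSet (nX B X Xl l) := by
    intro l
    rcases l with _ | l | l
    · exact hX.diff hB
    · exact (hXl l).inter hB
    · exact (hXl l).diff hB
  have mR : ∀ l, MeasurableSet (nR B R Rl l) := by
    intro l
    rcases l with _ | l | l
    · exact hR.inter hB
    · exact (hRl l).diff hB
    · exact (hRl l).inter hB
  have i0 := h A hA (0 :: f) (X \ B) (R \ B) (hX.diff hB) (hR.diff hB) κ
    (fun l => Xl l \ B) (fun l => Rl l \ B) (fun l => (hXl l).diff hB) (fun l => (hRl l).diff hB)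
  have i1 := h A hA (2 :: f) (X ∩ B) (R \ B) (hX.inter hB) (hR.diff hB) (Option (κ ⊕ κ))
    (nX B X Xl) (nR B R Rl) mX mR
  have hb := TT_bellman (m := k + 5) μ A hA f hX hR hXl hRl
  refine le_trans ?_ hb
  have hns := TT_ofReal (m := k + 5) (NS μ B) (nsr μ B) (fun S => NS_eq μ B S) X R Xl Rl
  have hnsr := TT_nsr (k := k) μ B X R Xl Rl x0 x1 r0 r1 e0 e1 e2 hx0 hx1 hr0 hr1 he0 he1 he2
  set N := TT (m := k + 5) (nsr μ B) X R Xl Rl with hN
  set E := EE k μ X R Xl Rl with hEd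
  set E0 := EE k μ (X \ B) (R \ B) (fun l => Xl l \ B) (fun l => Rl l \ B) with hE0d
  set E1 := EE k μ (X ∩ B) (R \ B) (nX B X Xl) (nR B R Rl) with hE1d
  have q0 : 0 ≤ E0 := EE_nonneg _ _ _ _ _ _
  have q1 : 0 ≤ E1 := EE_nonneg _ _ _ _ _ _
  have q : 0 ≤ E := EE_nonneg _ _ _ _ _ _
  have m1 := main_ineq k px0 px1 pe0 pe1 pe2 pr0 pr1
  have m2 := ns_lower k px0 px1 pe0 pe1 pe2 pr0 pr1
  rw [← hnsr, ← hE, ← hE0, ← hE1] at m1
  rw [← hnsr, ← hE] at m2
  have qN : 0 ≤ N := by linarith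
  rw [hns]
  refine le_trans ?_ (add_le_add le_rfl (add_le_add i0 i1))
  rw [← ENNReal.ofReal_add (mul_nonneg hw0 q0) (mul_nonneg hw0 q1),
    ← ENNReal.ofReal_add qN (add_nonneg (mul_nonneg hw0 q0) (mul_nonneg hw0 q1))]
  apply ENNReal.ofReal_le_ofReal
  nlinarith [mul_le_mul_of_nonneg_left m1 hw0,
    mul_le_mul_of_nonneg_left m2 (show 0 ≤ 1 - w by linarith)]

theorem PP_one (k : ℕ) (μ : Measure ℝ) [IsFiniteMeasure μ] : PP k μ 1 := by
  have hk : ∀ j : ℕ, PP k μ (1 - (7 / 8) ^ j) := by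
    intro j
    induction j with
    | zero => simpa using PP_zero k μ
    | succ j ih =>
      have hp : 0 < (7 / 8 : ℝ) ^ j := by positivity
      have hp1 : (7 / 8 : ℝ) ^ j ≤ 1 := pow_le_one₀ (by norm_num) (by norm_num)
      have := PP_step k μ _ (by linarith) (by linarith) ih
      have e : 1 - (7 / 8 : ℝ) ^ j + (1 - (1 - (7 / 8 : ℝ) ^ j)) / 8 = 1 - (7 / 8) ^ (j + 1) := by
        rw [pow_succ]; ring
      rwa [e] at this
  intro A hA f X R hX hR κ _ Xl Rl hXl hRl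
  have ht : Filter.Tendsto (fun j : ℕ => ENNReal.ofReal
      ((1 - (7 / 8) ^ j) * EE k μ X R Xl Rl)) Filter.atTop
      (nhds (ENNReal.ofReal (1 * EE k μ X R Xl Rl))) := by
    apply ENNReal.tendsto_ofReal
    apply Filter.Tendsto.mul_const
    have h0 : Filter.Tendsto (fun j : ℕ => (7 / 8 : ℝ) ^ j) Filter.atTop (nhds 0) :=
      tendsto_pow_atTop_nhds_zero_of_lt_one (by norm_num) (by norm_num)
    simpa using h0.const_sub 1
  exact le_of_tendsto' ht fun j => hk j A hA f X R hX hR κ Xl Rl hXl hRl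

/-- Two users in one group and at least five in another one: the value is at least two. -/
theorem two_le (k : ℕ) (μ : Measure ℝ) [IsFiniteMeasure μ] (A : List ℕ → Set ℝ)
    (hA : ∀ f, MeasurableSet (A f)) (f : List ℕ) {X R : Set ℝ} (hX : MeasurableSet X)
    (hR : MeasurableSet R) :
    ENNReal.ofReal (2 * (μ.real X ^ 2 * μ.real R ^ (k + 5))) ≤
      K μ A f (cfg X X fun _ : Fin (k + 5) => R) := by
  have h := PP_one k μ A hA f X R hX hR Empty (fun _ => ∅) (fun _ => ∅)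
    (fun _ => MeasurableSet.empty) (fun _ => MeasurableSet.empty)
  have e1 : EE k μ X R (fun _ : Empty => ∅) (fun _ => ∅) = μ.real X ^ 2 * μ.real R ^ (k + 5) := by
    unfold EE
    simp only [Finset.univ_eq_empty, Finset.sum_empty, mul_zero, add_zero]
    ring
  have e2 : TT (m := k + 5) (D μ A f) X R (fun _ : Empty => ∅) (fun _ => ∅) =
      D μ A f (cfg X X fun _ : Fin (k + 5) => R) := by
    unfold TT
    simp
  rw [e1, e2, one_mul] at h
  rw [K_eq μ A hA f _ (cfg_forall hX hX fun _ => hR), two_mul,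
    ENNReal.ofReal_add (by positivity) (by positivity)]
  refine add_le_add (le_of_eq ?_) h
  rw [prod_cfg]
  simp only [Finset.prod_const, Finset.card_univ, Fintype.card_fin]
  rw [ENNReal.ofReal_mul (by positivity), ENNReal.ofReal_pow measureReal_nonneg,
    ENNReal.ofReal_pow measureReal_nonneg]
  simp only [Measure.real, ENNReal.ofReal_toReal (measure_ne_top μ _)]
  ring

end Pool.Agent.Work.MAC67
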