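import Pool.Agent.Work.MAC67.PairIneq

namespace Pool.Agent.Work.MAC67

theorem ns_block {x0 x1 R u v : ℝ} (hx0 : 0 ≤ x0) (hx1 : 0 ≤ x1) (hu : 0 ≤ u) (hv : 0 ≤ v)
    (h1 : u + v ≤ R) (h2 : v ≤ 1 / 2 * R) :
    1 / 4 * ((x0 + x1) ^ 2 * R) ≤ (x0 + x1) ^ 2 * R - 2 * x0 * x1 * u - x0 ^ 2 * v := by
  have h3 : 2 * x0 * x1 * u ≤ 1 / 2 * (x0 + x1) ^ 2 * u :=
    mul_le_mul_of_nonneg_right (by nlinarith [sq_nonneg (x0 - x1)]) hu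
  have h4 : x0 ^ 2 * v ≤ (x0 + x1) ^ 2 * v :=
    mul_le_mul_of_nonneg_right (by nlinarith [mul_nonneg hx0 hx1]) hv
  have h5 : 0 ≤ (x0 + x1) ^ 2 := sq_nonneg _
  nlinarith [mul_le_mul_of_nonneg_left h1 h5, mul_le_mul_of_nonneg_left h2 h5]

theorem ns_lower (k : ℕ) {x0 x1 e0 e1 e2 r0 r1 : ℝ} (hx0 : 0 ≤ x0) (hx1 : 0 ≤ x1)
    (he0 : 0 ≤ e0) (he1 : 0 ≤ e1) (he2 : 0 ≤ e2) (hr0 : 0 ≤ r0) (hr1 : 0 ≤ r1) :
    1 / 8 * ((r0 + r1) ^ (k + 3) *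
      ((r0 + r1) * (x0 + x1) + ((k : ℝ) + 5) / 2 * (e0 + e1 + e2)) ^ 2) ≤
      ((x0 + x1) ^ 2 * (r0 + r1) ^ (k + 5) - 2 * x0 * x1 * r0 ^ (k + 5) -
        ((k : ℝ) + 5) * x0 ^ 2 * r1 * r0 ^ (k + 4)) +
      2 * ((k : ℝ) + 5) * ((x0 + x1) * (e0 + e1 + e2) * (r0 + r1) ^ (k + 4) -
        (x1 * e0 + x0 * e1) * r0 ^ (k + 4) - ((k : ℝ) + 4) * x0 * e0 * r1 * r0 ^ (k + 3)) +
      ((k : ℝ) + 5) * ((k : ℝ) + 4) / 2 * ((e0 + e1 + e2) ^ 2 * (r0 + r1) ^ (k + 3) -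
        2 * e0 * e1 * r0 ^ (k + 3) - ((k : ℝ) + 3) * e0 ^ 2 * r1 * r0 ^ (k + 2)) := by
  have hk : (0 : ℝ) ≤ k := Nat.cast_nonneg k
  have b0 := bern (k + 4) hr0 hr1
  have b0' := bern2 (k + 3) hr0 hr1
  have b1 := bern (k + 3) hr0 hr1
  have b2 := bern (k + 2) hr0 hr1
  have b2' := bern2 (k + 1) hr0 hr1
  push_cast at b0 b0' b1 b2 b2'
  have n0 := ns_block hx0 hx1 (pow_nonneg hr0 (k + 5))
    (show 0 ≤ ((k : ℝ) + 5) * r1 * r0 ^ (k + 4) by positivity)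
    (R := (r0 + r1) ^ (k + 5)) (by convert b0 using 2; ring) (by convert b0' using 2; ring)
  have n2 := ns_block he0 he1 (pow_nonneg hr0 (k + 3))
    (show 0 ≤ ((k : ℝ) + 3) * r1 * r0 ^ (k + 2) by positivity)
    (R := (r0 + r1) ^ (k + 3)) (by convert b2 using 2; ring) (by convert b2' using 2; ring)
  have hR3 : 0 ≤ (r0 + r1) ^ (k + 3) := by positivity
  have hR4 : 0 ≤ (r0 + r1) ^ (k + 4) := by positivity
  have hR5 : 0 ≤ (r0 + r1) ^ (k + 5) := by positivity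
  -- the middle term
  have n1 : 0 ≤ (x0 + x1) * (e0 + e1 + e2) * (r0 + r1) ^ (k + 4) -
        (x1 * e0 + x0 * e1) * r0 ^ (k + 4) - ((k : ℝ) + 4) * x0 * e0 * r1 * r0 ^ (k + 3) := by
    have hU : 0 ≤ r0 ^ (k + 4) := by positivity
    have hV : 0 ≤ ((k : ℝ) + 4) * r1 * r0 ^ (k + 3) := by positivity
    have h1 : r0 ^ (k + 4) + ((k : ℝ) + 4) * r1 * r0 ^ (k + 3) ≤ (r0 + r1) ^ (k + 4) := by
      convert b1 using 2; ring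
    have hc : 0 ≤ (x0 + x1) * (e0 + e1 + e2) := by positivity
    have h2 := mul_le_mul_of_nonneg_left h1 hc
    have h3 : (x1 * e0 + x0 * e1) * r0 ^ (k + 4) ≤ (x0 + x1) * (e0 + e1 + e2) * r0 ^ (k + 4) := by
      apply mul_le_mul_of_nonneg_right _ hU
      nlinarith [mul_nonneg hx0 he0, mul_nonneg hx0 he2, mul_nonneg hx1 he1, mul_nonneg hx1 he2]
    have h4 : (x0 * e0) * (((k : ℝ) + 4) * r1 * r0 ^ (k + 3)) ≤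
        (x0 + x1) * (e0 + e1 + e2) * (((k : ℝ) + 4) * r1 * r0 ^ (k + 3)) := by
      apply mul_le_mul_of_nonneg_right _ hV
      nlinarith [mul_nonneg hx1 he0, mul_nonneg hx0 he1, mul_nonneg hx0 he2, mul_nonneg hx1 he1,
        mul_nonneg hx1 he2]
    linarith
  have hE : (r0 + r1) ^ (k + 3) *
      ((r0 + r1) * (x0 + x1) + ((k : ℝ) + 5) / 2 * (e0 + e1 + e2)) ^ 2 ≤
      2 * ((x0 + x1) ^ 2 * (r0 + r1) ^ (k + 5)) +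
        ((k : ℝ) + 5) ^ 2 / 2 * ((e0 + e1 + e2) ^ 2 * (r0 + r1) ^ (k + 3)) := by
    have e5 : (r0 + r1) ^ (k + 5) = (r0 + r1) ^ (k + 3) * (r0 + r1) ^ 2 := by rw [← pow_add]
    rw [e5]
    have := mul_nonneg hR3 (sq_nonneg ((r0 + r1) * (x0 + x1) -
      ((k : ℝ) + 5) / 2 * (e0 + e1 + e2)))
    linarith
  -- the last block with the extra term
  have n2' : 1 / 4 * ((e0 + e1 + e2) ^ 2 * (r0 + r1) ^ (k + 3)) ≤
      (e0 + e1 + e2) ^ 2 * (r0 + r1) ^ (k + 3) - 2 * e0 * e1 * r0 ^ (k + 3) -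
        ((k : ℝ) + 3) * e0 ^ 2 * r1 * r0 ^ (k + 2) := by
    have h1 : (e0 + e1) ^ 2 * (r0 + r1) ^ (k + 3) ≤ (e0 + e1 + e2) ^ 2 * (r0 + r1) ^ (k + 3) :=
      mul_le_mul_of_nonneg_right (by nlinarith [mul_nonneg he0 he2, mul_nonneg he1 he2]) hR3
    have h2 : 1 / 4 * ((e0 + e1 + e2) ^ 2 * (r0 + r1) ^ (k + 3)) -
        1 / 4 * ((e0 + e1) ^ 2 * (r0 + r1) ^ (k + 3)) ≤
        (e0 + e1 + e2) ^ 2 * (r0 + r1) ^ (k + 3) - (e0 + e1) ^ 2 * (r0 + r1) ^ (k + 3) := by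
      linarith
    linarith
  have h6 : 0 ≤ (e0 + e1 + e2) ^ 2 * (r0 + r1) ^ (k + 3) := by positivity
  have h7 : 0 ≤ (x0 + x1) ^ 2 * (r0 + r1) ^ (k + 5) := by positivity
  have h8 := mul_le_mul_of_nonneg_left n2'
    (show 0 ≤ ((k : ℝ) + 5) * ((k : ℝ) + 4) / 2 by positivity)
  have h9 := mul_nonneg (show 0 ≤ 2 * ((k : ℝ) + 5) by positivity) n1
  have h10 : ((k : ℝ) + 5) ^ 2 / 16 * ((e0 + e1 + e2) ^ 2 * (r0 + r1) ^ (k + 3)) ≤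
      ((k : ℝ) + 5) * ((k : ℝ) + 4) / 2 *
        (1 / 4 * ((e0 + e1 + e2) ^ 2 * (r0 + r1) ^ (k + 3))) := by
    have : ((k : ℝ) + 5) ^ 2 / 16 ≤ ((k : ℝ) + 5) * ((k : ℝ) + 4) / 2 * (1 / 4) := by nlinarith
    have := mul_le_mul_of_nonneg_right this h6
    linarith
  linarith

end Pool.Agent.Work.MAC67
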