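import Pool.Agent.Work.MAC67.Pair

namespace Pool.Agent.Work.MAC67

open MeasureTheory
open scoped ENNReal

theorem ite_add_zero' {p : Prop} [Decidable p] (a b : ℝ≥0∞) :
    (if p then a + b else 0) = (if p then a else 0) + (if p then b else 0) := by
  split <;> simp

theorem TT_bellman {m : ℕ} (μ : Measure ℝ) [SigmaFinite μ] (A : List ℕ → Set ℝ)
    (hA : ∀ f, MeasurableSet (A f)) (f : List ℕ) {X R : Set ℝ} (hX : MeasurableSet X)
    (hR : MeasurableSet R) {κ : Type} [Fintype κ] {Xl Rl : κ → Set ℝ}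
    (hXl : ∀ l, MeasurableSet (Xl l)) (hRl : ∀ l, MeasurableSet (Rl l)) :
    TT (m := m) (NS μ (A f)) X R Xl Rl +
      (TT (m := m) (D μ A (0 :: f)) (X \ A f) (R \ A f) (fun l => Xl l \ A f)
        (fun l => Rl l \ A f) +
      TT (m := m) (D μ A (2 :: f)) (X ∩ A f) (R \ A f) (nX (A f) X Xl) (nR (A f) R Rl)) ≤
      TT (m := m) (D μ A f) X R Xl Rl := by
  have h0 := low0 (m := m) μ A hA f hX hR
  have h1 := Finset.sum_le_sum fun (l : κ) (_ : l ∈ Finset.univ) =>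
    Finset.sum_le_sum fun (j : Fin m) (_ : j ∈ Finset.univ) =>
      add_le_add (low1 μ A hA f hX hR (hXl l) (hRl l) j) (low1' μ A hA f hX hR (hXl l) (hRl l) j)
  have h2 : ∀ l l' : κ, ∀ i j : Fin m,
      (if i < j then
      (NS μ (A f) (cfg (Xl l) (Xl l') (t2 R i (Rl l) j (Rl l'))) +
      (D μ A (0 :: f) (cfg (Xl l \ A f) (Xl l' \ A f)
        (t2 (R \ A f) i (Rl l \ A f) j (Rl l' \ A f))) +
      (D μ A (2 :: f) (cfg (Xl l ∩ A f) (Xl l' ∩ A f)
        (t2 (R \ A f) i (Rl l \ A f) j (Rl l' \ A f))) +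
      D μ A (2 :: f) (cfg (Xl l ∩ A f) (Xl l' \ A f)
        (t2 (R \ A f) i (Rl l \ A f) j (Rl l' ∩ A f))) +
      D μ A (2 :: f) (cfg (Xl l \ A f) (Xl l' ∩ A f)
        (t2 (R \ A f) i (Rl l ∩ A f) j (Rl l' \ A f))) +
      D μ A (2 :: f) (cfg (Xl l \ A f) (Xl l' \ A f)
        (t2 (R \ A f) i (Rl l ∩ A f) j (Rl l' ∩ A f)))))) else 0) ≤
      (if i < j then D μ A f (cfg (Xl l) (Xl l') (t2 R i (Rl l) j (Rl l'))) else 0) := by
    intro l l' i j
    by_cases hij : i < j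
    · rw [if_pos hij, if_pos hij]
      exact low2 μ A hA f hR (hXl l) (hRl l) (hXl l') (hRl l') hij
    · rw [if_neg hij, if_neg hij]
  have h2' := Finset.sum_le_sum fun (l : κ) (_ : l ∈ Finset.univ) =>
    Finset.sum_le_sum fun (l' : κ) (_ : l' ∈ Finset.univ) =>
    Finset.sum_le_sum fun (i : Fin m) (_ : i ∈ Finset.univ) =>
    Finset.sum_le_sum fun (j : Fin m) (_ : j ∈ Finset.univ) => h2 l l' i j
  refine le_trans (le_of_eq ?_) (add_le_add (add_le_add h0 h1) h2')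
  unfold TT
  simp only [Fintype.sum_option, Fintype.sum_sum_type, nX, nR, ite_add_zero',
    Finset.sum_add_distrib]
  have c1 : ∀ (F : Fin m → Fin m → ℝ≥0∞), ∑ j : Fin m, ∑ i : Fin m, (if i < j then F i j else 0) =
      ∑ i : Fin m, ∑ j : Fin m, (if i < j then F i j else 0) := fun F => Finset.sum_comm
  have e1 : ∀ l : κ, ∑ j : Fin m, ∑ i : Fin m, (if i < j then D μ A (2 :: f)
        (cfg (X \ A f) (Xl l ∩ A f) (t2 (R \ A f) i (R ∩ A f) j (Rl l \ A f))) else 0) =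
      ∑ i : Fin m, ∑ j : Fin m, (if i < j then D μ A (2 :: f)
        (cfg (X \ A f) (Xl l ∩ A f) (t2 (R \ A f) i (R ∩ A f) j (Rl l \ A f))) else 0) :=
    fun l => c1 fun i j => D μ A (2 :: f)
        (cfg (X \ A f) (Xl l ∩ A f) (t2 (R \ A f) i (R ∩ A f) j (Rl l \ A f)))
  have e2 : ∀ l : κ, ∑ j : Fin m, ∑ i : Fin m, (if i < j then D μ A (2 :: f)
        (cfg (X \ A f) (Xl l \ A f) (t2 (R \ A f) i (R ∩ A f) j (Rl l ∩ A f))) else 0) =
      ∑ i : Fin m, ∑ j : Fin m, (if i < j then D μ A (2 :: f)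
        (cfg (X \ A f) (Xl l \ A f) (t2 (R \ A f) i (R ∩ A f) j (Rl l ∩ A f))) else 0) :=
    fun l => c1 fun i j => D μ A (2 :: f)
        (cfg (X \ A f) (Xl l \ A f) (t2 (R \ A f) i (R ∩ A f) j (Rl l ∩ A f)))
  simp only [e1, e2]
  ring

end Pool.Agent.Work.MAC67
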