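import Pool.Agent.Work.MAC67.PairStep
import Pool.Agent.Work.MAC67.PairNS
import Pool.Agent.Work.MAC67.Blocks

namespace Pool.Agent.Work.MAC67

open MeasureTheory
open scoped ENNReal

/-- the real value of the volume without success -/
noncomputable def nsr {n : ℕ} (μ : Measure ℝ) (B : Set ℝ) (S : Fin n → Set ℝ) : ℝ :=
  ∏ i, (μ.real (S i ∩ B) + μ.real (S i \ B)) -
    ∑ i, μ.real (S i ∩ B) * ∏ j ∈ Finset.univ.erase i, μ.real (S j \ B)

theorem NS_eq {n : ℕ} (μ : Measure ℝ) [IsFiniteMeasure μ] (B : Set ℝ) (S : Fin n → Set ℝ) :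
    0 ≤ nsr μ B S ∧ NS μ B S = ENNReal.ofReal (nsr μ B S) := by
  set x : Fin n → ℝ := fun i => μ.real (S i ∩ B) with hx
  set y : Fin n → ℝ := fun i => μ.real (S i \ B) with hy
  have hwt : ∀ b, 0 ≤ wt x y b := wt_nonneg (fun i => measureReal_nonneg)
    (fun i => measureReal_nonneg)
  have h1 : nsr μ B S = ∑ b : Fin n → Bool, if num b = 1 then 0 else wt x y b := by
    have h2 : ∑ b : Fin n → Bool, wt x y b = ∏ i, (x i + y i) := sum_wt x y
    have h3 := sum_num_one (fun b => wt x y b)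
    simp only [wt_single] at h3
    unfold nsr
    rw [← h2, ← h3, Finset.sum_filter, ← Finset.sum_sub_distrib]
    refine Finset.sum_congr rfl fun b _ => ?_
    split <;> ring
  constructor
  · rw [h1]
    refine Finset.sum_nonneg fun b _ => ?_
    split
    · exact le_rfl
    · exact hwt b
  · rw [h1, ENNReal.ofReal_sum_of_nonneg]
    · unfold NS
      refine Finset.sum_congr rfl fun b _ => ?_
      split
      · simp
      · exact mu_spl μ B S b
    · intro b _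
      split
      · exact le_rfl
      · exact hwt b

theorem single_of_prod {n : ℕ} (x y : Fin n → ℝ) (F : ℝ → ℝ) (F' : ℝ)
    (hF : ∀ ε, ∏ i, (y i + ε * x i) = F ε) (hd : HasDerivAt F F' 0) :
    ∑ i, x i * ∏ j ∈ Finset.univ.erase i, y j = F' := by
  have h1 : HasDerivAt (fun ε : ℝ => ∏ i, (y i + ε * x i))
      (∑ i ∈ Finset.univ, (∏ j ∈ Finset.univ.erase i, (y j + 0 * x j)) • x i) 0 := by
    refine HasDerivAt.fun_finsetProd fun i _ => ?_
    have := ((hasDerivAt_id (0 : ℝ)).mul_const (x i)).const_add (y i)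
    simpa using this
  have h2 : (fun ε : ℝ => ∏ i, (y i + ε * x i)) = F := funext hF
  rw [h2] at h1
  rw [← h1.unique hd]
  refine Finset.sum_congr rfl fun i _ => ?_
  simp [mul_comm]

theorem deriv4 (a0 a1 b0 b1 c0 c1 d0 d1 r0 r1 : ℝ) (k : ℕ) :
    HasDerivAt (fun ε : ℝ => (a0 + ε * a1) * (b0 + ε * b1) *
      ((c0 + ε * c1) * (d0 + ε * d1) * (r0 + ε * r1) ^ (k + 3)))
      ((a1 * b0 * c0 * d0 + a0 * b1 * c0 * d0 + a0 * b0 * c1 * d0 + a0 * b0 * c0 * d1) *
        r0 ^ (k + 3) + ((k : ℝ) + 3) * (a0 * b0 * c0 * d0) * r1 * r0 ^ (k + 2)) 0 := by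
  have h : ∀ u v : ℝ, HasDerivAt (fun ε : ℝ => u + ε * v) v 0 := by
    intro u v
    have := ((hasDerivAt_id (0 : ℝ)).mul_const v).const_add u
    simpa using this
  have h2 := ((h a0 a1).fun_mul (h b0 b1)).fun_mul
    (((h c0 c1).fun_mul (h d0 d1)).fun_mul ((h r0 r1).fun_pow (k + 3)))
  refine h2.congr_deriv ?_
  simp only [zero_mul, add_zero, Nat.add_succ_sub_one]
  push_cast
  ring

/-- the polynomial for four special places -/
noncomputable def ns4 (k : ℕ) (a0 a1 b0 b1 c0 c1 d0 d1 r0 r1 : ℝ) : ℝ :=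
  (a0 + a1) * (b0 + b1) * (c0 + c1) * (d0 + d1) * (r0 + r1) ^ (k + 3) -
    ((a1 * b0 * c0 * d0 + a0 * b1 * c0 * d0 + a0 * b0 * c1 * d0 + a0 * b0 * c0 * d1) *
        r0 ^ (k + 3) + ((k : ℝ) + 3) * (a0 * b0 * c0 * d0) * r1 * r0 ^ (k + 2))

theorem nsr_cfg {k : ℕ} (μ : Measure ℝ) (B X Y T T' R : Set ℝ)
    (τ : Fin (k + 5) → Set ℝ)
    (hτ : ∀ g : Set ℝ → ℝ, ∏ j, g (τ j) = g T * g T' * g R ^ (k + 3)) :
    nsr μ B (cfg X Y τ) = ns4 k (μ.real (X \ B)) (μ.real (X ∩ B)) (μ.real (Y \ B))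
      (μ.real (Y ∩ B)) (μ.real (T \ B)) (μ.real (T ∩ B)) (μ.real (T' \ B)) (μ.real (T' ∩ B))
      (μ.real (R \ B)) (μ.real (R ∩ B)) := by
  have hp : ∀ g : Set ℝ → ℝ, ∏ i, g (cfg X Y τ i) = g X * g Y * (g T * g T' * g R ^ (k + 3)) :=
    fun g => by rw [prod_cfg, hτ]
  unfold nsr ns4
  congr 1
  · have := hp fun S => μ.real (S ∩ B) + μ.real (S \ B)
    rw [this]
    ring
  · refine single_of_prod _ _ _ _ (fun ε => hp fun S => μ.real (S \ B) + ε * μ.real (S ∩ B)) ?_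
    exact deriv4 _ _ _ _ _ _ _ _ _ _ k

theorem prod_t0 {k : ℕ} (R : Set ℝ) (g : Set ℝ → ℝ) :
    ∏ j : Fin (k + 5), g ((fun _ => R) j) = g R * g R * g R ^ (k + 3) := by
  simp only [Finset.prod_const, Finset.card_univ, Fintype.card_fin]
  ring

theorem prod_t1 {k : ℕ} (R T : Set ℝ) (j : Fin (k + 5)) (g : Set ℝ → ℝ) :
    ∏ i : Fin (k + 5), g (t1 R j T i) = g T * g R * g R ^ (k + 3) := by
  rw [← Finset.mul_prod_erase Finset.univ _ (Finset.mem_univ j)]
  have h : ∏ i ∈ Finset.univ.erase j, g (t1 R j T i) = g R ^ (k + 4) := by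
    rw [Finset.prod_congr rfl (g := fun _ => g R), Finset.prod_const,
      Finset.card_erase_of_mem (Finset.mem_univ j), Finset.card_univ, Fintype.card_fin]
    · rfl
    · intro i hi
      simp [t1, Finset.ne_of_mem_erase hi]
  rw [h]
  simp only [t1, if_true]
  ring

theorem prod_t2 {k : ℕ} (R T T' : Set ℝ) {i j : Fin (k + 5)} (hij : i ≠ j) (g : Set ℝ → ℝ) :
    ∏ l : Fin (k + 5), g (t2 R i T j T' l) = g T * g T' * g R ^ (k + 3) := by
  rw [← Finset.mul_prod_erase Finset.univ _ (Finset.mem_univ i),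
    ← Finset.mul_prod_erase (Finset.univ.erase i) _
      (Finset.mem_erase.mpr ⟨hij.symm, Finset.mem_univ j⟩)]
  have h : ∏ l ∈ (Finset.univ.erase i).erase j, g (t2 R i T j T' l) = g R ^ (k + 3) := by
    rw [Finset.prod_congr rfl (g := fun _ => g R), Finset.prod_const,
      Finset.card_erase_of_mem (Finset.mem_erase.mpr ⟨hij.symm, Finset.mem_univ j⟩),
      Finset.card_erase_of_mem (Finset.mem_univ i), Finset.card_univ, Fintype.card_fin]
    · rfl
    · intro l hl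
      have h1 := Finset.ne_of_mem_erase hl
      have h2 := Finset.ne_of_mem_erase (Finset.mem_of_mem_erase hl)
      simp [t2, h1, h2]
  rw [h]
  simp only [t2, if_true, hij.symm, if_false]
  ring

theorem sum_lt {m : ℕ} (c : ℝ) :
    ∑ i : Fin m, ∑ j : Fin m, (if i < j then c else 0) = (m : ℝ) * ((m : ℝ) - 1) / 2 * c := by
  have h1 : ∑ i : Fin m, ∑ j : Fin m, (if i < j then c else 0) =
      ∑ i : Fin m, ∑ j : Fin m, (if j < i then c else 0) := Finset.sum_comm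
  have h2 : ∑ i : Fin m, ∑ j : Fin m, (if i < j then c else 0) +
      ∑ i : Fin m, ∑ j : Fin m, (if j < i then c else 0) +
      ∑ i : Fin m, ∑ j : Fin m, (if i = j then c else 0) = (m : ℝ) * (m : ℝ) * c := by
    rw [← Finset.sum_add_distrib, ← Finset.sum_add_distrib]
    have : ∀ i : Fin m, ∑ j : Fin m, (if i < j then c else 0) +
        ∑ j : Fin m, (if j < i then c else 0) + ∑ j : Fin m, (if i = j then c else 0) =
        (m : ℝ) * c := by
      intro i
      rw [← Finset.sum_add_distrib, ← Finset.sum_add_distrib]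
      have : ∀ j : Fin m, ((if i < j then c else 0) + if j < i then c else 0) +
          (if i = j then c else 0) = c := by
        intro j
        rcases lt_trichotomy i j with h | h | h
        · simp [h, h.ne, h.not_gt]
        · simp [h]
        · simp [h, h.ne', h.not_gt]
      rw [Finset.sum_congr rfl fun j _ => this j]
      simp
    rw [Finset.sum_congr rfl fun i _ => this i]
    simp [mul_assoc]
  have h3 : ∑ i : Fin m, ∑ j : Fin m, (if i = j then c else 0) = (m : ℝ) * c := by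
    simp
  linarith

/-- total of a real functional -/
theorem TT_ofReal {m : ℕ} (Φ : (Fin (m + 2) → Set ℝ) → ℝ≥0∞) (φ : (Fin (m + 2) → Set ℝ) → ℝ)
    (h : ∀ S, 0 ≤ φ S ∧ Φ S = ENNReal.ofReal (φ S)) (X R : Set ℝ) {κ : Type} [Fintype κ]
    (Xl Rl : κ → Set ℝ) : TT Φ X R Xl Rl = ENNReal.ofReal (TT φ X R Xl Rl) := by
  have hn : ∀ S, 0 ≤ φ S := fun S => (h S).1
  have hi : ∀ (i j : Fin m) (S : Fin (m + 2) → Set ℝ), 0 ≤ if i < j then φ S else 0 := by
    intro i j S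
    split
    · exact hn S
    · exact le_rfl
  unfold TT
  rw [ENNReal.ofReal_add, ENNReal.ofReal_add, ENNReal.ofReal_sum_of_nonneg,
    ENNReal.ofReal_sum_of_nonneg, (h _).2]
  · congr 1
    · congr 1
      refine Finset.sum_congr rfl fun l _ => ?_
      rw [ENNReal.ofReal_sum_of_nonneg]
      · refine Finset.sum_congr rfl fun j _ => ?_
        rw [ENNReal.ofReal_add (hn _) (hn _), (h _).2, (h _).2]
      · intro j _
        exact add_nonneg (hn _) (hn _)
    · refine Finset.sum_congr rfl fun l _ => ?_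
      rw [ENNReal.ofReal_sum_of_nonneg]
      · refine Finset.sum_congr rfl fun l' _ => ?_
        rw [ENNReal.ofReal_sum_of_nonneg]
        · refine Finset.sum_congr rfl fun i _ => ?_
          rw [ENNReal.ofReal_sum_of_nonneg]
          · refine Finset.sum_congr rfl fun j _ => ?_
            split
            · rw [(h _).2]
            · simp
          · intro j _; exact hi _ _ _
        · intro i _; exact Finset.sum_nonneg fun j _ => hi _ _ _
      · intro l' _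
        exact Finset.sum_nonneg fun i _ => Finset.sum_nonneg fun j _ => hi _ _ _
  · intro l _
    exact Finset.sum_nonneg fun l' _ => Finset.sum_nonneg fun i _ =>
      Finset.sum_nonneg fun j _ => hi _ _ _
  · intro l _
    exact Finset.sum_nonneg fun j _ => add_nonneg (hn _) (hn _)
  · exact hn _
  · exact Finset.sum_nonneg fun l _ => Finset.sum_nonneg fun j _ => add_nonneg (hn _) (hn _)
  · exact add_nonneg (hn _) (Finset.sum_nonneg fun l _ =>
      Finset.sum_nonneg fun j _ => add_nonneg (hn _) (hn _))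
  · exact Finset.sum_nonneg fun l _ => Finset.sum_nonneg fun l' _ =>
      Finset.sum_nonneg fun i _ => Finset.sum_nonneg fun j _ => hi _ _ _

theorem lin3 {κ : Type} [Fintype κ] (c1 c2 c3 : ℝ) (F G H : κ → κ → ℝ) :
    ∑ l, ∑ l', (c1 * F l l' - c2 * G l l' - c3 * H l l') =
      c1 * ∑ l, ∑ l', F l l' - c2 * ∑ l, ∑ l', G l l' - c3 * ∑ l, ∑ l', H l l' := by
  simp only [Finset.sum_sub_distrib, Finset.mul_sum]

/-- the total volume without success -/
theorem TT_nsr {k : ℕ} (μ : Measure ℝ) (B X R : Set ℝ) {κ : Type} [Fintype κ]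
    (Xl Rl : κ → Set ℝ) (x0 x1 r0 r1 e0 e1 e2 : ℝ)
    (hx0 : x0 = μ.real (X \ B)) (hx1 : x1 = μ.real (X ∩ B))
    (hr0 : r0 = μ.real (R \ B)) (hr1 : r1 = μ.real (R ∩ B))
    (he0 : e0 = ∑ l, μ.real (Xl l \ B) * μ.real (Rl l \ B))
    (he1 : e1 = ∑ l, (μ.real (Xl l ∩ B) * μ.real (Rl l \ B) +
      μ.real (Xl l \ B) * μ.real (Rl l ∩ B)))
    (he2 : e2 = ∑ l, μ.real (Xl l ∩ B) * μ.real (Rl l ∩ B)) :
    TT (m := k + 5) (nsr μ B) X R Xl Rl =
      ((x0 + x1) ^ 2 * (r0 + r1) ^ (k + 5) - 2 * x0 * x1 * r0 ^ (k + 5) -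
        ((k : ℝ) + 5) * x0 ^ 2 * r1 * r0 ^ (k + 4)) +
      2 * ((k : ℝ) + 5) * ((x0 + x1) * (e0 + e1 + e2) * (r0 + r1) ^ (k + 4) -
        (x1 * e0 + x0 * e1) * r0 ^ (k + 4) - ((k : ℝ) + 4) * x0 * e0 * r1 * r0 ^ (k + 3)) +
      ((k : ℝ) + 5) * ((k : ℝ) + 4) / 2 * ((e0 + e1 + e2) ^ 2 * (r0 + r1) ^ (k + 3) -
        2 * e0 * e1 * r0 ^ (k + 3) - ((k : ℝ) + 3) * e0 ^ 2 * r1 * r0 ^ (k + 2)) := by
  set p : κ → ℝ := fun l => μ.real (Xl l \ B) * μ.real (Rl l \ B) with hp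
  set q : κ → ℝ := fun l => μ.real (Xl l ∩ B) * μ.real (Rl l \ B) +
      μ.real (Xl l \ B) * μ.real (Rl l ∩ B) with hq
  set s : κ → ℝ := fun l => μ.real (Xl l ∩ B) * μ.real (Rl l ∩ B) with hs
  have f0 : nsr μ B (cfg X X fun _ : Fin (k + 5) => R) =
      (x0 + x1) ^ 2 * (r0 + r1) ^ (k + 5) - 2 * x0 * x1 * r0 ^ (k + 5) -
        ((k : ℝ) + 5) * x0 ^ 2 * r1 * r0 ^ (k + 4) := by
    rw [nsr_cfg μ B X X R R R _ (fun g => prod_t0 R g), ← hx0, ← hx1, ← hr0, ← hr1]
    unfold ns4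
    ring
  have f1 : ∀ (l : κ) (j : Fin (k + 5)), nsr μ B (cfg X (Xl l) (t1 R j (Rl l))) +
      nsr μ B (cfg (Xl l) X (t1 R j (Rl l))) =
      2 * ((x0 + x1) * (p l + q l + s l) * (r0 + r1) ^ (k + 4) -
        (x1 * p l + x0 * q l) * r0 ^ (k + 4) - ((k : ℝ) + 4) * x0 * p l * r1 * r0 ^ (k + 3)) := by
    intro l j
    rw [nsr_cfg μ B X (Xl l) (Rl l) R R _ (fun g => prod_t1 R (Rl l) j g),
      nsr_cfg μ B (Xl l) X (Rl l) R R _ (fun g => prod_t1 R (Rl l) j g),
      ← hx0, ← hx1, ← hr0, ← hr1]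
    simp only [hp, hq, hs]
    unfold ns4
    ring
  have f2 : ∀ (l l' : κ) (i j : Fin (k + 5)), i < j →
      nsr μ B (cfg (Xl l) (Xl l') (t2 R i (Rl l) j (Rl l'))) =
      (p l + q l + s l) * (p l' + q l' + s l') * (r0 + r1) ^ (k + 3) -
        (q l * p l' + p l * q l') * r0 ^ (k + 3) - ((k : ℝ) + 3) * (p l * p l') * r1 *
          r0 ^ (k + 2) := by
    intro l l' i j hij
    rw [nsr_cfg μ B (Xl l) (Xl l') (Rl l) (Rl l') R _
      (fun g => prod_t2 R (Rl l) (Rl l') hij.ne g), ← hr0, ← hr1]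
    simp only [hp, hq, hs]
    unfold ns4
    ring
  unfold TT
  rw [f0]
  have g1 : ∑ l, ∑ j : Fin (k + 5), (nsr μ B (cfg X (Xl l) (t1 R j (Rl l))) +
      nsr μ B (cfg (Xl l) X (t1 R j (Rl l)))) =
      2 * ((k : ℝ) + 5) * ((x0 + x1) * (e0 + e1 + e2) * (r0 + r1) ^ (k + 4) -
        (x1 * e0 + x0 * e1) * r0 ^ (k + 4) - ((k : ℝ) + 4) * x0 * e0 * r1 * r0 ^ (k + 3)) := by
    have : ∀ l, ∑ j : Fin (k + 5), (nsr μ B (cfg X (Xl l) (t1 R j (Rl l))) +
      nsr μ B (cfg (Xl l) X (t1 R j (Rl l)))) =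
      (2 * ((k : ℝ) + 5) * ((x0 + x1) * (r0 + r1) ^ (k + 4) - x1 * r0 ^ (k + 4) -
        ((k : ℝ) + 4) * x0 * r1 * r0 ^ (k + 3))) * p l +
      (2 * ((k : ℝ) + 5) * ((x0 + x1) * (r0 + r1) ^ (k + 4) - x0 * r0 ^ (k + 4))) * q l +
      (2 * ((k : ℝ) + 5) * ((x0 + x1) * (r0 + r1) ^ (k + 4))) * s l := by
      intro l
      rw [Finset.sum_congr rfl fun j _ => f1 l j]
      simp only [Finset.sum_const, Finset.card_univ, Fintype.card_fin, nsmul_eq_mul]
      push_cast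
      ring
    rw [Finset.sum_congr rfl fun l _ => this l, Finset.sum_add_distrib, Finset.sum_add_distrib,
      ← Finset.mul_sum, ← Finset.mul_sum, ← Finset.mul_sum, ← he0, ← he1, ← he2]
    ring
  have g2 : ∑ l, ∑ l', ∑ i : Fin (k + 5), ∑ j : Fin (k + 5),
      (if i < j then nsr μ B (cfg (Xl l) (Xl l') (t2 R i (Rl l) j (Rl l'))) else 0) =
      ((k : ℝ) + 5) * ((k : ℝ) + 4) / 2 * ((e0 + e1 + e2) ^ 2 * (r0 + r1) ^ (k + 3) -
        2 * e0 * e1 * r0 ^ (k + 3) - ((k : ℝ) + 3) * e0 ^ 2 * r1 * r0 ^ (k + 2)) := by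
    have : ∀ l l', ∑ i : Fin (k + 5), ∑ j : Fin (k + 5),
      (if i < j then nsr μ B (cfg (Xl l) (Xl l') (t2 R i (Rl l) j (Rl l'))) else 0) =
      (((k : ℝ) + 5) * ((k : ℝ) + 4) / 2 * (r0 + r1) ^ (k + 3)) *
        ((p l + q l + s l) * (p l' + q l' + s l')) -
      (((k : ℝ) + 5) * ((k : ℝ) + 4) / 2 * r0 ^ (k + 3)) * (q l * p l' + p l * q l') -
      (((k : ℝ) + 5) * ((k : ℝ) + 4) / 2 * (((k : ℝ) + 3) * r1 * r0 ^ (k + 2))) *
        (p l * p l') := by
      intro l l'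
      have h3 : ∀ i j : Fin (k + 5),
          (if i < j then nsr μ B (cfg (Xl l) (Xl l') (t2 R i (Rl l) j (Rl l'))) else 0) =
          (if i < j then ((p l + q l + s l) * (p l' + q l' + s l') * (r0 + r1) ^ (k + 3) -
            (q l * p l' + p l * q l') * r0 ^ (k + 3) - ((k : ℝ) + 3) * (p l * p l') * r1 *
            r0 ^ (k + 2)) else 0) := by
        intro i j
        by_cases hij : i < j
        · rw [if_pos hij, if_pos hij, f2 l l' i j hij]
        · rw [if_neg hij, if_neg hij]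
      rw [Finset.sum_congr rfl fun i _ => Finset.sum_congr rfl fun j _ => h3 i j, sum_lt]
      push_cast
      ring
    rw [Finset.sum_congr rfl fun l _ => Finset.sum_congr rfl fun l' _ => this l l', lin3]
    have s1 : ∑ l, (p l + q l + s l) = e0 + e1 + e2 := by
      rw [Finset.sum_add_distrib, Finset.sum_add_distrib, he0, he1, he2]
    have s2 : ∑ l, ∑ l', (p l + q l + s l) * (p l' + q l' + s l') = (e0 + e1 + e2) ^ 2 := by
      rw [← Finset.sum_mul_sum, s1]; ring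
    have s3 : ∑ l, ∑ l', (q l * p l' + p l * q l') = 2 * e0 * e1 := by
      simp only [Finset.sum_add_distrib]
      rw [← Finset.sum_mul_sum, ← Finset.sum_mul_sum, ← he0, ← he1]; ring
    have s4 : ∑ l, ∑ l', p l * p l' = e0 ^ 2 := by
      rw [← Finset.sum_mul_sum, ← he0]; ring
    rw [s2, s3, s4]
    ring
  rw [g1, g2]

end Pool.Agent.Work.MAC67
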