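import Pool.Agent.Work.MAC67.PairLimit

namespace Pool.Agent.Work.MAC67

open MeasureTheory
open scoped ENNReal

theorem cnt_comp {n : ℕ} (A : List ℕ → Set ℝ) (u : Fin n → ℝ) (σ : Equiv.Perm (Fin n))
    (f : List ℕ) : cnt A (u ∘ σ) f = cnt A u f := by
  classical
  unfold cnt
  refine Finset.card_bij (fun i _ => σ i) ?_ ?_ ?_
  · intro i hi
    simp only [Finset.mem_filter, Finset.mem_univ, true_and, Function.comp] at hi ⊢
    exact hi
  · intro i _ j _ h
    exact σ.injective h
  · intro j hj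
    refine ⟨σ.symm j, ?_, by simp⟩
    simp only [Finset.mem_filter, Finset.mem_univ, true_and, Function.comp,
      Equiv.apply_symm_apply] at hj ⊢
    exact hj

theorem nxt_comp {n : ℕ} (A : List ℕ → Set ℝ) (u : Fin n → ℝ) (σ : Equiv.Perm (Fin n)) :
    nxt A (u ∘ σ) = nxt A u := by
  funext f
  unfold nxt
  rw [cnt_comp]

theorem Zt_comp {n : ℕ} (A : List ℕ → Set ℝ) (u : Fin n → ℝ) (σ : Equiv.Perm (Fin n))
    (f : List ℕ) : Zt A (u ∘ σ) f = Zt A u f := by
  unfold Zt
  rw [nxt_comp]
  simp only [cnt_comp]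

theorem K_perm {n : ℕ} (μ : Measure ℝ) [SigmaFinite μ] (A : List ℕ → Set ℝ) (f : List ℕ)
    (S : Fin n → Set ℝ) (σ : Equiv.Perm (Fin n)) :
    K μ A f (S ∘ σ) = K μ A f S := by
  have hmp := measurePreserving_piCongrLeft (fun _ : Fin n => μ) σ
  have h1 : ∀ u : Fin n → ℝ, (MeasurableEquiv.piCongrLeft (fun _ : Fin n => ℝ) σ) u =
      u ∘ σ.symm := by
    intro u
    funext i
    obtain ⟨j, rfl⟩ := σ.surjective i
    rw [MeasurableEquiv.coe_piCongrLeft, Equiv.piCongrLeft_apply_apply]
    simp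
  unfold K
  have h2 := hmp.setLIntegral_comp_preimage_emb
    (MeasurableEquiv.piCongrLeft (fun _ : Fin n => ℝ) σ).measurableEmbedding
    (fun u => ((Zt A u f : ℕ∞) : ℝ≥0∞)) (Set.univ.pi S)
  rw [← h2]
  have h3 : (MeasurableEquiv.piCongrLeft (fun _ : Fin n => ℝ) σ) ⁻¹' Set.univ.pi S =
      Set.univ.pi (S ∘ σ) := by
    ext u
    simp only [Set.mem_preimage, Set.mem_univ_pi, h1, Function.comp]
    constructor
    · intro h i
      simpa using h (σ i)
    · intro h i
      simpa using h (σ.symm i)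
  rw [h3]
  refine lintegral_congr fun u => ?_
  rw [h1, Zt_comp]

theorem exists_perm {m : ℕ} (b : Fin (m + 2) → Bool) (hb : num b = 2) :
    ∃ σ : Equiv.Perm (Fin (m + 2)), ∀ i, b (σ i) = cfg true true (fun _ : Fin m => false) i := by
  classical
  set c : Fin (m + 2) → Bool := cfg true true (fun _ : Fin m => false) with hc
  have hcn : num c = 2 := by
    rw [hc, num_cfg, num_false]; simp
  have e : Fintype.card {i // c i = true} = Fintype.card {i // b i = true} := by
    rw [Fintype.card_subtype, Fintype.card_subtype]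
    unfold num at hb hcn
    rw [hb, hcn]
  set E := Fintype.equivOfCardEq e
  refine ⟨E.extendSubtype, fun i => ?_⟩
  by_cases hi : c i = true
  · rw [hi]
    exact E.extendSubtype_mem i hi
  · have := E.extendSubtype_not_mem i hi
    simp only [Bool.not_eq_true] at hi this
    rw [hi, this]

/-- two users in the set `T ∩ B` -/
theorem two_in {n : ℕ} (hn : 7 ≤ n) (μ : Measure ℝ) [IsFiniteMeasure μ] (A : List ℕ → Set ℝ)
    (hA : ∀ f, MeasurableSet (A f)) (f : List ℕ) {X R : Set ℝ} (hX : MeasurableSet X)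
    (hR : MeasurableSet R) (b : Fin n → Bool) (hb : num b = 2) :
    ENNReal.ofReal (2 * (μ.real X ^ 2 * μ.real R ^ (n - 2))) ≤
      K μ A f (fun i => if b i = true then X else R) := by
  obtain ⟨k, rfl⟩ : ∃ k, n = k + 5 + 2 := ⟨n - 7, by omega⟩
  obtain ⟨σ, hσ⟩ := exists_perm b hb
  rw [← K_perm μ A f (fun i => if b i = true then X else R) σ]
  have e : (fun i => if b i = true then X else R) ∘ σ = cfg X X fun _ : Fin (k + 5) => R := by
    funext i
    simp only [Function.comp, hσ]
    unfold cfg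
    refine Fin.cases ?_ (fun i => ?_) i
    · simp
    · simp only [Fin.cons_succ]
      refine Fin.cases ?_ (fun i => ?_) i
      · simp
      · simp
  rw [e]
  exact two_le k μ A hA f hX hR

end Pool.Agent.Work.MAC67
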