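import Pool.Agent.Work.MAC67.Ineq

namespace Pool.Agent.Work.MAC67

theorem merge3 (C : ℝ) (hC0 : 0 ≤ C) (hC1 : C ≤ 788 / 1000) (α β : ℝ) (hα : 0 ≤ α)
    (hαβ : α ≤ β) (v w : ℝ) (hv : 0 ≤ v) (hw : 0 ≤ w) :
    C * α * (1 + (v + w) ^ 3) + (1 - C) * β * (1 + (v + w)) ^ 3 ≤
      C * α * ((1 + v ^ 3) * (1 + w ^ 3)) + (1 - C) * β * ((1 + v) ^ 3 * (1 + w) ^ 3) := by
  have hβ : 0 ≤ β := hα.trans hαβ
  have h1C : 0 ≤ 1 - C := by linarith
  set V := v + w with hV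
  have hV0 : 0 ≤ V := by positivity
  set m := v * w with hm
  have hm0 : 0 ≤ m := by positivity
  have e1 : (1 + v) ^ 3 * (1 + w) ^ 3 = (1 + V + m) ^ 3 := by rw [hV, hm]; ring
  have e2 : (1 + v ^ 3) * (1 + w ^ 3) = 1 + V ^ 3 - 3 * m * V + m ^ 3 := by rw [hV, hm]; ring
  rw [e1, e2]
  have k1 : 3 * (1 + V) ^ 2 * m ≤ (1 + V + m) ^ 3 - (1 + V) ^ 3 := by
    have : (1 + V + m) ^ 3 - (1 + V) ^ 3 - 3 * (1 + V) ^ 2 * m = 3 * (1 + V) * m ^ 2 + m ^ 3 := by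
      ring
    have : 0 ≤ 3 * (1 + V) * m ^ 2 + m ^ 3 := by positivity
    linarith
  have k2 : 4 * V ≤ (1 + V) ^ 2 := by nlinarith [sq_nonneg (1 - V)]
  have k3 : C * α * V ≤ (1 - C) * β * (1 + V) ^ 2 := by
    have a1 : C * α ≤ (788 / 1000) * β := by
      calc C * α ≤ (788 / 1000) * α := mul_le_mul_of_nonneg_right hC1 hα
        _ ≤ (788 / 1000) * β := mul_le_mul_of_nonneg_left hαβ (by norm_num)
    have a2 : (212 / 1000) * β ≤ (1 - C) * β := mul_le_mul_of_nonneg_right (by linarith) hβ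
    have a3 : (1 - C) * β * (4 * V) ≤ (1 - C) * β * (1 + V) ^ 2 :=
      mul_le_mul_of_nonneg_left k2 (mul_nonneg h1C hβ)
    have a4 : C * α * V ≤ (788 / 1000) * β * V := mul_le_mul_of_nonneg_right a1 hV0
    have a5 : (212 / 1000) * β * (4 * V) ≤ (1 - C) * β * (4 * V) :=
      mul_le_mul_of_nonneg_right a2 (by positivity)
    have a6 : (788 / 1000) * β * V ≤ (212 / 1000) * β * (4 * V) := by
      have : 0 ≤ β * V := mul_nonneg hβ hV0
      nlinarith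
    linarith
  have k4 : (1 - C) * β * (3 * (1 + V) ^ 2 * m) ≤
      (1 - C) * β * ((1 + V + m) ^ 3 - (1 + V) ^ 3) :=
    mul_le_mul_of_nonneg_left k1 (mul_nonneg h1C hβ)
  have k5 : C * α * V * m ≤ (1 - C) * β * (1 + V) ^ 2 * m := mul_le_mul_of_nonneg_right k3 hm0
  have k6 : 0 ≤ C * α * m ^ 3 := by positivity
  nlinarith

theorem merge_all (C : ℝ) (hC0 : 0 ≤ C) (hC1 : C ≤ 788 / 1000) {ι : Type*} [DecidableEq ι]
    (s : Finset ι) (v : ι → ℝ) (hv : ∀ i ∈ s, 0 ≤ v i) :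
    ∀ α β : ℝ, 0 ≤ α → α ≤ β →
    C * α * (1 + (∑ i ∈ s, v i) ^ 3) + (1 - C) * β * (1 + ∑ i ∈ s, v i) ^ 3 ≤
      C * α * (∏ i ∈ s, (1 + v i ^ 3)) + (1 - C) * β * ∏ i ∈ s, (1 + v i) ^ 3 := by
  induction s using Finset.induction_on with
  | empty => intro α β _ _; simp
  | insert a s ha ih =>
    intro α β hα hαβ
    have hva : 0 ≤ v a := hv a (Finset.mem_insert_self a s)
    have hvs : ∀ i ∈ s, 0 ≤ v i := fun i hi => hv i (Finset.mem_insert_of_mem hi)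
    have hsum : 0 ≤ ∑ i ∈ s, v i := Finset.sum_nonneg hvs
    have hle : 1 + v a ^ 3 ≤ (1 + v a) ^ 3 := by nlinarith [pow_nonneg hva 2]
    have h1 := ih hvs (α * (1 + v a ^ 3)) (β * (1 + v a) ^ 3) (by positivity)
      (mul_le_mul hαβ hle (by positivity) (hα.trans hαβ))
    have h2 := merge3 C hC0 hC1 α β hα hαβ (v a) (∑ i ∈ s, v i) hva hsum
    rw [Finset.sum_insert ha, Finset.prod_insert ha, Finset.prod_insert ha]
    calc _ ≤ _ := h2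
      _ = C * (α * (1 + v a ^ 3)) * (1 + (∑ i ∈ s, v i) ^ 3) +
          (1 - C) * (β * (1 + v a) ^ 3) * (1 + ∑ i ∈ s, v i) ^ 3 := by ring
      _ ≤ _ := h1
      _ = _ := by ring

theorem pairs_low {ι : Type*} [DecidableEq ι] (s : Finset ι) (u : ι → ℝ)
    (hu : ∀ i ∈ s, 0 ≤ u i) :
    1 + ∑ i ∈ s, u i ^ 2 ≤ ∏ i ∈ s, (1 + u i ^ 2) := by
  induction s using Finset.induction_on with
  | empty => simp
  | insert a s ha ih =>
    have hus : ∀ i ∈ s, 0 ≤ u i := fun i hi => hu i (Finset.mem_insert_of_mem hi)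
    have h1 := ih hus
    rw [Finset.sum_insert ha, Finset.prod_insert ha]
    have h2 : 0 ≤ ∑ i ∈ s, u i ^ 2 := Finset.sum_nonneg fun i _ => sq_nonneg _
    nlinarith [sq_nonneg (u a), mul_nonneg (sq_nonneg (u a)) h2,
      mul_le_mul_of_nonneg_left h1 (sq_nonneg (u a))]

theorem pairs_high {ι : Type*} [DecidableEq ι] (s : Finset ι) (u : ι → ℝ)
    (hu : ∀ i ∈ s, 0 ≤ u i) :
    0 ≤ (∑ i ∈ s, u i) ^ 2 - ∑ i ∈ s, u i ^ 2 ∧
    1 + ∑ i ∈ s, u i + ((∑ i ∈ s, u i) ^ 2 - ∑ i ∈ s, u i ^ 2) / 2 ≤ ∏ i ∈ s, (1 + u i) := by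
  induction s using Finset.induction_on with
  | empty => simp
  | insert a s ha ih =>
    have hua : 0 ≤ u a := hu a (Finset.mem_insert_self a s)
    have hus : ∀ i ∈ s, 0 ≤ u i := fun i hi => hu i (Finset.mem_insert_of_mem hi)
    obtain ⟨h0, h1⟩ := ih hus
    rw [Finset.sum_insert ha, Finset.prod_insert ha, Finset.sum_insert ha]
    have h2 : 0 ≤ ∑ i ∈ s, u i := Finset.sum_nonneg hus
    set X := ∑ i ∈ s, u i with hX
    set Y := ∑ i ∈ s, u i ^ 2 with hY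
    constructor
    · nlinarith [mul_nonneg hua h2]
    · have h3 : (1 + u a) * (1 + X + (X ^ 2 - Y) / 2) ≤ (1 + u a) * ∏ i ∈ s, (1 + u i) :=
        mul_le_mul_of_nonneg_left h1 (by linarith)
      nlinarith [mul_nonneg hua h0]

theorem prod_ineq (C : ℝ) (hC0 : 0 ≤ C) (hC1 : C ≤ 788 / 1000)
    (h3 : ∀ v : ℝ, 0 ≤ v → 3 * v ≤ C * (1 + v ^ 3) + (1 - C) * (1 + v) ^ 3)
    {ι : Type*} [DecidableEq ι] (L : Finset ι) (g : ι → ℕ)
    (hg : ∀ i ∈ L, g i = 2 ∨ g i = 3) (v : ι → ℝ) (hv : ∀ i ∈ L, 0 ≤ v i) :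
    ∑ i ∈ L, (g i : ℝ) * v i ≤
      C * ∏ i ∈ L, (1 + v i ^ g i) + (1 - C) * ∏ i ∈ L, (1 + v i) ^ g i := by
  classical
  set L3 := L.filter (fun i => g i = 3) with hL3
  set L2 := L.filter (fun i => ¬ g i = 3) with hL2
  have hg3 : ∀ i ∈ L3, g i = 3 := fun i hi => (Finset.mem_filter.mp hi).2
  have hg2 : ∀ i ∈ L2, g i = 2 := fun i hi => by
    have h := Finset.mem_filter.mp hi
    rcases hg i h.1 with h' | h'
    · exact h'
    · exact absurd h' h.2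
  have hv3 : ∀ i ∈ L3, 0 ≤ v i := fun i hi => hv i (Finset.mem_filter.mp hi).1
  have hv2 : ∀ i ∈ L2, 0 ≤ v i := fun i hi => hv i (Finset.mem_filter.mp hi).1
  have es : ∑ i ∈ L, (g i : ℝ) * v i = 3 * ∑ i ∈ L3, v i + 2 * ∑ i ∈ L2, v i := by
    rw [← Finset.sum_filter_add_sum_filter_not L (fun i => g i = 3), Finset.mul_sum,
      Finset.mul_sum]
    congr 1
    · refine Finset.sum_congr rfl fun i hi => ?_
      rw [hg3 i hi]; norm_num
    · refine Finset.sum_congr rfl fun i hi => ?_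
      rw [hg2 i hi]; norm_num
  have ep : ∏ i ∈ L, (1 + v i ^ g i) =
      (∏ i ∈ L3, (1 + v i ^ 3)) * ∏ i ∈ L2, (1 + v i ^ 2) := by
    rw [← Finset.prod_filter_mul_prod_filter_not L (fun i => g i = 3)]
    congr 1
    · exact Finset.prod_congr rfl fun i hi => by rw [hg3 i hi]
    · exact Finset.prod_congr rfl fun i hi => by rw [hg2 i hi]
  have eq : ∏ i ∈ L, (1 + v i) ^ g i =
      (∏ i ∈ L3, (1 + v i) ^ 3) * ∏ i ∈ L2, (1 + v i) ^ 2 := by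
    rw [← Finset.prod_filter_mul_prod_filter_not L (fun i => g i = 3)]
    congr 1
    · exact Finset.prod_congr rfl fun i hi => by rw [hg3 i hi]
    · exact Finset.prod_congr rfl fun i hi => by rw [hg2 i hi]
  rw [es, ep, eq]
  have h1C : 0 ≤ 1 - C := by linarith
  set α := ∏ i ∈ L2, (1 + v i ^ 2) with hα
  set β := ∏ i ∈ L2, (1 + v i) ^ 2 with hβ
  have hα0 : 0 ≤ α := Finset.prod_nonneg fun i hi => by have := hv2 i hi; positivity
  have hαβ : α ≤ β := Finset.prod_le_prod (fun i hi => by have := hv2 i hi; positivity)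
    fun i hi => by have := hv2 i hi; nlinarith
  have hm := merge_all C hC0 hC1 L3 v hv3 α β hα0 hαβ
  have hV : 0 ≤ ∑ i ∈ L3, v i := Finset.sum_nonneg hv3
  have hU : 0 ≤ ∑ i ∈ L2, v i := Finset.sum_nonneg hv2
  have hpl := pairs_low L2 v hv2
  obtain ⟨hph0, hph⟩ := pairs_high L2 v hv2
  have hb := block_ineq C hC0 hC1 h3 (∑ i ∈ L3, v i) (∑ i ∈ L2, v i) (∑ i ∈ L2, v i ^ 2) hV hU
    (Finset.sum_nonneg fun i _ => sq_nonneg _) (by linarith)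
  have hβ' : (1 + ∑ i ∈ L2, v i + ((∑ i ∈ L2, v i) ^ 2 - ∑ i ∈ L2, v i ^ 2) / 2) ^ 2 ≤ β := by
    rw [hβ, Finset.prod_pow]
    apply pow_le_pow_left₀ _ hph
    positivity
  set V := ∑ i ∈ L3, v i with hVd
  set U := ∑ i ∈ L2, v i with hUd
  have k1 : C * ((1 + V ^ 3) * (1 + ∑ i ∈ L2, v i ^ 2)) ≤ C * α * (1 + V ^ 3) := by
    have : (1 + V ^ 3) * (1 + ∑ i ∈ L2, v i ^ 2) ≤ (1 + V ^ 3) * α :=
      mul_le_mul_of_nonneg_left hpl (by positivity)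
    nlinarith [mul_le_mul_of_nonneg_left this hC0]
  have k2 : (1 - C) * ((1 + V) ^ 3 * (1 + U + (U ^ 2 - ∑ i ∈ L2, v i ^ 2) / 2) ^ 2) ≤
      (1 - C) * β * (1 + V) ^ 3 := by
    have : (1 + V) ^ 3 * (1 + U + (U ^ 2 - ∑ i ∈ L2, v i ^ 2) / 2) ^ 2 ≤ (1 + V) ^ 3 * β :=
      mul_le_mul_of_nonneg_left hβ' (by positivity)
    nlinarith [mul_le_mul_of_nonneg_left this h1C]
  calc 3 * V + 2 * U ≤ _ := hb
    _ ≤ C * α * (1 + V ^ 3) + (1 - C) * β * (1 + V) ^ 3 := by linarith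
    _ ≤ _ := hm
    _ = _ := by ring

end Pool.Agent.Work.MAC67
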