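import Pool.Agent.Work.MAC67.Consts
import Pool.Agent.Work.MAC67.Exist
import Pool.Agent.Work.MAC67.Perm

namespace Pool.Agent.Work.MAC67

open MeasureTheory
open scoped ENNReal

/-- a vector with constant arguments -/
theorem wt_const {n : ℕ} (x y : ℝ) (b : Fin n → Bool) :
    wt (fun _ => x) (fun _ => y) b = x ^ num b * y ^ (n - num b) := by
  unfold wt
  rw [Finset.prod_ite, Finset.prod_const, Finset.prod_const]
  congr 2
  have := Finset.card_filter_add_card_filter_not (s := (Finset.univ : Finset (Fin n)))
    (fun i => b i = true)
  simp only [Finset.card_univ, Fintype.card_fin] at this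
  unfold num
  omega

/-- sums over vectors of functions of the number of transmitters -/
theorem sum_num {n : ℕ} (g : ℕ → ℝ) :
    ∑ b : Fin n → Bool, g (num b) = ∑ k ∈ Finset.range (n + 1), (n.choose k : ℝ) * g k := by
  classical
  have h1 : ∑ b : Fin n → Bool, g (num b) =
      ∑ s ∈ (Finset.univ : Finset (Fin n)).powerset, g s.card := by
    rw [Finset.powerset_univ]
    refine Finset.sum_nbij' (fun b => Finset.univ.filter fun i => b i = true)
      (fun s => fun i => decide (i ∈ s)) ?_ ?_ ?_ ?_ ?_
    · intro b _; exact Finset.mem_univ _
    · intro s _; exact Finset.mem_univ _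
    · intro b _
      funext i
      simp
    · intro s _
      ext i
      simp
    · intro b _
      rfl
  rw [h1, Finset.sum_powerset_apply_card]
  simp [nsmul_eq_mul]

/-- lower bound `w` for all states with the same set for all users -/
def LB0 (n : ℕ) (μ : Measure ℝ) (w : ℝ) : Prop :=
  ∀ (A : List ℕ → Set ℝ), (∀ f, MeasurableSet (A f)) → ∀ (f : List ℕ) (T : Set ℝ),
    MeasurableSet T →
    ENNReal.ofReal (w * μ.real T ^ n) ≤ K μ A f (fun _ : Fin n => T)

theorem LB0_one (n : ℕ) (μ : Measure ℝ) [IsFiniteMeasure μ] : LB0 n μ 1 := by
  intro A _ f T _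
  have h := prod_real μ (fun _ : Fin n => T)
  rw [Finset.prod_const, Finset.card_univ, Fintype.card_fin] at h
  rw [one_mul, h]
  exact vol_le_K μ A f _

open Classical in
theorem LB0_step {n : ℕ} (hn : 3 ≤ n) (μ : Measure ℝ) [IsFiniteMeasure μ] (w : ℝ) (hw1 : 1 ≤ w)
    (hw2 : w ≤ ell n) (h : LB0 n μ w) : LB0 n μ (w + (ell n - w) / 5) := by
  intro A hA f T hT
  rw [K_step μ A hA f _ (fun i => hT)]
  set x : ℝ := μ.real (T ∩ A f) with hx
  set y : ℝ := μ.real (T \ A f) with hy
  have hx0 : 0 ≤ x := measureReal_nonneg
  have hy0 : 0 ≤ y := measureReal_nonneg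
  have hz3 := one_le_z 3
  have hz3' := z_three_le
  set e : ℕ → ℝ := fun k => if k = 1 then 0 else if k = 0 ∨ k = n then w else coef n k with he
  have hwt : ∀ b : Fin n → Bool, 0 ≤ wt (fun _ => x) (fun _ => y) b :=
    wt_nonneg (fun _ => hx0) (fun _ => hy0)
  have hterm : ∀ b : Fin n → Bool,
      ENNReal.ofReal ((1 + e (num b)) * wt (fun _ => x) (fun _ => y) b) ≤
      ∏ i, μ (spl (A f) (fun _ => T) b i) +
        if num b = 1 then 0 else K μ A (num b :: f) (spl (A f) (fun _ => T) b) := by
    intro b
    rw [mu_spl]
    by_cases h1 : num b = 1
    · simp only [he, h1, if_true, add_zero, one_mul]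
      exact le_rfl
    · rw [if_neg h1]
      have he0 : 0 ≤ e (num b) := by
        simp only [he]
        split
        · exact le_rfl
        · split
          · linarith
          · exact coef_nonneg _ _
      rw [add_mul, one_mul, ENNReal.ofReal_add (hwt b) (mul_nonneg he0 (hwt b))]
      refine add_le_add le_rfl ?_
      by_cases h2 : num b = 0 ∨ num b = n
      · have hew : e (num b) = w := by simp only [he, h1, h2, if_true, if_false]
        rw [hew]
        rcases h2 with h2 | h2
        · have hb : ∀ i, ¬ b i = true := by
            unfold num at h2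
            rw [Finset.card_eq_zero, Finset.filter_eq_empty_iff] at h2
            exact fun i => h2 (Finset.mem_univ i)
          have hs : spl (A f) (fun _ : Fin n => T) b = fun _ => T \ A f := by
            funext i
            unfold spl
            rw [if_neg (hb i)]
          rw [hs, wt_const, h2, pow_zero, one_mul, Nat.sub_zero]
          exact h A hA _ _ (hT.diff (hA f))
        · have hb : ∀ i, b i = true := by
            unfold num at h2
            have h3 : (Finset.univ.filter fun i => b i = true).card =
                (Finset.univ : Finset (Fin n)).card := by rw [h2, Finset.card_univ, Fintype.card_fin]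
            rw [Finset.card_filter_eq_iff] at h3
            exact fun i => h3 i (Finset.mem_univ i)
          have hs : spl (A f) (fun _ : Fin n => T) b = fun _ => T ∩ A f := by
            funext i
            unfold spl
            rw [if_pos (hb i)]
          rw [hs, wt_const, h2, Nat.sub_self, pow_zero, mul_one]
          exact h A hA _ _ (hT.inter (hA f))
      · by_cases h3 : num b = n - 1
        · have hew : e (num b) = 1 := by
            simp only [he]; rw [if_neg h1, if_neg h2]; unfold coef; rw [if_pos h3]
          rw [hew, one_mul]
          refine le_trans (le_of_eq ?_) (vol_le_K μ A (num b :: f) _)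
          rw [mu_spl]
        · by_cases h4 : 7 ≤ n ∧ (num b = 2 ∨ num b = n - 2)
          · have hew : e (num b) = 2 := by
              simp only [he]; rw [if_neg h1, if_neg h2]; unfold coef
              rw [if_neg h3, if_pos h4]
            rw [hew]
            obtain ⟨h7, h4⟩ := h4
            rcases h4 with h4 | h4
            · have := two_in h7 μ A hA (num b :: f) (hT.inter (hA f)) (hT.diff (hA f)) b h4
              rw [wt_const, h4]
              rw [h4] at this
              exact this
            · set b' : Fin n → Bool := fun i => !b i with hb'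
              have hb2 : num b' = 2 := by
                have := Finset.card_filter_add_card_filter_not
                  (s := (Finset.univ : Finset (Fin n))) (fun i => b i = true)
                simp only [Bool.not_eq_true, Finset.card_univ, Fintype.card_fin] at this
                unfold num at h4 ⊢
                simp only [hb', Bool.not_eq_true']
                omega
              have := two_in h7 μ A hA (num b :: f) (hT.diff (hA f)) (hT.inter (hA f)) b' hb2
              have hs : spl (A f) (fun _ : Fin n => T) b =
                  fun i => if b' i = true then T \ A f else T ∩ A f := by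
                funext i
                unfold spl
                simp only [hb']
                cases b i <;> simp
              rw [hs, wt_const, h4, show n - (n - 2) = 2 by omega]
              rw [h4] at this
              rw [mul_comm (x ^ (n - 2))]
              exact this
          · have hew : e (num b) = z 3 := by
              simp only [he]; rw [if_neg h1, if_neg h2]; unfold coef
              rw [if_neg h3, if_neg h4]
            rw [hew]
            have hnb : num b ≤ n := by
              unfold num
              exact (Finset.card_filter_le _ _).trans (by simp)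
            push Not at h2
            obtain ⟨c, hc, hcb⟩ := exists_small b (by omega) (by omega)
            have hlb := LBc_limit μ (z 3 - 1) (by linarith) (by linarith) block_three c hc
            have hs := spl_cst hcb (A f) (fun _ => T)
            rw [hs]
            refine le_trans (le_of_eq ?_) (hlb A hA (num b :: f)
              (fun l => if ∃ j, c j = l ∧ b j = true then T ∩ A f else T \ A f) ?_)
            · rw [show (1 + (z 3 - 1) : ℝ) = z 3 by ring]
              congr 2
              unfold wt
              refine Finset.prod_congr rfl fun i _ => ?_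
              have := congrFun hs i
              simp only at this
              rw [← this]
              unfold spl
              split <;> rfl
            · intro l
              split
              · exact hT.inter (hA f)
              · exact hT.diff (hA f)
  refine le_trans ?_ (Finset.sum_le_sum fun b _ => hterm b)
  have hcn : ∀ b : Fin n → Bool, 0 ≤ (1 + e (num b)) := by
    intro b
    simp only [he]
    split
    · norm_num
    · split
      · linarith
      · linarith [coef_nonneg n (num b)]
  rw [← ENNReal.ofReal_sum_of_nonneg fun b _ => mul_nonneg (hcn b) (hwt b)]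
  apply ENNReal.ofReal_le_ofReal
  have hsum : ∑ b : Fin n → Bool, (1 + e (num b)) * wt (fun _ => x) (fun _ => y) b =
      ∑ k ∈ Finset.range (n + 1), (n.choose k : ℝ) * ((1 + e k) * (x ^ k * y ^ (n - k))) := by
    rw [← sum_num (fun k => (1 + e k) * (x ^ k * y ^ (n - k)))]
    refine Finset.sum_congr rfl fun b _ => ?_
    rw [wt_const]
  have hM : μ.real T = x + y := (real_add _ (hA f)).symm
  rw [hsum, hM]
  -- split the sum
  have hsplit : ∑ k ∈ Finset.range (n + 1), (n.choose k : ℝ) * ((1 + e k) * (x ^ k * y ^ (n - k))) =
      (x + y) ^ n + w * (x ^ n + y ^ n) + ∑ i ∈ Finset.Ico 2 n, coef n i *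
        ((n.choose i : ℝ) * x ^ i * y ^ (n - i)) := by
    rw [binom_split (by omega) x y, Finset.sum_range_succ, Finset.range_eq_Ico,
      Finset.sum_eq_sum_Ico_succ_bot (by omega), Finset.sum_eq_sum_Ico_succ_bot (by omega)]
    have e0 : e 0 = w := by simp [he]
    have e1 : e 1 = 0 := by simp [he]
    have en : e n = w := by
      have h1 : ¬ n = 1 := by omega
      simp [he, h1]
    have hmid : ∑ k ∈ Finset.Ico (0 + 1 + 1) n,
        (n.choose k : ℝ) * ((1 + e k) * (x ^ k * y ^ (n - k))) =
        ∑ i ∈ Finset.Ico 2 n, ((n.choose i : ℝ) * x ^ i * y ^ (n - i)) +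
        ∑ i ∈ Finset.Ico 2 n, coef n i *
          ((n.choose i : ℝ) * x ^ i * y ^ (n - i)) := by
      rw [← Finset.sum_add_distrib]
      refine Finset.sum_congr rfl fun i hi => ?_
      have hi' := Finset.mem_Ico.mp hi
      have : e i = coef n i := by
        simp only [he]
        rw [if_neg (by omega), if_neg (by omega)]
      rw [this]
      ring
    rw [hmid, e0, e1, en]
    simp only [pow_zero, Nat.sub_zero, Nat.choose_zero_right, Nat.cast_one, zero_add, pow_one,
      Nat.choose_one_right, Nat.sub_self, Nat.choose_self, one_mul, mul_one]
    ring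
  rw [hsplit]
  set R := ∑ i ∈ Finset.Ico 2 n, coef n i *
        ((n.choose i : ℝ) * x ^ i * y ^ (n - i)) with hR
  have hR0 : 0 ≤ R := by
    exact Finset.sum_nonneg fun i _ => mul_nonneg (coef_nonneg n i) (by positivity)
  set M := x + y with hMd
  have hM0 : 0 ≤ M := by positivity
  have hMn : 0 ≤ M ^ n := pow_nonneg hM0 n
  have hxy : x ^ n + y ^ n ≤ M ^ n := by
    rw [hMd, binom_split (by omega) x y]
    have h1 : 0 ≤ (n : ℝ) * x * y ^ (n - 1) := by positivity
    have h2 : 0 ≤ ∑ i ∈ Finset.Ico 2 n, ((n.choose i : ℝ) * x ^ i * y ^ (n - i)) :=
      Finset.sum_nonneg fun i _ => by positivity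
    linarith
  have hl5 := ell_le_five (n := n) (by omega)
  have hl1 := one_le_ell (n := n) (by omega)
  -- the inequality with the infimum
  have hkey : ell n * (M ^ n - x ^ n - y ^ n) ≤ M ^ n + R := by
    by_cases hx' : x = 0
    · have : x ^ n = 0 := by rw [hx', zero_pow (by omega)]
      have h2 : M ^ n = y ^ n := by rw [hMd, hx', zero_add]
      rw [this, h2]
      have : 0 ≤ y ^ n := by positivity
      nlinarith
    · by_cases hy' : y = 0
      · have : y ^ n = 0 := by rw [hy', zero_pow (by omega)]
        have h2 : M ^ n = x ^ n := by rw [hMd, hy', add_zero]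
        rw [this, h2]
        have : 0 ≤ x ^ n := by positivity
        nlinarith
      · have hxp : 0 < x := lt_of_le_of_ne hx0 (Ne.symm hx')
        have hyp : 0 < y := lt_of_le_of_ne hy0 (Ne.symm hy')
        have hMp : 0 < M := by positivity
        have hp0 : 0 < x / M := by positivity
        have hp1 : x / M < 1 := by rw [div_lt_one hMp]; linarith
        have hm := ell_mul (n := n) (by omega) hp0 hp1
        have e1 : 1 - x / M = y / M := by
          rw [hMd]; field_simp; ring
        rw [e1] at hm
        have h2 := mul_le_mul_of_nonneg_right hm hMn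
        have e2 : ell n * (1 - (x / M) ^ n - (y / M) ^ n) * M ^ n =
            ell n * (M ^ n - x ^ n - y ^ n) := by
          rw [div_pow, div_pow]
          field_simp
        have e3 : (1 + ∑ i ∈ Finset.Ico 2 n, coef n i *
            ((n.choose i : ℝ) * (x / M) ^ i * (y / M) ^ (n - i))) * M ^ n = M ^ n + R := by
          rw [add_mul, one_mul, Finset.sum_mul, hR]
          congr 1
          refine Finset.sum_congr rfl fun i hi => ?_
          have hi' := Finset.mem_Ico.mp hi
          rw [div_pow, div_pow]
          have : M ^ n = M ^ i * M ^ (n - i) := by rw [← pow_add]; congr 1; omega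
          rw [this]
          field_simp
        rw [e2, e3] at h2
        exact h2
  rcases le_total (M ^ n / 5) (M ^ n - x ^ n - y ^ n) with hc1 | hc1
  · nlinarith [mul_nonneg (sub_nonneg.mpr hw2) (sub_nonneg.mpr hc1)]
  · have h1 : w * (M ^ n - x ^ n - y ^ n) ≤ w * (M ^ n / 5) :=
      mul_le_mul_of_nonneg_left hc1 (by linarith)
    nlinarith

theorem LB0_limit {n : ℕ} (hn : 3 ≤ n) (μ : Measure ℝ) [IsFiniteMeasure μ] :
    LB0 n μ (ell n) := by
  have hl1 := one_le_ell (n := n) (by omega)
  have hk : ∀ k : ℕ, LB0 n μ (ell n - (ell n - 1) * (4 / 5) ^ k) := by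
    intro k
    induction k with
    | zero => simpa using LB0_one n μ
    | succ k ih =>
      have hp : 0 < (4 / 5 : ℝ) ^ k := by positivity
      have hp1 : (4 / 5 : ℝ) ^ k ≤ 1 := pow_le_one₀ (by norm_num) (by norm_num)
      have := LB0_step hn μ _ (by nlinarith) (by nlinarith) ih
      have e : ell n - (ell n - 1) * (4 / 5) ^ k +
          (ell n - (ell n - (ell n - 1) * (4 / 5) ^ k)) / 5 =
          ell n - (ell n - 1) * (4 / 5) ^ (k + 1) := by rw [pow_succ]; ring
      rwa [e] at this
  intro A hA f T hT
  have ht : Filter.Tendsto (fun k : ℕ => ENNReal.ofReal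
      ((ell n - (ell n - 1) * (4 / 5) ^ k) * μ.real T ^ n)) Filter.atTop
      (nhds (ENNReal.ofReal (ell n * μ.real T ^ n))) := by
    apply ENNReal.tendsto_ofReal
    apply Filter.Tendsto.mul_const
    have h0 : Filter.Tendsto (fun k : ℕ => (4 / 5 : ℝ) ^ k) Filter.atTop (nhds 0) :=
      tendsto_pow_atTop_nhds_zero_of_lt_one (by norm_num) (by norm_num)
    have h1 := (h0.const_mul (ell n - 1)).const_sub (ell n)
    simpa using h1
  exact le_of_tendsto' ht fun k => hk k A hA f T hT

theorem expectedTime_eq (n : ℕ) (h : Alg) :
    expectedTime n h = K ((volume : Measure ℝ).restrict (Set.Ico 0 1)) (setOf' h) []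
      (fun _ : Fin n => Set.univ) := by
  unfold expectedTime K
  rw [Set.pi_univ, Measure.restrict_univ]
  simp only [successTime_eq]

/-- The general lower bound. -/
theorem ell_le_zStar {n : ℕ} (hn : 3 ≤ n) : ENNReal.ofReal (ell n) ≤ zStar n := by
  unfold zStar
  refine le_iInf₂ fun h hb => ?_
  rw [expectedTime_eq]
  have := LB0_limit hn ((volume : Measure ℝ).restrict (Set.Ico 0 1)) (setOf' h)
    (setOf'_measurable h hb) [] Set.univ MeasurableSet.univ
  have e : ((volume : Measure ℝ).restrict (Set.Ico 0 1)).real Set.univ = 1 := by
    simp [Measure.real]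
  rwa [e, one_pow, mul_one] at this

end Pool.Agent.Work.MAC67
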