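import Pool.Agent.Work.MAC67.Excess

namespace Pool.Agent.Work.MAC67

open MeasureTheory
open scoped ENNReal

/-- truncated time -/
noncomputable def Zm {n : ℕ} (A : List ℕ → Set ℝ) (u : Fin n → ℝ) : ℕ → List ℕ → ℝ≥0∞
  | 0, _ => 0
  | T + 1, f => 1 + if cnt A u f = 1 then 0 else Zm A u T (nxt A u f)

theorem Zm_mono {n : ℕ} (A : List ℕ → Set ℝ) (u : Fin n → ℝ) (T : ℕ) :
    ∀ f, Zm A u T f ≤ Zm A u (T + 1) f := by
  induction T with
  | zero => intro f; simp [Zm]
  | succ T ih =>
    intro f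
    rw [Zm, Zm]
    refine add_le_add le_rfl ?_
    split
    · exact le_rfl
    · exact ih _

theorem Zt_le_of {n : ℕ} (A : List ℕ → Set ℝ) (u : Fin n → ℝ) (t : ℕ) :
    ∀ f, cnt A u ((nxt A u)^[t] f) = 1 → ((Zt A u f : ℕ∞) : ℝ≥0∞) ≤ Zm A u (t + 1) f := by
  induction t with
  | zero =>
    intro f h
    simp only [Function.iterate_zero, id_eq] at h
    rw [Zt_eq_one A u f h, Zm, if_pos h]
    simp
  | succ t ih =>
    intro f h
    by_cases h1 : cnt A u f = 1
    · rw [Zt_eq_one A u f h1, Zm, if_pos h1]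
      simp
    · rw [Zt_step A u f h1, Zm, if_neg h1]
      rw [Function.iterate_succ_apply] at h
      have := ih (nxt A u f) h
      rw [ENat.toENNReal_add, ENat.toENNReal_one]
      exact add_le_add le_rfl this

theorem Zm_of_never {n : ℕ} (A : List ℕ → Set ℝ) (u : Fin n → ℝ) (T : ℕ) :
    ∀ f, (∀ t, cnt A u ((nxt A u)^[t] f) ≠ 1) → Zm A u T f = T := by
  induction T with
  | zero => intro f _; simp [Zm]
  | succ T ih =>
    intro f h
    rw [Zm, if_neg (by simpa using h 0), ih (nxt A u f)]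
    · push_cast; ring
    · intro t
      have := h (t + 1)
      rwa [Function.iterate_succ_apply] at this

theorem Zt_le_iSup {n : ℕ} (A : List ℕ → Set ℝ) (u : Fin n → ℝ) (f : List ℕ) :
    ((Zt A u f : ℕ∞) : ℝ≥0∞) ≤ ⨆ T, Zm A u T f := by
  by_cases h : ∃ t, cnt A u ((nxt A u)^[t] f) = 1
  · obtain ⟨t, ht⟩ := h
    exact (Zt_le_of A u t f ht).trans (le_iSup (fun T => Zm A u T f) (t + 1))
  · push Not at h
    have : (⨆ T, Zm A u T f) = ⊤ := by
      simp only [Zm_of_never A u _ f h]
      exact ENNReal.iSup_natCast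
    rw [this]
    exact le_top

theorem measurable_cnt {n : ℕ} (A : List ℕ → Set ℝ) (hA : ∀ f, MeasurableSet (A f))
    (f : List ℕ) : Measurable fun u : Fin n → ℝ => cnt A u f := by
  classical
  have : (fun u : Fin n → ℝ => cnt A u f) = fun u => ∑ i : Fin n, if u i ∈ A f then 1 else 0 := by
    funext u
    unfold cnt
    rw [Finset.card_filter]
  rw [this]
  refine Finset.measurable_sum _ fun i _ => ?_
  exact Measurable.ite ((measurable_pi_apply i) (hA f)) measurable_const measurable_const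

theorem measurable_Zm {n : ℕ} (A : List ℕ → Set ℝ) (hA : ∀ f, MeasurableSet (A f)) (T : ℕ) :
    ∀ f, Measurable fun u : Fin n → ℝ => Zm A u T f := by
  induction T with
  | zero => intro f; simp only [Zm]; exact measurable_const
  | succ T ih =>
    intro f
    simp only [Zm]
    refine Measurable.const_add ?_ 1
    refine Measurable.ite ?_ measurable_const ?_
    · exact (measurable_cnt A hA f) (measurableSet_singleton 1)
    · have h1 : Measurable fun p : (Fin n → ℝ) × ℕ => Zm A p.1 T (p.2 :: f) :=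
        measurable_from_prod_countable_left fun k => ih (k :: f)
      exact h1.comp (measurable_id.prodMk (measurable_cnt A hA f))

/-- truncated integral -/
noncomputable def KZ {n : ℕ} (μ : Measure ℝ) (A : List ℕ → Set ℝ) (T : ℕ) (f : List ℕ)
    (S : Fin n → Set ℝ) : ℝ≥0∞ :=
  ∫⁻ u in Set.univ.pi S, Zm A u T f ∂(Measure.pi fun _ => μ)

theorem K_le_iSup {n : ℕ} (μ : Measure ℝ) (A : List ℕ → Set ℝ)
    (hA : ∀ f, MeasurableSet (A f)) (f : List ℕ) (S : Fin n → Set ℝ) :
    K μ A f S ≤ ⨆ T, KZ μ A T f S := by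
  unfold K KZ
  rw [← lintegral_iSup (fun T => measurable_Zm A hA T f)]
  · exact lintegral_mono fun u => Zt_le_iSup A u f
  · exact monotone_nat_of_le_succ fun T u => Zm_mono A u T f

theorem KZ_zero {n : ℕ} (μ : Measure ℝ) (A : List ℕ → Set ℝ) (f : List ℕ)
    (S : Fin n → Set ℝ) : KZ μ A 0 f S = 0 := by
  unfold KZ
  simp [Zm]

theorem KZ_null {n : ℕ} (μ : Measure ℝ) [SigmaFinite μ] (A : List ℕ → Set ℝ) (T : ℕ)
    (f : List ℕ) (S : Fin n → Set ℝ) (h : ∏ i, μ (S i) = 0) : KZ μ A T f S = 0 := by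
  unfold KZ
  rw [← Measure.pi_pi] at h
  exact setLIntegral_measure_zero _ _ h

theorem KZ_step {n : ℕ} (μ : Measure ℝ) [SigmaFinite μ] (A : List ℕ → Set ℝ)
    (hA : ∀ f, MeasurableSet (A f)) (T : ℕ) (f : List ℕ) (S : Fin n → Set ℝ)
    (hS : ∀ i, MeasurableSet (S i)) :
    KZ μ A (T + 1) f S = ∑ b : Fin n → Bool, (∏ i, μ (spl (A f) S b i) +
      if num b = 1 then 0 else KZ μ A T (num b :: f) (spl (A f) S b)) := by
  unfold KZ
  rw [pi_eq_iUnion (A f) S, lintegral_iUnion, tsum_fintype]
  · refine Finset.sum_congr rfl fun b _ => ?_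
    have hm : MeasurableSet (Set.univ.pi (spl (A f) S b)) :=
      MeasurableSet.univ_pi fun i => spl_measurable (hA f) hS b i
    have hv : ∏ i, μ (spl (A f) S b i) =
        ∫⁻ _ in Set.univ.pi (spl (A f) S b), 1 ∂(Measure.pi fun _ => μ) := by
      rw [setLIntegral_one, Measure.pi_pi]
    rw [hv]
    split
    · rename_i h1
      rw [add_zero]
      refine setLIntegral_congr_fun hm fun u hu => ?_
      have : cnt A u f = 1 := by rw [cnt_eq A f S b u hu, h1]
      simp only [Zm, this, if_true, add_zero]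
    · rename_i h1
      rw [← lintegral_add_left measurable_const]
      refine setLIntegral_congr_fun hm fun u hu => ?_
      have hc := cnt_eq A f S b u hu
      have h2 : cnt A u f ≠ 1 := by rw [hc]; exact h1
      simp only [Zm, nxt, hc, if_neg h1]
  · exact fun b => MeasurableSet.univ_pi fun i => spl_measurable (hA f) hS b i
  · exact pi_disjoint (A f) S

end Pool.Agent.Work.MAC67
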