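import Pool.Agent.Work.MAC67.Trunc
import Pool.Agent.Work.MAC67.Top

namespace Pool.Agent.Work.MAC67

open MeasureTheory
open scoped ENNReal

/-! ### The two-group partition scheme -/

/-- the state `(group size, left end, right end)` after a feedback history -/
noncomputable def st (n : ℕ) (p : ℕ → ℝ) : List ℕ → ℕ × ℝ × ℝ
  | [] => (n, 0, 1)
  | k :: f =>
    let s := st n p f
    let c := s.2.1 + p s.1 * (s.2.2 - s.2.1)
    if k = 0 then (s.1, c, s.2.2)
    else if k = s.1 then (s.1, s.2.1, c)
    else if z k ≤ z (s.1 - k) then (k, s.2.1, c)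
    else (s.1 - k, c, s.2.2)

/-- the middle point -/
noncomputable def cut (n : ℕ) (p : ℕ → ℝ) (f : List ℕ) : ℝ :=
  (st n p f).2.1 + p (st n p f).1 * ((st n p f).2.2 - (st n p f).2.1)

/-- the set of the transmitting users -/
noncomputable def SA (n : ℕ) (p : ℕ → ℝ) (f : List ℕ) : Set ℝ :=
  Set.Ico (st n p f).2.1 (cut n p f)

theorem SA_measurable (n : ℕ) (p : ℕ → ℝ) (f : List ℕ) : MeasurableSet (SA n p f) :=
  measurableSet_Ico

theorem sum_bool_finset {n : ℕ} (F : (Fin n → Bool) → ℝ) :
    ∑ b, F b = ∑ s ∈ (Finset.univ : Finset (Fin n)).powerset, F (fun i => decide (i ∈ s)) := by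
  classical
  rw [Finset.powerset_univ]
  refine Finset.sum_nbij' (fun b => Finset.univ.filter fun i => b i = true)
    (fun s => fun i => decide (i ∈ s)) ?_ ?_ ?_ ?_ ?_
  · intro b _; exact Finset.mem_univ _
  · intro s _; exact Finset.mem_univ _
  · intro b _
    funext i
    simp
  · intro s _
    ext i
    simp
  · intro b _
    congr
    funext i
    simp

theorem num_decide {n : ℕ} (s : Finset (Fin n)) : num (fun i => decide (i ∈ s)) = s.card := by
  unfold num
  congr 1
  ext i
  simp

/-- the weights when only the users of `G` can transmit -/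
theorem sum_group {n : ℕ} (G : Finset (Fin n)) (x y : Fin n → ℝ) (u v : ℝ)
    (hx : ∀ i ∈ G, x i = u) (hy : ∀ i ∈ G, y i = v) (hx0 : ∀ i ∉ G, x i = 0) (c : ℕ → ℝ) :
    ∑ b : Fin n → Bool, c (num b) * wt x y b =
      (∑ k ∈ Finset.range (G.card + 1), (G.card.choose k : ℝ) *
        (c k * (u ^ k * v ^ (G.card - k)))) * ∏ i ∈ Finset.univ \ G, y i := by
  classical
  rw [sum_bool_finset]
  have h1 : ∀ s : Finset (Fin n), s ⊆ G →
      wt x y (fun i => decide (i ∈ s)) = (u ^ s.card * v ^ (G.card - s.card)) *
        ∏ i ∈ Finset.univ \ G, y i := by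
    intro s hs
    unfold wt
    rw [← Finset.prod_sdiff (Finset.subset_univ G), mul_comm]
    congr 1
    · rw [← Finset.prod_sdiff hs, mul_comm]
      congr 1
      · rw [Finset.prod_congr rfl (g := fun _ => u), Finset.prod_const]
        intro i hi
        simp [hi, hx i (hs hi)]
      · rw [Finset.prod_congr rfl (g := fun _ => v), Finset.prod_const,
          Finset.card_sdiff_of_subset hs]
        intro i hi
        have := Finset.mem_sdiff.mp hi
        simp [this.2, hy i this.1]
    · refine Finset.prod_congr rfl fun i hi => ?_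
      have : i ∉ s := fun h => (Finset.mem_sdiff.mp hi).2 (hs h)
      simp [this]
  have h2 : ∑ s ∈ (Finset.univ : Finset (Fin n)).powerset,
      c (num (fun i => decide (i ∈ s))) * wt x y (fun i => decide (i ∈ s)) =
      ∑ s ∈ G.powerset, c (num (fun i => decide (i ∈ s))) * wt x y (fun i => decide (i ∈ s)) := by
    symm
    refine Finset.sum_subset (Finset.powerset_mono.mpr (Finset.subset_univ G)) fun s _ hs => ?_
    rw [Finset.mem_powerset] at hs
    obtain ⟨i, his, hiG⟩ := Finset.not_subset.mp hs
    have : wt x y (fun i => decide (i ∈ s)) = 0 := by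
      unfold wt
      refine Finset.prod_eq_zero (Finset.mem_univ i) ?_
      simp [his, hx0 i hiG]
    rw [this, mul_zero]
  rw [h2]
  have h3 : ∑ s ∈ G.powerset, c (num (fun i => decide (i ∈ s))) *
      wt x y (fun i => decide (i ∈ s)) =
      ∑ s ∈ G.powerset, (c s.card * (u ^ s.card * v ^ (G.card - s.card))) *
        ∏ i ∈ Finset.univ \ G, y i := by
    refine Finset.sum_congr rfl fun s hs => ?_
    rw [num_decide, h1 s (Finset.mem_powerset.mp hs)]
    ring
  rw [h3, ← Finset.sum_mul, Finset.sum_powerset_apply_card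
    (fun k => c k * (u ^ k * v ^ (G.card - k)))]
  simp only [nsmul_eq_mul]

/-- the invariant: a group `G` in the current interval, all others outside -/
def Inv (n : ℕ) (p : ℕ → ℝ) (f : List ℕ) (G : Finset (Fin n)) (S : Fin n → Set ℝ) : Prop :=
  G.card = (st n p f).1 ∧ 1 ≤ (st n p f).1 ∧
    0 ≤ (st n p f).2.1 ∧ (st n p f).2.1 ≤ (st n p f).2.2 ∧ (st n p f).2.2 ≤ 1 ∧
    (∀ i, MeasurableSet (S i)) ∧
    (∀ i ∈ G, S i = Set.Ico (st n p f).2.1 (st n p f).2.2) ∧
    ∀ i ∉ G, Disjoint (S i) (Set.Ico (st n p f).2.1 (st n p f).2.2)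

theorem cut_mem {n : ℕ} {p : ℕ → ℝ} (hp : ∀ g, 0 < p g ∧ p g ≤ 1) {f : List ℕ}
    (h : (st n p f).2.1 ≤ (st n p f).2.2) :
    (st n p f).2.1 ≤ cut n p f ∧ cut n p f ≤ (st n p f).2.2 := by
  have := hp (st n p f).1
  unfold cut
  constructor <;> nlinarith

/-- the next state -/
theorem inv_next {n : ℕ} {p : ℕ → ℝ} (hp : ∀ g, 0 < p g ∧ p g ≤ 1) {f : List ℕ}
    {G : Finset (Fin n)} {S : Fin n → Set ℝ} (h : Inv n p f G S) (b : Fin n → Bool)
    (hb : ∀ i, b i = true → i ∈ G) :
    ∃ G', Inv n p (num b :: f) G' (spl (SA n p f) S b) := by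
  obtain ⟨hG, hg, h0, hab, hb1, hS, hI, hO⟩ := h
  obtain ⟨hc1, hc2⟩ := cut_mem hp hab
  have hnum : num b ≤ G.card := by
    unfold num
    exact Finset.card_le_card fun i hi => hb i (Finset.mem_filter.mp hi).2
  have hmeas : ∀ i, MeasurableSet (spl (SA n p f) S b i) :=
    spl_measurable (SA_measurable n p f) hS b
  have hcap : ∀ i ∈ G, b i = true →
      spl (SA n p f) S b i = Set.Ico (st n p f).2.1 (cut n p f) := by
    intro i hi hbi
    unfold spl SA
    rw [if_pos hbi, hI i hi]
    ext x
    simp only [Set.mem_inter_iff, Set.mem_Ico]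
    constructor
    · rintro ⟨_, h⟩; exact h
    · rintro ⟨h, h'⟩; exact ⟨⟨h, lt_of_lt_of_le h' hc2⟩, h, h'⟩
  have hdif : ∀ i ∈ G, b i ≠ true →
      spl (SA n p f) S b i = Set.Ico (cut n p f) (st n p f).2.2 := by
    intro i hi hbi
    unfold spl SA
    rw [if_neg hbi, hI i hi]
    ext x
    simp only [Set.mem_sdiff, Set.mem_Ico, not_and, not_lt]
    constructor
    · rintro ⟨⟨h, h'⟩, h''⟩; exact ⟨h'' h, h'⟩
    · rintro ⟨h, h'⟩; exact ⟨⟨hc1.trans h, h'⟩, fun _ => h⟩
  have hout : ∀ i ∉ G, spl (SA n p f) S b i ⊆ S i := by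
    intro i _
    unfold spl
    split
    · exact Set.inter_subset_left
    · exact Set.sdiff_subset
  have hsub1 : Set.Ico (st n p f).2.1 (cut n p f) ⊆ Set.Ico (st n p f).2.1 (st n p f).2.2 :=
    Set.Ico_subset_Ico_right hc2
  have hsub2 : Set.Ico (cut n p f) (st n p f).2.2 ⊆ Set.Ico (st n p f).2.1 (st n p f).2.2 :=
    Set.Ico_subset_Ico_left hc1
  have hdis : Disjoint (Set.Ico (st n p f).2.1 (cut n p f))
      (Set.Ico (cut n p f) (st n p f).2.2) := by
    rw [Set.disjoint_left]
    intro x hx hx'
    exact absurd hx.2 (not_lt.mpr hx'.1)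
  by_cases k0 : num b = 0
  · have hst : st n p (num b :: f) = ((st n p f).1, cut n p f, (st n p f).2.2) := by
      simp only [st, k0, if_true]; rfl
    have hbf : ∀ i, b i ≠ true := by
      intro i
      rw [num_zero k0]; simp
    refine ⟨G, ?_⟩
    unfold Inv
    rw [hst]
    exact ⟨hG, hg, h0.trans hc1, hc2, hb1, hmeas, fun i hi => hdif i hi (hbf i),
      fun i hi => (hO i hi).mono (hout i hi) hsub2⟩
  · by_cases kg : num b = (st n p f).1
    · have hst : st n p (num b :: f) = ((st n p f).1, (st n p f).2.1, cut n p f) := by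
        simp only [st]
        rw [if_neg k0, if_pos kg]; rfl
      have hbt : ∀ i ∈ G, b i = true := by
        have h3 : (Finset.univ.filter fun i => b i = true) ⊆ G :=
          fun i hi => hb i (Finset.mem_filter.mp hi).2
        have h4 : (Finset.univ.filter fun i => b i = true) = G := by
          apply Finset.eq_of_subset_of_card_le h3
          unfold num at kg
          rw [hG, kg]
        intro i hi
        rw [← h4] at hi
        exact (Finset.mem_filter.mp hi).2
      refine ⟨G, ?_⟩
      unfold Inv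
      rw [hst]
      exact ⟨hG, hg, h0, hc1, hc2.trans hb1, hmeas, fun i hi => hcap i hi (hbt i hi),
        fun i hi => (hO i hi).mono (hout i hi) hsub1⟩
    · by_cases kz : z (num b) ≤ z ((st n p f).1 - num b)
      · have hst : st n p (num b :: f) = (num b, (st n p f).2.1, cut n p f) := by
          simp only [st]
          rw [if_neg k0, if_neg kg, if_pos kz]; rfl
        refine ⟨G.filter fun i => b i = true, ?_⟩
        unfold Inv
        rw [hst]
        refine ⟨?_, by simp only; omega, h0, hc1, hc2.trans hb1, hmeas, ?_, ?_⟩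
        · have h8 : (G.filter fun i => b i = true).card = num b := by
            unfold num
            congr 1
            ext i
            simp only [Finset.mem_filter, Finset.mem_univ, true_and]
            exact ⟨fun h => h.2, fun h => ⟨hb i h, h⟩⟩
          exact h8
        · intro i hi
          obtain ⟨h5, h6⟩ := Finset.mem_filter.mp hi
          exact hcap i h5 h6
        · intro i hi
          by_cases hiG : i ∈ G
          · have : b i ≠ true := fun h => hi (Finset.mem_filter.mpr ⟨hiG, h⟩)
            rw [hdif i hiG this]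
            exact hdis.symm
          · exact (hO i hiG).mono (hout i hiG) hsub1
      · have hst : st n p (num b :: f) = ((st n p f).1 - num b, cut n p f, (st n p f).2.2) := by
          simp only [st]
          rw [if_neg k0, if_neg kg, if_neg kz]; rfl
        refine ⟨G.filter fun i => ¬ b i = true, ?_⟩
        unfold Inv
        rw [hst]
        refine ⟨?_, by simp only; omega, h0.trans hc1, hc2, hb1, hmeas, ?_, ?_⟩
        · have h7 := Finset.card_filter_add_card_filter_not (s := G) (fun i => b i = true)
          have h8 : (G.filter fun i => b i = true).card = num b := by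
            unfold num
            congr 1
            ext i
            simp only [Finset.mem_filter, Finset.mem_univ, true_and]
            exact ⟨fun h => h.2, fun h => ⟨hb i h, h⟩⟩
          simp only
          omega
        · intro i hi
          obtain ⟨h5, h6⟩ := Finset.mem_filter.mp hi
          exact hdif i h5 h6
        · intro i hi
          by_cases hiG : i ∈ G
          · have : b i = true := by
              by_contra h
              exact hi (Finset.mem_filter.mpr ⟨hiG, h⟩)
            rw [hcap i hiG this]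
            exact hdis
          · exact (hO i hiG).mono (hout i hiG) hsub2

/-- almost optimal probabilities -/
theorem exists_p (δ : ℝ) (hδ : 0 < δ) : ∃ p : ℕ → ℝ, (∀ g, 0 < p g ∧ p g ≤ 1) ∧ p 1 = 1 ∧
    ∀ g, 2 ≤ g → 1 + ∑ i ∈ Finset.Ico 2 g, min (z i) (z (g - i)) *
      ((g.choose i : ℝ) * p g ^ i * (1 - p g) ^ (g - i)) ≤
      z g * (1 + δ) * (1 - p g ^ g - (1 - p g) ^ g) := by
  have h : ∀ g : ℕ, ∃ q : ℝ, 0 < q ∧ q ≤ 1 ∧ (g = 1 → q = 1) ∧
      (2 ≤ g → 1 + ∑ i ∈ Finset.Ico 2 g, min (z i) (z (g - i)) *
      ((g.choose i : ℝ) * q ^ i * (1 - q) ^ (g - i)) ≤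
      z g * (1 + δ) * (1 - q ^ g - (1 - q) ^ g)) := by
    intro g
    by_cases hg : 2 ≤ g
    · have hlt : (⨅ p : Set.Ioo (0 : ℝ) 1, quot g (fun i => min (z i) (z (g - i))) p) <
          z g * (1 + δ) := by
        rw [← z_eq hg]
        have := one_le_z g
        nlinarith
      obtain ⟨q, hq⟩ := exists_lt_of_ciInf_lt hlt
      refine ⟨q, q.2.1, q.2.2.le, fun h => by omega, fun _ => ?_⟩
      unfold quot at hq
      rw [div_lt_iff₀ (den_pos hg q.2.1 q.2.2)] at hq
      exact hq.le
    · exact ⟨1, by norm_num, le_rfl, fun _ => rfl, fun h => absurd h hg⟩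
  choose p hp using h
  exact ⟨p, fun g => ⟨(hp g).1, (hp g).2.1⟩, (hp 1).2.2.1 rfl, fun g hg => (hp g).2.2.2 hg⟩

/-- the inequality of one step of the scheme -/
theorem upper_real {δ : ℝ} (hδ : 0 < δ) {g : ℕ} (hg : 1 ≤ g) {q : ℝ} (hq0 : 0 < q) (hq1 : q ≤ 1)
    (h1 : g = 1 → q = 1)
    (h2 : 2 ≤ g → 1 + ∑ i ∈ Finset.Ico 2 g, min (z i) (z (g - i)) *
      ((g.choose i : ℝ) * q ^ i * (1 - q) ^ (g - i)) ≤
      z g * (1 + δ) * (1 - q ^ g - (1 - q) ^ g)) (c : ℕ → ℝ)
    (hc : ∀ k, c k ≤ if k = 1 then 1 else 1 + if k = 0 ∨ k = g then z g * (1 + δ) ^ g else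
      min (z k) (z (g - k)) * (1 + δ) ^ (g - 1)) :
    ∑ k ∈ Finset.range (g + 1), (g.choose k : ℝ) * (c k * (q ^ k * (1 - q) ^ (g - k))) ≤
      z g * (1 + δ) ^ g := by
  have hzg := one_le_z g
  have hq1' : 0 ≤ 1 - q := by linarith
  have hd1 : (1 : ℝ) ≤ 1 + δ := by linarith
  have hpow : ∀ m : ℕ, (1 : ℝ) ≤ (1 + δ) ^ m := fun m => one_le_pow₀ hd1
  rcases Nat.lt_or_ge g 2 with hg2 | hg2
  · have hg1 : g = 1 := by omega
    subst hg1
    rw [h1 rfl]
    simp only [Finset.sum_range_succ, Finset.sum_range_zero]
    have hc1 := hc 1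
    simp only [if_true] at hc1
    have := hpow 1
    norm_num at this ⊢
    nlinarith
  · have hmono : ∑ k ∈ Finset.range (g + 1), (g.choose k : ℝ) * (c k * (q ^ k * (1 - q) ^ (g - k))) ≤
        ∑ k ∈ Finset.range (g + 1), (g.choose k : ℝ) * ((if k = 1 then 1 else
          1 + if k = 0 ∨ k = g then z g * (1 + δ) ^ g else
            min (z k) (z (g - k)) * (1 + δ) ^ (g - 1)) * (q ^ k * (1 - q) ^ (g - k))) := by
      refine Finset.sum_le_sum fun k _ => ?_
      apply mul_le_mul_of_nonneg_left _ (Nat.cast_nonneg _)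
      exact mul_le_mul_of_nonneg_right (hc k) (by positivity)
    refine hmono.trans ?_
    have hsplit : ∑ k ∈ Finset.range (g + 1), (g.choose k : ℝ) * ((if k = 1 then 1 else
          1 + if k = 0 ∨ k = g then z g * (1 + δ) ^ g else
            min (z k) (z (g - k)) * (1 + δ) ^ (g - 1)) * (q ^ k * (1 - q) ^ (g - k))) =
        1 + z g * (1 + δ) ^ g * (q ^ g + (1 - q) ^ g) + (1 + δ) ^ (g - 1) *
          ∑ i ∈ Finset.Ico 2 g, min (z i) (z (g - i)) *
            ((g.choose i : ℝ) * q ^ i * (1 - q) ^ (g - i)) := by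
      have hb := binom_split hg2 q (1 - q)
      rw [show q + (1 - q) = 1 by ring, one_pow] at hb
      rw [Finset.sum_range_succ, Finset.range_eq_Ico,
        Finset.sum_eq_sum_Ico_succ_bot (by omega), Finset.sum_eq_sum_Ico_succ_bot (by omega)]
      have hmid : ∑ k ∈ Finset.Ico (0 + 1 + 1) g, (g.choose k : ℝ) * ((if k = 1 then 1 else
          1 + if k = 0 ∨ k = g then z g * (1 + δ) ^ g else
            min (z k) (z (g - k)) * (1 + δ) ^ (g - 1)) * (q ^ k * (1 - q) ^ (g - k))) =
          ∑ i ∈ Finset.Ico 2 g, ((g.choose i : ℝ) * q ^ i * (1 - q) ^ (g - i)) +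
          (1 + δ) ^ (g - 1) * ∑ i ∈ Finset.Ico 2 g, min (z i) (z (g - i)) *
            ((g.choose i : ℝ) * q ^ i * (1 - q) ^ (g - i)) := by
        rw [Finset.mul_sum, ← Finset.sum_add_distrib]
        refine Finset.sum_congr rfl fun k hk => ?_
        have hk' := Finset.mem_Ico.mp hk
        rw [if_neg (by omega), if_neg (by omega)]
        ring
      rw [hmid]
      have e1 : ¬ g = 1 := by omega
      simp only [e1, if_false, if_true, true_or, or_true, zero_add, Nat.choose_one_right,
        Nat.choose_self, Nat.choose_zero_right, Nat.cast_one, pow_zero, pow_one, Nat.sub_zero,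
        Nat.sub_self, one_mul, mul_one, zero_ne_one]
      linarith
    rw [hsplit]
    set W := ∑ i ∈ Finset.Ico 2 g, min (z i) (z (g - i)) *
            ((g.choose i : ℝ) * q ^ i * (1 - q) ^ (g - i))
    have h3 := mul_le_mul_of_nonneg_left (h2 hg2) (show 0 ≤ (1 + δ) ^ (g - 1) by positivity)
    have h4 := hpow (g - 1)
    have h5 : (1 + δ) ^ g = (1 + δ) ^ (g - 1) * (1 + δ) := by
      rw [← pow_succ]; congr 1; omega
    rw [h5]
    nlinarith

theorem real_Ico {a b : ℝ} (h0 : 0 ≤ a) (hab : a ≤ b) (hb : b ≤ 1) :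
    ((volume : Measure ℝ).restrict (Set.Ico 0 1)).real (Set.Ico a b) = b - a := by
  rw [measureReal_restrict_apply measurableSet_Ico, Set.Ico_inter_Ico, Real.volume_real_Ico]
  rw [sup_of_le_left h0, inf_of_le_left hb]
  exact max_eq_left (by linarith)

theorem KZ_upper {n : ℕ} {δ : ℝ} (hδ : 0 < δ) {p : ℕ → ℝ} (hp : ∀ g, 0 < p g ∧ p g ≤ 1)
    (hp1 : p 1 = 1)
    (hp2 : ∀ g, 2 ≤ g → 1 + ∑ i ∈ Finset.Ico 2 g, min (z i) (z (g - i)) *
      ((g.choose i : ℝ) * p g ^ i * (1 - p g) ^ (g - i)) ≤
      z g * (1 + δ) * (1 - p g ^ g - (1 - p g) ^ g)) (T : ℕ) :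
    ∀ (f : List ℕ) (G : Finset (Fin n)) (S : Fin n → Set ℝ), Inv n p f G S →
      KZ ((volume : Measure ℝ).restrict (Set.Ico 0 1)) (SA n p) T f S ≤
        ENNReal.ofReal (z G.card * (1 + δ) ^ G.card *
          ∏ i, ((volume : Measure ℝ).restrict (Set.Ico 0 1)).real (S i)) := by
  set μ : Measure ℝ := (volume : Measure ℝ).restrict (Set.Ico 0 1) with hμ
  induction T with
  | zero => intro f G S _; rw [KZ_zero]; exact zero_le
  | succ T ih =>
    intro f G S hinv
    have hinv' := hinv
    obtain ⟨hG, hg, h0, hab, hb1, hS, hI, hO⟩ := hinv'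
    obtain ⟨hc1, hc2⟩ := cut_mem hp hab
    set g := G.card with hgd
    set q := p g with hqd
    have hq0 : 0 < q := (hp g).1
    have hq1 : q ≤ 1 := (hp g).2
    set a := (st n p f).2.1 with had
    set e := (st n p f).2.2 with hed
    have hcut : cut n p f = a + q * (e - a) := by unfold cut; rw [← hG]
    rw [KZ_step μ (SA n p) (SA_measurable n p) T f S hS]
    set x : Fin n → ℝ := fun i => μ.real (S i ∩ SA n p f) with hx
    set y : Fin n → ℝ := fun i => μ.real (S i \ SA n p f) with hy
    have hwt : ∀ b, 0 ≤ wt x y b := wt_nonneg (fun i => measureReal_nonneg)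
      (fun i => measureReal_nonneg)
    have hx0 : ∀ i ∉ G, x i = 0 := by
      intro i hi
      have : S i ∩ SA n p f = ∅ := by
        have h1 : SA n p f ⊆ Set.Ico a e := Set.Ico_subset_Ico_right hc2
        exact Set.disjoint_iff_inter_eq_empty.mp ((hO i hi).mono_right h1)
      simp only [hx, this, measureReal_empty]
    have hxG : ∀ i ∈ G, x i = q * (e - a) := by
      intro i hi
      have : S i ∩ SA n p f = Set.Ico a (cut n p f) := by
        unfold SA
        rw [hI i hi, Set.Ico_inter_Ico, sup_idem, inf_of_le_right hc2]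
      simp only [hx, this]
      rw [real_Ico h0 hc1 (hc2.trans hb1), hcut]
      ring
    have hyG : ∀ i ∈ G, y i = (1 - q) * (e - a) := by
      intro i hi
      have : S i \ SA n p f = Set.Ico (cut n p f) e := by
        unfold SA
        rw [hI i hi]
        ext t
        simp only [Set.mem_sdiff, Set.mem_Ico, not_and, not_lt]
        constructor
        · rintro ⟨⟨h, h'⟩, h''⟩; exact ⟨h'' h, h'⟩
        · rintro ⟨h, h'⟩; exact ⟨⟨hc1.trans h, h'⟩, fun _ => h⟩
      simp only [hy, this]
      rw [real_Ico (h0.trans hc1) hc2 hb1, hcut]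
      ring
    -- the coefficients
    set c : ℕ → ℝ := fun k => if k = 1 then 1 else 1 + if k = 0 ∨ k = g then z g * (1 + δ) ^ g else
      min (z k) (z (g - k)) * (1 + δ) ^ (g - 1) with hc
    have hzpos : ∀ k, 0 ≤ z k := fun k => by linarith [one_le_z k]
    have hcn : ∀ k, 0 ≤ c k := by
      intro k
      simp only [hc]
      split
      · norm_num
      · have h1 : 0 ≤ z g * (1 + δ) ^ g := mul_nonneg (hzpos g) (by positivity)
        have h2 : 0 ≤ min (z k) (z (g - k)) * (1 + δ) ^ (g - 1) :=
          mul_nonneg (le_min (hzpos _) (hzpos _)) (by positivity)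
        split <;> linarith
    have hterm : ∀ b : Fin n → Bool, (∏ i, μ (spl (SA n p f) S b i) +
        if num b = 1 then 0 else KZ μ (SA n p) T (num b :: f) (spl (SA n p f) S b)) ≤
        ENNReal.ofReal (c (num b) * wt x y b) := by
      intro b
      by_cases hb : ∀ i, b i = true → i ∈ G
      · by_cases h1 : num b = 1
        · rw [if_pos h1, add_zero, mu_spl]
          simp only [hc, h1, if_true, one_mul]
          exact le_rfl
        · rw [if_neg h1]
          obtain ⟨G', hG'⟩ := inv_next hp hinv b hb
          have h2 := ih (num b :: f) G' _ hG'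
          have hwtr : ∏ i, μ.real (spl (SA n p f) S b i) = wt x y b := by
            unfold wt
            refine Finset.prod_congr rfl fun i _ => ?_
            unfold spl
            split <;> rfl
          rw [hwtr] at h2
          have hnum : num b ≤ g := by
            unfold num
            exact Finset.card_le_card fun i hi => hb i (Finset.mem_filter.mp hi).2
          have hcard : z G'.card * (1 + δ) ^ G'.card ≤ c (num b) - 1 := by
            have h3 : G'.card = (st n p (num b :: f)).1 := hG'.1
            simp only [hc]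
            rw [if_neg h1]
            by_cases k0 : num b = 0 ∨ num b = g
            · rw [if_pos k0]
              have : (st n p (num b :: f)).1 = g := by
                simp only [st]
                rcases k0 with k0 | k0
                · rw [if_pos k0]; exact hG.symm
                · by_cases k1 : num b = 0
                  · rw [if_pos k1]; exact hG.symm
                  · rw [if_neg k1, if_pos (k0.trans hG)]; exact hG.symm
              rw [h3, this]
              linarith
            · rw [if_neg k0]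
              push Not at k0
              have hd1 : (1 : ℝ) ≤ 1 + δ := by linarith
              have hst : (st n p (num b :: f)).1 =
                  if z (num b) ≤ z (g - num b) then num b else g - num b := by
                simp only [st]
                rw [if_neg k0.1, if_neg (by rw [← hG]; exact k0.2), ← hG]
                split <;> rfl
              rw [h3, hst]
              split
              · rename_i hz
                rw [min_eq_left hz]
                have : (1 + δ) ^ num b ≤ (1 + δ) ^ (g - 1) := pow_le_pow_right₀ hd1 (by omega)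
                nlinarith [mul_le_mul_of_nonneg_left this (hzpos (num b))]
              · rename_i hz
                rw [min_eq_right (le_of_not_ge hz)]
                have : (1 + δ) ^ (g - num b) ≤ (1 + δ) ^ (g - 1) :=
                  pow_le_pow_right₀ hd1 (by omega)
                nlinarith [mul_le_mul_of_nonneg_left this (hzpos (g - num b))]
          rw [mu_spl]
          refine (add_le_add le_rfl h2).trans ?_
          have h4 : 0 ≤ z G'.card * (1 + δ) ^ G'.card := mul_nonneg (hzpos _) (by positivity)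
          rw [← ENNReal.ofReal_add (hwt b) (mul_nonneg h4 (hwt b))]
          apply ENNReal.ofReal_le_ofReal
          nlinarith [mul_le_mul_of_nonneg_right hcard (hwt b)]
      · push Not at hb
        obtain ⟨i, hbi, hi⟩ := hb
        have hz : wt x y b = 0 := by
          unfold wt
          refine Finset.prod_eq_zero (Finset.mem_univ i) ?_
          simp [hbi, hx0 i hi]
        have hz' : ∏ i, μ (spl (SA n p f) S b i) = 0 := by
          rw [mu_spl]
          have : wt (fun i => μ.real (S i ∩ SA n p f)) (fun i => μ.real (S i \ SA n p f)) b = 0 := hz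
          rw [this]; simp
        rw [hz', KZ_null μ _ _ _ _ hz', hz]
        simp
    refine (Finset.sum_le_sum fun b _ => hterm b).trans ?_
    rw [← ENNReal.ofReal_sum_of_nonneg fun b _ => mul_nonneg (hcn _) (hwt b)]
    apply ENNReal.ofReal_le_ofReal
    rw [sum_group G x y (q * (e - a)) ((1 - q) * (e - a)) hxG hyG hx0 c]
    have hvol : ∏ i, μ.real (S i) = (e - a) ^ g * ∏ i ∈ Finset.univ \ G, y i := by
      rw [← Finset.prod_sdiff (Finset.subset_univ G), mul_comm]
      congr 1
      · rw [Finset.prod_congr rfl (g := fun _ => e - a), Finset.prod_const]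
        intro i hi
        rw [hI i hi, real_Ico h0 hab hb1]
      · refine Finset.prod_congr rfl fun i hi => ?_
        have hiG := (Finset.mem_sdiff.mp hi).2
        have := real_add (μ := μ) (S i) (SA_measurable n p f)
        have h5 := hx0 i hiG
        simp only [hx] at h5
        simp only [hy]
        linarith
    rw [hvol]
    have hfac : ∑ k ∈ Finset.range (g + 1), (g.choose k : ℝ) *
        (c k * ((q * (e - a)) ^ k * ((1 - q) * (e - a)) ^ (g - k))) =
        (∑ k ∈ Finset.range (g + 1), (g.choose k : ℝ) * (c k * (q ^ k * (1 - q) ^ (g - k)))) *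
          (e - a) ^ g := by
      rw [Finset.sum_mul]
      refine Finset.sum_congr rfl fun k hk => ?_
      have hk' := Finset.mem_range.mp hk
      have : (e - a) ^ g = (e - a) ^ k * (e - a) ^ (g - k) := by
        rw [← pow_add]; congr 1; omega
      rw [this, mul_pow, mul_pow]
      ring
    rw [hfac]
    have hur := upper_real hδ (hG ▸ hg : 1 ≤ g) hq0 hq1
      (fun h => by rw [hqd, h]; exact hp1) (fun h => hp2 g h) c (fun k => le_rfl)
    have h6 : 0 ≤ (e - a) ^ g * ∏ i ∈ Finset.univ \ G, y i :=
      mul_nonneg (pow_nonneg (by linarith) _)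
        (Finset.prod_nonneg fun i _ => measureReal_nonneg)
    calc _ = (∑ k ∈ Finset.range (g + 1), (g.choose k : ℝ) * (c k * (q ^ k * (1 - q) ^ (g - k)))) *
          ((e - a) ^ g * ∏ i ∈ Finset.univ \ G, y i) := by ring
      _ ≤ _ := mul_le_mul_of_nonneg_right hur h6

/-- the decision rule of the scheme -/
noncomputable def rule (n : ℕ) (p : ℕ → ℝ) : Alg := by
  classical exact fun u _ f => decide (u ∈ SA n p f)

theorem rule_borel (n : ℕ) (p : ℕ → ℝ) : IsBorel (rule n p) := by
  classical
  intro x f
  unfold rule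
  apply measurable_to_bool
  have : (fun u : ℝ => decide (u ∈ SA n p f)) ⁻¹' {true} = SA n p f := by
    ext u; simp
  rw [this]
  exact SA_measurable n p f

theorem setOf_rule (n : ℕ) (p : ℕ → ℝ) : setOf' (rule n p) = SA n p := by
  classical
  funext f
  ext v
  simp [setOf', rule]

/-- The known upper bound: the partition scheme is an algorithm. -/
theorem zStar_le {n : ℕ} (hn : 1 ≤ n) : zStar n ≤ ENNReal.ofReal (z n) := by
  have hz := one_le_z n
  have key : ∀ δ : ℝ, 0 < δ → zStar n ≤ ENNReal.ofReal (z n * (1 + δ) ^ n) := by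
    intro δ hδ
    obtain ⟨p, hp, hp1, hp2⟩ := exists_p δ hδ
    refine (iInf₂_le (rule n p) (rule_borel n p)).trans ?_
    set μ : Measure ℝ := (volume : Measure ℝ).restrict (Set.Ico 0 1) with hμ
    rw [expectedTime_eq, setOf_rule]
    have e1 : K μ (SA n p) [] (fun _ : Fin n => Set.univ) =
        K μ (SA n p) [] (fun _ : Fin n => Set.Ico (0 : ℝ) 1) := by
      unfold K
      rw [hμ, ← Measure.restrict_pi_pi (fun _ : Fin n => (volume : Measure ℝ))
        (fun _ => Set.Ico (0 : ℝ) 1), Set.pi_univ, Measure.restrict_univ,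
        Measure.restrict_restrict (MeasurableSet.univ_pi fun _ => measurableSet_Ico), Set.inter_self]
    rw [e1]
    refine (K_le_iSup μ (SA n p) (SA_measurable n p) [] _).trans (iSup_le fun T => ?_)
    have hinv : Inv n p [] Finset.univ (fun _ : Fin n => Set.Ico (0 : ℝ) 1) := by
      exact ⟨by simp [st], hn, le_rfl, show (0 : ℝ) ≤ 1 by norm_num, le_rfl,
        fun _ => measurableSet_Ico, fun _ _ => rfl, fun i hi => absurd (Finset.mem_univ i) hi⟩
    have := KZ_upper hδ hp hp1 hp2 T [] Finset.univ _ hinv
    have e2 : μ.real (Set.Ico (0 : ℝ) 1) = 1 := by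
      rw [hμ, real_Ico le_rfl (by norm_num) le_rfl]; norm_num
    simpa [e2] using this
  have ht : Filter.Tendsto (fun j : ℕ => ENNReal.ofReal (z n * (1 + 1 / ((j : ℝ) + 1)) ^ n))
      Filter.atTop (nhds (ENNReal.ofReal (z n * (1 + 0) ^ n))) := by
    apply ENNReal.tendsto_ofReal
    apply Filter.Tendsto.const_mul
    apply Filter.Tendsto.pow
    exact tendsto_one_div_add_atTop_nhds_zero_nat.const_add 1
  rw [add_zero, one_pow, mul_one] at ht
  exact ge_of_tendsto' ht fun j => key _ (by positivity)

end Pool.Agent.Work.MAC67
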